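import Pool.Agent.H65.MZ.Count

/-! # Dimensions -/

set_option autoImplicit false

namespace Pool.Agent.H65.MZ

open List Module

/-- the word `x w y` -/
def emb (n : ℕ) (w : List.Vector Bool n) : List Bool := false :: (w.1 ++ [true])

theorem emb_inj (n : ℕ) : Function.Injective (emb n) := by
  intro v w h
  unfold emb at h
  have h1 : v.1 ++ [true] = w.1 ++ [true] := by simpa using h
  exact Subtype.ext (append_cancel_right h1)

theorem H0_eq (n : ℕ) : H0 (n + 2) =
    Submodule.span ℚ (Set.range fun w : List.Vector Bool n => (Finsupp.single (emb n w) 1 : W)) := by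
  rw [H0]
  congr 1
  ext f
  constructor
  · rintro ⟨s, hs, hn, rfl⟩
    rcases hs with h | ⟨h1, h2⟩
    · rw [h] at hn; simp at hn
    · rcases s with _ | ⟨a, r⟩
      · simp at hn
      · simp only [head?_cons, Option.some.injEq] at h1
        subst h1
        have hr : r.length = n + 1 := by simpa using hn
        have hr0 : r ≠ [] := by rintro rfl; simp at hr
        have h3 : r.getLast hr0 = true := by
          cases r with
          | nil => exact absurd rfl hr0
          | cons b r =>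
            have : (b :: r).getLast? = some true := by simpa using h2
            rw [getLast?_eq_getLast_of_ne_nil (by simp)] at this
            simpa using this
        refine ⟨⟨r.dropLast, by rw [length_dropLast, hr]; rfl⟩, ?_⟩
        show (Finsupp.single (emb n _) 1 : W) = _
        unfold emb
        congr 2
        show r.dropLast ++ [true] = r
        rw [← h3, dropLast_append_getLast]
  · rintro ⟨w, rfl⟩
    refine ⟨emb n w, Or.inr ⟨rfl, ?_⟩, ?_, rfl⟩
    · show (false :: (w.1 ++ [true])).getLast? = some true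
      rw [← cons_append, getLast?_append]
      rfl
    · have h := w.2
      show (false :: (w.1 ++ [true])).length = n + 2
      rw [length_cons, length_append, h]
      rfl

theorem linInd (n : ℕ) :
    LinearIndependent ℚ fun w : List.Vector Bool n => (Finsupp.single (emb n w) 1 : W) := by
  have h : LinearIndependent ℚ (fun s : List Bool => (Finsupp.single s 1 : W)) := by
    have := (Finsupp.basisSingleOne (R := ℚ) (ι := List Bool)).linearIndependent
    simpa using this
  exact h.comp _ (emb_inj n)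

instance finite_H0 (n : ℕ) : FiniteDimensional ℚ (H0 (n + 2)) := by
  rw [H0_eq]
  exact FiniteDimensional.span_of_finite ℚ (Set.finite_range _)

theorem finrank_H0 (n : ℕ) : finrank ℚ (H0 (n + 2)) = 2 ^ n := by
  rw [H0_eq, finrank_span_eq_card (linInd n), card_vector, Fintype.card_bool]

theorem FDS_le_H0 (p : ℕ) : FDS p ≤ H0 p := by
  rw [FDS, Submodule.span_le]
  rintro f ⟨u, v, hu, hv, hp, rfl⟩
  have key : ∀ w : List Bool, InH0 w → w = [] ∨ ∃ i l, 2 ≤ i ∧ (∀ a ∈ l, 1 ≤ a) ∧ w = word (i :: l) := by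
    intro w hw
    rcases hw with h | ⟨h1, h2⟩
    · exact Or.inl h
    · right
      rcases w with _ | ⟨a, r⟩
      · simp at h1
      · simp only [head?_cons, Option.some.injEq] at h1
        subst h1
        have hr : r.getLast? = some true := by
          cases r with
          | nil => simp at h2
          | cons b r => simpa using h2
        obtain ⟨M, l, hM, hl, he⟩ := exists_word r 1 hr
        exact ⟨M, l, hM, hl, by rw [← he]; rfl⟩
  rcases key u hu with rfl | ⟨i, k, hi, hk, rfl⟩
  · have : dsh [] v = 0 := by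
      rcases key v hv with rfl | ⟨j, l, hj, hl, rfl⟩
      · simp [dsh, shuffles_nil, index, stuffles_nil, word]
      · rw [dsh, shuffles_nil, index, stuffles_nil, index_word]
        · simp
        · intro a ha
          rcases mem_cons.1 ha with h | h
          · omega
          · exact hl a h
    rw [this]
    exact Submodule.zero_mem _
  · rcases key v hv with rfl | ⟨j, l, hj, hl, rfl⟩
    · have : dsh (word (i :: k)) [] = 0 := by
        rw [dsh, shuffles_nil', index, stuffles_nil', index_word]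
        · simp
        · intro a ha
          rcases mem_cons.1 ha with h | h
          · omega
          · exact hk a h
      rw [this]
      exact Submodule.zero_mem _
    · refine mem_of_support fun t ht => ?_
      have := dsh_inH0 hi hj hk hl ht
      exact Submodule.subset_span ⟨t, this.1, by rw [this.2, hp], rfl⟩

theorem dim_bound (n : ℕ) : 2 ^ n ≤ finrank ℚ (FDS (n + 2)) + (reduced n).length := by
  have h1 := H0_le n
  have hf : FiniteDimensional ℚ (FDS (n + 2)) := Submodule.finiteDimensional_of_le (FDS_le_H0 _)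
  have hr : FiniteDimensional ℚ (Red n) := by
    unfold Red
    exact FiniteDimensional.span_finset ℚ _
  have h2 := Submodule.finrank_mono h1
  have h3 := Submodule.finrank_add_le_finrank_add_finrank (FDS (n + 2)) (Red n)
  have h4 := finrank_red n
  rw [finrank_H0] at h2
  omega

theorem FDS_le_RDS (p : ℕ) : FDS p ≤ RDS p := by
  have hreg : ∀ f ∈ H0 p, reg f = f := by
    intro f hf
    rw [H0] at hf
    induction hf using Submodule.span_induction with
    | mem f h =>
      obtain ⟨w, hw, _, rfl⟩ := h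
      rw [reg, Finsupp.linearCombination_single, one_smul]
      rcases hw with rfl | ⟨h1, h2⟩
      · simp [regWord]
      · rcases w with _ | ⟨a, r⟩
        · simp at h1
        · simp only [head?_cons, Option.some.injEq] at h1
          subst h1
          simp [regWord, shuffles_nil, total]
    | zero => simp
    | add f g _ _ h1 h2 => rw [map_add, h1, h2]
    | smul c f _ h1 => rw [map_smul, h1]
  rw [FDS, Submodule.span_le]
  rintro f ⟨u, v, hu, hv, hp, rfl⟩
  refine Submodule.subset_span ⟨u, v, inH0_inH1 hu, hv, hp, ?_⟩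
  rw [hreg]
  exact FDS_le_H0 p (Submodule.subset_span ⟨u, v, hu, hv, hp, rfl⟩)

/-- the asymptotic bound -/
theorem red_asymp : ∃ C : ℝ, 0 ≤ C ∧ ∀ q : ℕ,
    ((reduced q).length : ℝ) ≤ C * ((q + 2 : ℕ) : ℝ) ^ (-(2 / 5 : ℝ)) * 2 ^ q := by
  -- a crude bound for small `q`
  have hcrude : ∀ q : ℕ, ((reduced q).length : ℝ) ≤ 2 * 2 ^ q := by
    intro q
    have hr : (reduced q).length = cnt 1 0 true q + cnt 2 2 true q := by
      rw [reduced, length_append, length_map, length_map]; rfl
    have h1 := cnt_le_pow 1 0 true q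
    have h2 := cnt_le_pow 2 2 true q
    have : (reduced q).length ≤ 2 * 2 ^ q := by omega
    exact_mod_cast this
  set C₁ : ℝ := 2 * (64 / 27) + 4 * ((Nat.factorial 16 : ℕ) * 8 ^ 16) with hC₁
  refine ⟨max C₁ (2 * 16 ^ (2 / 5 : ℝ)), by positivity, fun q => ?_⟩
  set p : ℝ := ((q + 2 : ℕ) : ℝ) with hp
  have hp2 : (2 : ℝ) ≤ p := by rw [hp]; push_cast; linarith [(Nat.cast_nonneg q : (0 : ℝ) ≤ q)]
  have hp0 : 0 < p := by linarith
  have h2q : (0 : ℝ) < 2 ^ q := by positivity
  rcases le_or_gt p 16 with hsmall | hlarge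
  · refine (hcrude q).trans (mul_le_mul_of_nonneg_right ?_ h2q.le)
    have h1 : (2 : ℝ) ≤ 2 * 16 ^ (2 / 5 : ℝ) * p ^ (-(2 / 5 : ℝ)) := by
      rw [Real.rpow_neg hp0.le, mul_assoc]
      have h2 : p ^ (2 / 5 : ℝ) ≤ 16 ^ (2 / 5 : ℝ) := Real.rpow_le_rpow hp0.le hsmall (by norm_num)
      have h3 : 0 < p ^ (2 / 5 : ℝ) := Real.rpow_pos_of_pos hp0 _
      have h4 : 1 ≤ 16 ^ (2 / 5 : ℝ) * (p ^ (2 / 5 : ℝ))⁻¹ := by
        rw [← div_eq_mul_inv, one_le_div h3]
        exact h2
      linarith
    refine h1.trans (mul_le_mul_of_nonneg_right (le_max_right _ _) ?_)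
    exact (Real.rpow_pos_of_pos hp0 _).le
  · -- the main case
    have hp1 : (1 : ℝ) ≤ p ^ (39 / 40 : ℝ) := Real.one_le_rpow (by linarith) (by norm_num)
    obtain ⟨n, hn1, hn2⟩ := exists_nat_pow_near hp1 (by norm_num : (1 : ℝ) < 2)
    have hn3 : 3 ≤ n := by
      by_contra hc
      have h1 : n + 1 ≤ 3 := by omega
      have h2 : (2 : ℝ) ^ (n + 1) ≤ 2 ^ 3 := pow_le_pow_right₀ (by norm_num) h1
      have h3 : (16 : ℝ) ^ (3 / 4 : ℝ) ≤ p ^ (39 / 40 : ℝ) :=
        (Real.rpow_le_rpow (by norm_num) hlarge.le (by norm_num)).trans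
          (Real.rpow_le_rpow_of_exponent_le (by linarith) (by norm_num))
      have h4 : (16 : ℝ) ^ (3 / 4 : ℝ) = 8 := by
        rw [show (16 : ℝ) = 2 ^ (4 : ℝ) by norm_num, ← Real.rpow_mul (by norm_num)]
        norm_num
      rw [h4] at h3
      norm_num at h2
      linarith
    have hred := reduced_le hn3 q
    -- the first term
    have hA : (3 / 4 : ℝ) ^ (n - 2) ≤ 64 / 27 * p ^ (-(2 / 5 : ℝ)) := by
      have h1 : (3 / 4 : ℝ) ^ (n - 2) = 64 / 27 * (3 / 4) ^ (n + 1) := by
        have : n + 1 = (n - 2) + 3 := by omega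
        rw [this, pow_add]
        norm_num
        ring
      rw [h1]
      refine mul_le_mul_of_nonneg_left ?_ (by norm_num)
      have h2 : (3 / 4 : ℝ) ≤ 2 ^ (-(33 / 80 : ℝ)) := by
        have h3 : ((3 / 4 : ℝ) ^ (80 : ℕ)) ≤ (2 ^ (-(33 / 80 : ℝ))) ^ (80 : ℕ) := by
          rw [← Real.rpow_natCast (2 ^ (-(33 / 80 : ℝ))) 80, ← Real.rpow_mul (by norm_num)]
          have : -(33 / 80 : ℝ) * ((80 : ℕ) : ℝ) = -33 := by norm_num
          rw [this, Real.rpow_neg (by norm_num), show (33 : ℝ) = ((33 : ℕ) : ℝ) by norm_num,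
            Real.rpow_natCast]
          norm_num
        exact le_of_pow_le_pow_left₀ (by norm_num) (by positivity) h3
      calc (3 / 4 : ℝ) ^ (n + 1) ≤ (2 ^ (-(33 / 80 : ℝ))) ^ (n + 1) :=
            pow_le_pow_left₀ (by norm_num) h2 _
        _ = ((2 : ℝ) ^ (n + 1)) ^ (-(33 / 80 : ℝ)) := by
            rw [← Real.rpow_natCast, ← Real.rpow_mul (by norm_num), ← Real.rpow_natCast 2 (n + 1),
              ← Real.rpow_mul (by norm_num), mul_comm]
        _ ≤ (p ^ (39 / 40 : ℝ)) ^ (-(33 / 80 : ℝ)) :=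
            Real.rpow_le_rpow_of_nonpos (by positivity) hn2.le (by norm_num)
        _ = p ^ ((39 / 40 : ℝ) * (-(33 / 80 : ℝ))) := by rw [← Real.rpow_mul hp0.le]
        _ ≤ p ^ (-(2 / 5 : ℝ)) := Real.rpow_le_rpow_of_exponent_le (by linarith) (by norm_num)
    -- the second term
    have hB : (2 - 1 / 2 ^ (n + 1) : ℝ) ^ q ≤
        ((Nat.factorial 16 : ℕ) * 8 ^ 16) * p ^ (-(2 / 5 : ℝ)) * 2 ^ q := by
      have hpn : (0 : ℝ) < 2 ^ n := by positivity
      have e1 : (2 - 1 / 2 ^ (n + 1) : ℝ) = 2 * (1 - 1 / (4 * 2 ^ n)) := by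
        rw [pow_succ]; field_simp; ring
      have hx : 0 ≤ 1 - 1 / (4 * (2 : ℝ) ^ n) := by
        rw [sub_nonneg, div_le_one (by positivity)]
        have : (1 : ℝ) ≤ 2 ^ n := one_le_pow₀ (by norm_num)
        linarith
      have h1 : (1 - 1 / (4 * 2 ^ n) : ℝ) ^ q ≤ Real.exp (-(q / (4 * 2 ^ n))) := by
        have h2 : (1 - 1 / (4 * 2 ^ n) : ℝ) ≤ Real.exp (-(1 / (4 * 2 ^ n))) := by
          have := Real.add_one_le_exp (-(1 / (4 * 2 ^ n) : ℝ))
          linarith
        calc (1 - 1 / (4 * 2 ^ n) : ℝ) ^ q ≤ (Real.exp (-(1 / (4 * 2 ^ n)))) ^ q :=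
              pow_le_pow_left₀ hx h2 q
          _ = Real.exp (-(q / (4 * 2 ^ n))) := by
              rw [← Real.exp_nat_mul]
              congr 1
              ring
      set t : ℝ := p ^ (1 / 40 : ℝ) / 8 with ht
      have ht0 : 0 < t := by positivity
      have hq : (q : ℝ) = p - 2 := by rw [hp]; push_cast; ring
      have h3 : t ≤ q / (4 * 2 ^ n) := by
        rw [ht, hq, div_le_div_iff₀ (by norm_num) (by positivity)]
        have h4 : p ^ (1 / 40 : ℝ) * p ^ (39 / 40 : ℝ) = p := by
          rw [← Real.rpow_add hp0]; norm_num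
        have h5 : p ^ (1 / 40 : ℝ) * 2 ^ n ≤ p := by
          calc _ ≤ p ^ (1 / 40 : ℝ) * p ^ (39 / 40 : ℝ) :=
                mul_le_mul_of_nonneg_left hn1 (Real.rpow_pos_of_pos hp0 _).le
            _ = p := h4
        nlinarith
      have h6 : Real.exp (-t) ≤ (Nat.factorial 16 : ℕ) / t ^ 16 := by
        have h7 := Real.pow_div_factorial_le_exp t ht0.le 16
        rw [Real.exp_neg, inv_le_comm₀ (Real.exp_pos _) (by positivity), inv_div]
        exact h7
      have h8 : (Nat.factorial 16 : ℕ) / t ^ 16 =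
          ((Nat.factorial 16 : ℕ) * 8 ^ 16) * p ^ (-(2 / 5 : ℝ)) := by
        rw [ht, div_pow, ← Real.rpow_natCast (p ^ (1 / 40 : ℝ)) 16, ← Real.rpow_mul hp0.le,
          Real.rpow_neg hp0.le]
        have : (1 / 40 : ℝ) * ((16 : ℕ) : ℝ) = 2 / 5 := by norm_num
        rw [this]
        field_simp
      rw [e1, mul_pow]
      calc (2 : ℝ) ^ q * (1 - 1 / (4 * 2 ^ n)) ^ q ≤ 2 ^ q * Real.exp (-(q / (4 * 2 ^ n))) :=
            mul_le_mul_of_nonneg_left h1 h2q.le
        _ ≤ 2 ^ q * Real.exp (-t) :=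
            mul_le_mul_of_nonneg_left (Real.exp_le_exp.2 (by linarith)) h2q.le
        _ ≤ 2 ^ q * (((Nat.factorial 16 : ℕ) * 8 ^ 16) * p ^ (-(2 / 5 : ℝ))) :=
            mul_le_mul_of_nonneg_left (by rw [← h8]; exact h6) h2q.le
        _ = _ := by ring
    have h10 : ((reduced q).length : ℝ) ≤ C₁ * p ^ (-(2 / 5 : ℝ)) * 2 ^ q := by
      have h11 := mul_le_mul_of_nonneg_right hA h2q.le
      calc ((reduced q).length : ℝ) ≤ 2 * (3 / 4) ^ (n - 2) * 2 ^ q +
            4 * (2 - 1 / 2 ^ (n + 1)) ^ q := hred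
        _ ≤ 2 * (64 / 27 * p ^ (-(2 / 5 : ℝ)) * 2 ^ q) +
            4 * (((Nat.factorial 16 : ℕ) * 8 ^ 16) * p ^ (-(2 / 5 : ℝ)) * 2 ^ q) := by
            linarith
        _ = C₁ * p ^ (-(2 / 5 : ℝ)) * 2 ^ q := by rw [hC₁]; ring
    refine h10.trans (mul_le_mul_of_nonneg_right ?_ h2q.le)
    exact mul_le_mul_of_nonneg_right (le_max_left _ _) (Real.rpow_pos_of_pos hp0 _).le

end Pool.Agent.H65.MZ
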