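import Mathlib

set_option autoImplicit false

/-! # Multiple zeta values: truncated sums, quasi-shuffle product, product of the weight spaces -/

namespace Pool.Agent.H65.MZ.Har

open Finset Filter Topology

/-- The `ℚ`-span of the multiple zeta values of weight `n` (the empty index has value `1` and
weight `0`). -/
noncomputable def Zs (n : ℕ) : Submodule ℚ ℝ :=
  Submodule.span ℚ
    {x : ℝ | ∃ t : ℕ, ∃ k : Fin t → ℕ,
      (∀ i, 1 ≤ k i) ∧ (∀ h : 0 < t, 2 ≤ k ⟨0, h⟩) ∧ (∑ i, k i) = n ∧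
      x = ∑' m : {m : Fin t → ℕ // StrictAnti m ∧ ∀ i, 1 ≤ m i},
            ∏ i, (((m.1 i : ℕ) : ℝ) ^ (k i))⁻¹}

/-- truncated multiple harmonic sums -/
noncomputable def H : List ℕ → ℕ → ℝ
  | [], _ => 1
  | (a :: s), N => ∑ n ∈ Finset.range N, (((n + 1 : ℕ) : ℝ) ^ a)⁻¹ * H s n

theorem H_nil (N : ℕ) : H [] N = 1 := by simp [H]

theorem H_cons (a : ℕ) (s : List ℕ) (N : ℕ) :
    H (a :: s) N = ∑ n ∈ Finset.range N, (((n + 1 : ℕ) : ℝ) ^ a)⁻¹ * H s n := by rw [H]

theorem H_cons_zero (a : ℕ) (s : List ℕ) : H (a :: s) 0 = 0 := by simp [H_cons]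

theorem H_cons_succ (a : ℕ) (s : List ℕ) (N : ℕ) :
    H (a :: s) (N + 1) = H (a :: s) N + (((N + 1 : ℕ) : ℝ) ^ a)⁻¹ * H s N := by
  rw [H_cons, Finset.sum_range_succ, ← H_cons]

theorem H_nonneg (s : List ℕ) (N : ℕ) : 0 ≤ H s N := by
  induction s generalizing N with
  | nil => simp [H_nil]
  | cons a s ih =>
    rw [H_cons]
    exact Finset.sum_nonneg fun n _ => mul_nonneg (by positivity) (ih n)

theorem H_mono (s : List ℕ) : Monotone (H s) := by
  cases s with
  | nil => intro a b _; simp [H_nil]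
  | cons a s =>
    refine monotone_nat_of_le_succ fun N => ?_
    rw [H_cons_succ]
    have := mul_nonneg (inv_nonneg.2 (by positivity : (0 : ℝ) ≤ ((N + 1 : ℕ) : ℝ) ^ a))
      (H_nonneg s N)
    linarith

/-- quasi-shuffle product of two indices -/
def st : List ℕ → List ℕ → List (List ℕ)
  | [], t => [t]
  | (a :: s), [] => [a :: s]
  | (a :: s), (b :: t) => (st s (b :: t)).map (List.cons a) ++ (st (a :: s) t).map (List.cons b) ++
      (st s t).map (List.cons (a + b))
termination_by s t => s.length + t.length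

theorem sum_map_H_succ (a : ℕ) (L : List (List ℕ)) (N : ℕ) :
    ((L.map (List.cons a)).map (fun u => H u (N + 1))).sum =
      ((L.map (List.cons a)).map (fun u => H u N)).sum +
        (((N + 1 : ℕ) : ℝ) ^ a)⁻¹ * (L.map (fun u => H u N)).sum := by
  induction L with
  | nil => simp
  | cons u L ih =>
    simp only [List.map_cons, List.sum_cons] at ih ⊢
    rw [ih, H_cons_succ]
    ring

theorem sum_map_H_zero (a : ℕ) (L : List (List ℕ)) :
    ((L.map (List.cons a)).map (fun u => H u 0)).sum = 0 := by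
  induction L with
  | nil => simp
  | cons u L ih =>
    simp only [List.map_cons, List.sum_cons] at ih ⊢
    rw [ih, H_cons_zero]
    ring

theorem H_mul (s t : List ℕ) (N : ℕ) : H s N * H t N = ((st s t).map (fun u => H u N)).sum := by
  induction s, t using st.induct generalizing N with
  | case1 t => simp [st, H_nil]
  | case2 a s => simp [st, H_nil]
  | case3 a s b t ih1 ih2 ih3 =>
    rw [st]
    simp only [List.map_append, List.sum_append]
    induction N with
    | zero =>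
      rw [H_cons_zero, H_cons_zero]
      have e1 := sum_map_H_zero a (st s (b :: t))
      have e2 := sum_map_H_zero b (st (a :: s) t)
      have e3 := sum_map_H_zero (a + b) (st s t)
      rw [e1, e2, e3]
      ring
    | succ N ihN =>
      have e1 := sum_map_H_succ a (st s (b :: t)) N
      have e2 := sum_map_H_succ b (st (a :: s) t) N
      have e3 := sum_map_H_succ (a + b) (st s t) N
      rw [e1, e2, e3, ← ih1 N, ← ih2 N, ← ih3 N, H_cons_succ, H_cons_succ]
      rw [pow_add, mul_inv]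
      linear_combination ihN

/-- admissible indices: positive entries, the first one at least two -/
def Adm (s : List ℕ) : Prop := (∀ a ∈ s, 1 ≤ a) ∧ (∀ a t, s = a :: t → 2 ≤ a)

theorem st_pos (s t : List ℕ) (hs : ∀ a ∈ s, 1 ≤ a) (ht : ∀ a ∈ t, 1 ≤ a) :
    ∀ u ∈ st s t, ∀ a ∈ u, 1 ≤ a := by
  induction s, t using st.induct with
  | case1 t => simpa [st] using ht
  | case2 a s => simpa [st] using hs
  | case3 a s b t ih1 ih2 ih3 =>
    have ha : 1 ≤ a := hs a (by simp)
    have hb : 1 ≤ b := ht b (by simp)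
    have hs' : ∀ c ∈ s, 1 ≤ c := fun c hc => hs c (by simp [hc])
    have ht' : ∀ c ∈ t, 1 ≤ c := fun c hc => ht c (by simp [hc])
    intro u hu c hc
    rw [st] at hu
    simp only [List.mem_append, List.mem_map] at hu
    rcases hu with (⟨v, hv, rfl⟩ | ⟨v, hv, rfl⟩) | ⟨v, hv, rfl⟩
    · rcases List.mem_cons.1 hc with rfl | hc
      · exact ha
      · exact ih1 hs' ht v hv c hc
    · rcases List.mem_cons.1 hc with rfl | hc
      · exact hb
      · exact ih2 hs ht' v hv c hc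
    · rcases List.mem_cons.1 hc with rfl | hc
      · omega
      · exact ih3 hs' ht' v hv c hc

theorem st_sum (s t : List ℕ) : ∀ u ∈ st s t, u.sum = s.sum + t.sum := by
  induction s, t using st.induct with
  | case1 t => simp [st]
  | case2 a s => simp [st]
  | case3 a s b t ih1 ih2 ih3 =>
    intro u hu
    rw [st] at hu
    simp only [List.mem_append, List.mem_map] at hu
    rcases hu with (⟨v, hv, rfl⟩ | ⟨v, hv, rfl⟩) | ⟨v, hv, rfl⟩
    · have := ih1 v hv
      simp only [List.sum_cons] at this ⊢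
      omega
    · have := ih2 v hv
      simp only [List.sum_cons] at this ⊢
      omega
    · have := ih3 v hv
      simp only [List.sum_cons] at this ⊢
      omega

theorem st_adm (s t : List ℕ) (hs : Adm s) (ht : Adm t) : ∀ u ∈ st s t, Adm u := by
  intro u hu
  refine ⟨st_pos s t hs.1 ht.1 u hu, ?_⟩
  intro c w hw
  subst hw
  rcases s with _ | ⟨a, s⟩
  · simp only [st, List.mem_singleton] at hu
    exact ht.2 c w hu.symm
  · rcases t with _ | ⟨b, t⟩
    · simp only [st, List.mem_singleton] at hu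
      exact hs.2 c w hu.symm
    · have ha : 2 ≤ a := hs.2 a s rfl
      have hb : 2 ≤ b := ht.2 b t rfl
      rw [st] at hu
      simp only [List.mem_append, List.mem_map] at hu
      rcases hu with (⟨v, hv, h⟩ | ⟨v, hv, h⟩) | ⟨v, hv, h⟩
      · simp only [List.cons.injEq] at h; omega
      · simp only [List.cons.injEq] at h; omega
      · simp only [List.cons.injEq] at h; omega

/-! ### Convergence -/

theorem inv_sqrt_le (n : ℕ) : (((n + 1 : ℕ) : ℝ))⁻¹ * Real.sqrt ((n : ℝ) + 1) ≤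
    2 * (Real.sqrt ((n : ℝ) + 1 + 1) - Real.sqrt ((n : ℝ) + 1)) + 
      (Real.sqrt ((n : ℝ) + 1))⁻¹ - 2 * (Real.sqrt ((n : ℝ) + 1 + 1) - Real.sqrt ((n : ℝ) + 1)) := by
  have h : (0 : ℝ) < (n : ℝ) + 1 := by positivity
  have h2 : Real.sqrt ((n : ℝ) + 1) * Real.sqrt ((n : ℝ) + 1) = (n : ℝ) + 1 :=
    Real.mul_self_sqrt h.le
  have h3 : 0 < Real.sqrt ((n : ℝ) + 1) := Real.sqrt_pos.2 h
  push_cast
  have : ((n : ℝ) + 1)⁻¹ * Real.sqrt ((n : ℝ) + 1) = (Real.sqrt ((n : ℝ) + 1))⁻¹ := by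
    rw [inv_mul_eq_div, div_eq_iff h.ne', ← div_eq_inv_mul, eq_div_iff h3.ne', h2]
  rw [this]
  linarith

theorem sum_inv_sqrt (N : ℕ) : ∑ n ∈ Finset.range N, (Real.sqrt ((n : ℝ) + 1))⁻¹ ≤
    2 * Real.sqrt (N : ℝ) := by
  induction N with
  | zero => simp
  | succ N ih =>
    rw [Finset.sum_range_succ]
    have h1 : 0 < Real.sqrt ((N : ℝ) + 1) := Real.sqrt_pos.2 (by positivity)
    have h0 : 0 ≤ Real.sqrt (N : ℝ) := Real.sqrt_nonneg _
    have e1 : Real.sqrt ((N : ℝ) + 1) ^ 2 = (N : ℝ) + 1 := Real.sq_sqrt (by positivity)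
    have e0 : Real.sqrt (N : ℝ) ^ 2 = (N : ℝ) := Real.sq_sqrt (by positivity)
    have key : (Real.sqrt ((N : ℝ) + 1))⁻¹ ≤ 2 * (Real.sqrt ((N : ℝ) + 1) - Real.sqrt (N : ℝ)) := by
      rw [inv_le_iff_one_le_mul₀ h1]
      nlinarith [sq_nonneg (Real.sqrt ((N : ℝ) + 1) - Real.sqrt (N : ℝ))]
    push_cast
    linarith

theorem H_le (s : List ℕ) (hs : ∀ a ∈ s, 1 ≤ a) (N : ℕ) :
    H s N ≤ 2 ^ s.length * Real.sqrt ((N : ℝ) + 1) := by
  induction s generalizing N with
  | nil =>
    rw [H_nil]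
    simp
  | cons a s ih =>
    have ha : 1 ≤ a := hs a (by simp)
    have ih' := ih (fun c hc => hs c (by simp [hc]))
    rw [H_cons]
    have h1 : ∀ n ∈ Finset.range N, (((n + 1 : ℕ) : ℝ) ^ a)⁻¹ * H s n ≤
        2 ^ s.length * (Real.sqrt ((n : ℝ) + 1))⁻¹ := by
      intro n _
      have hb : (1 : ℝ) ≤ ((n + 1 : ℕ) : ℝ) := by push_cast; linarith [Nat.cast_nonneg (α := ℝ) n]
      have h2 : (((n + 1 : ℕ) : ℝ) ^ a)⁻¹ ≤ (((n + 1 : ℕ) : ℝ))⁻¹ := by
        apply inv_anti₀ (by linarith)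
        calc ((n + 1 : ℕ) : ℝ) = ((n + 1 : ℕ) : ℝ) ^ 1 := (pow_one _).symm
          _ ≤ _ := pow_le_pow_right₀ hb ha
      have h3 := inv_sqrt_le n
      calc (((n + 1 : ℕ) : ℝ) ^ a)⁻¹ * H s n
          ≤ (((n + 1 : ℕ) : ℝ))⁻¹ * (2 ^ s.length * Real.sqrt ((n : ℝ) + 1)) :=
            mul_le_mul h2 (ih' n) (H_nonneg _ _) (by positivity)
        _ = 2 ^ s.length * ((((n + 1 : ℕ) : ℝ))⁻¹ * Real.sqrt ((n : ℝ) + 1)) := by ring
        _ ≤ 2 ^ s.length * (Real.sqrt ((n : ℝ) + 1))⁻¹ := by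
            apply mul_le_mul_of_nonneg_left _ (by positivity)
            linarith
    calc _ ≤ ∑ n ∈ Finset.range N, 2 ^ s.length * (Real.sqrt ((n : ℝ) + 1))⁻¹ :=
          Finset.sum_le_sum h1
      _ = 2 ^ s.length * ∑ n ∈ Finset.range N, (Real.sqrt ((n : ℝ) + 1))⁻¹ := by
          rw [Finset.mul_sum]
      _ ≤ 2 ^ s.length * (2 * Real.sqrt (N : ℝ)) := by
          apply mul_le_mul_of_nonneg_left (sum_inv_sqrt N) (by positivity)
      _ ≤ 2 ^ (a :: s).length * Real.sqrt ((N : ℝ) + 1) := by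
          rw [List.length_cons, pow_succ]
          have : Real.sqrt (N : ℝ) ≤ Real.sqrt ((N : ℝ) + 1) := Real.sqrt_le_sqrt (by linarith)
          have h2 : (0 : ℝ) ≤ 2 ^ s.length * 2 := by positivity
          nlinarith [mul_le_mul_of_nonneg_left this h2]

theorem sum_two (N : ℕ) : ∑ n ∈ Finset.range N, (((n : ℝ) + 1) * Real.sqrt ((n : ℝ) + 1))⁻¹ ≤ 3 := by
  -- telescoping with `3 - 2 / sqrt N`
  have key : ∀ N : ℕ, ∑ n ∈ Finset.range (N + 1), (((n : ℝ) + 1) * Real.sqrt ((n : ℝ) + 1))⁻¹ ≤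
      3 - 2 * (Real.sqrt ((N : ℝ) + 1))⁻¹ := by
    intro N
    induction N with
    | zero => simp; norm_num
    | succ N ih =>
      rw [Finset.sum_range_succ]
      push_cast
      set x := Real.sqrt ((N : ℝ) + 1) with hx
      set y := Real.sqrt ((N : ℝ) + 1 + 1) with hy
      have hx0 : 0 < x := Real.sqrt_pos.2 (by positivity)
      have hy0 : 0 < y := Real.sqrt_pos.2 (by positivity)
      have ex : x ^ 2 = (N : ℝ) + 1 := Real.sq_sqrt (by positivity)
      have ey : y ^ 2 = (N : ℝ) + 1 + 1 := Real.sq_sqrt (by positivity)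
      have hxy : x < y := Real.sqrt_lt_sqrt (by positivity) (by linarith)
      have hd : y ^ 2 - x ^ 2 = 1 := by rw [ex, ey]; ring
      rw [← ey]
      have : (y ^ 2 * y)⁻¹ ≤ 2 * x⁻¹ - 2 * y⁻¹ := by
        have e : 2 * x⁻¹ - 2 * y⁻¹ = 2 * (y - x) / (x * y) := by field_simp
        rw [e, inv_eq_one_div, div_le_div_iff₀ (by positivity) (by positivity)]
        -- x y ≤ 2 (y-x) y^3
        have h1 : (y - x) * (y + x) = 1 := by nlinarith
        have h2 : x + y ≤ 2 * y := by linarith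
        have h3 : (1 : ℝ) ≤ (y - x) * (2 * y) := by
          calc (1 : ℝ) = (y - x) * (y + x) := h1.symm
            _ ≤ (y - x) * (2 * y) := by
              apply mul_le_mul_of_nonneg_left _ (by linarith)
              linarith
        nlinarith [mul_pos hx0 hy0, mul_pos hy0 hy0]
      linarith
  rcases N with _ | N
  · simp
  · have := key N
    have h0 : 0 ≤ (Real.sqrt ((N : ℝ) + 1))⁻¹ := by positivity
    linarith

theorem H_bdd (s : List ℕ) (hs : Adm s) (N : ℕ) : H s N ≤ 3 * 2 ^ s.length := by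
  rcases s with _ | ⟨a, s⟩
  · rw [H_nil]; simp
  · have ha : 2 ≤ a := hs.2 a s rfl
    have hs' : ∀ c ∈ s, 1 ≤ c := fun c hc => hs.1 c (by simp [hc])
    rw [H_cons]
    have h1 : ∀ n ∈ Finset.range N, (((n + 1 : ℕ) : ℝ) ^ a)⁻¹ * H s n ≤
        2 ^ s.length * (((n : ℝ) + 1) * Real.sqrt ((n : ℝ) + 1))⁻¹ := by
      intro n _
      have hb : (1 : ℝ) ≤ ((n + 1 : ℕ) : ℝ) := by push_cast; linarith [Nat.cast_nonneg (α := ℝ) n]
      have h2 : (((n + 1 : ℕ) : ℝ) ^ a)⁻¹ ≤ (((n + 1 : ℕ) : ℝ) ^ 2)⁻¹ := by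
        apply inv_anti₀ (by positivity)
        exact pow_le_pow_right₀ hb ha
      have h3 := inv_sqrt_le n
      have h4 : (0 : ℝ) < ((n + 1 : ℕ) : ℝ)⁻¹ := by positivity
      calc (((n + 1 : ℕ) : ℝ) ^ a)⁻¹ * H s n
          ≤ (((n + 1 : ℕ) : ℝ) ^ 2)⁻¹ * (2 ^ s.length * Real.sqrt ((n : ℝ) + 1)) :=
            mul_le_mul h2 (H_le s hs' n) (H_nonneg _ _) (by positivity)
        _ = 2 ^ s.length * ((((n + 1 : ℕ) : ℝ))⁻¹ *
              ((((n + 1 : ℕ) : ℝ))⁻¹ * Real.sqrt ((n : ℝ) + 1))) := by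
            rw [pow_two, mul_inv]; ring
        _ ≤ 2 ^ s.length * ((((n + 1 : ℕ) : ℝ))⁻¹ * (Real.sqrt ((n : ℝ) + 1))⁻¹) := by
            apply mul_le_mul_of_nonneg_left _ (by positivity)
            apply mul_le_mul_of_nonneg_left _ h4.le
            linarith
        _ = _ := by rw [mul_inv]; push_cast; ring
    calc _ ≤ ∑ n ∈ Finset.range N, 2 ^ s.length *
            (((n : ℝ) + 1) * Real.sqrt ((n : ℝ) + 1))⁻¹ := Finset.sum_le_sum h1
      _ = 2 ^ s.length * ∑ n ∈ Finset.range N,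
            (((n : ℝ) + 1) * Real.sqrt ((n : ℝ) + 1))⁻¹ := by rw [Finset.mul_sum]
      _ ≤ 2 ^ s.length * 3 := by
          apply mul_le_mul_of_nonneg_left (sum_two N) (by positivity)
      _ ≤ _ := by
          rw [List.length_cons, pow_succ]
          have : (0 : ℝ) < 2 ^ s.length := by positivity
          linarith

/-- the value of an admissible index -/
noncomputable def val (s : List ℕ) : ℝ := ⨆ N, H s N

theorem tendsto_H (s : List ℕ) (hs : Adm s) : Tendsto (H s) atTop (𝓝 (val s)) :=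
  tendsto_atTop_ciSup (H_mono s) ⟨3 * 2 ^ s.length, by rintro _ ⟨N, rfl⟩; exact H_bdd s hs N⟩

theorem H_le_val (s : List ℕ) (hs : Adm s) (N : ℕ) : H s N ≤ val s :=
  (H_mono s).ge_of_tendsto (tendsto_H s hs) N

theorem val_mul (s t : List ℕ) (hs : Adm s) (ht : Adm t) :
    val s * val t = ((st s t).map val).sum := by
  have h1 : Tendsto (fun N => H s N * H t N) atTop (𝓝 (val s * val t)) :=
    (tendsto_H s hs).mul (tendsto_H t ht)
  have h2 : Tendsto (fun N => ((st s t).map (fun u => H u N)).sum) atTop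
      (𝓝 ((st s t).map val).sum) := by
    apply tendsto_list_sum
    intro u hu
    exact tendsto_H u (st_adm s t hs ht u hu)
  refine tendsto_nhds_unique h1 ?_
  simpa only [H_mul] using h2

end Pool.Agent.H65.MZ.Har
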