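import Pool.Agent.H65.MZ.Ser
import Pool.Agent.H65.MZ.Har
import Pool.Agent.H65.MZ.Dim

/-! # The finite double shuffle elements are relations between multiple zeta values -/

set_option autoImplicit false

namespace Pool.Agent.H65.MZ

open Finset PowerSeries Filter Topology
open Pool.Agent.H65.MZ.Har (Adm)
open Pool.Agent.H65.MZ.Ser (Lb Lb_nil Lb_cons Jn yv coeff_In coeff_zero_Lb Vd Zb Zb_mul sh_Vd sh)

lemma trunc_eq' (s : List ℕ) : ∀ k, trunc s (k + 1) = Har.H s k := by
  induction s with
  | nil => intro k; rw [Har.H_nil]; rfl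
  | cons a s ih =>
    intro k
    rw [Har.H_cons]
    show ∑ j ∈ Finset.Ico 1 (k + 1), trunc s j / (j : ℝ) ^ a = _
    rw [Finset.sum_Ico_eq_sum_range, Nat.add_sub_cancel]
    refine Finset.sum_congr rfl fun n _ => ?_
    rw [add_comm 1 n, ih, div_eq_inv_mul]

lemma hasSum_mzv {a : ℕ} {s : List ℕ} (hs : Adm (a :: s)) :
    HasSum (fun k : ℕ => trunc s (k + 1) / ((k + 1 : ℕ) : ℝ) ^ a) (Har.val (a :: s)) := by
  have h1 := Har.tendsto_H (a :: s) hs
  rw [hasSum_iff_tendsto_nat_of_nonneg]
  · refine h1.congr fun N => ?_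
    rw [Har.H_cons]
    refine Finset.sum_congr rfl fun n _ => ?_
    rw [trunc_eq', div_eq_inv_mul]
  · intro k
    rw [trunc_eq']
    exact div_nonneg (Har.H_nonneg s k) (by positivity)

lemma mzv_eq {s : List ℕ} (hs : Adm s) : mzv s = Har.val s := by
  rcases s with _ | ⟨a, s⟩
  · have h2 := Har.tendsto_H [] hs
    have h3 : Tendsto (Har.H []) atTop (𝓝 1) := tendsto_const_nhds.congr fun N => (Har.H_nil N).symm
    exact (tendsto_nhds_unique h2 h3).symm
  · exact (hasSum_mzv hs).tsum_eq

lemma stuffles_eq (k l : List ℕ) : stuffles k l = Har.st k l := by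
  induction k, l using stuffles.induct with
  | case1 l => rw [stuffles, Har.st]
  | case2 i k => rw [stuffles, Har.st]
  | case3 i k j l ih1 ih2 ih3 => rw [stuffles, Har.st, ih1, ih2, ih3]

theorem mzv_stuffle {k l : List ℕ} (hk : Adm k) (hl : Adm l) :
    mzv k * mzv l = ((stuffles k l).map mzv).sum := by
  rw [mzv_eq hk, mzv_eq hl, Har.val_mul k l hk hl, stuffles_eq]
  congr 1
  exact List.map_congr_left fun m hm => (mzv_eq (Har.st_adm k l hk hl m hm)).symm

lemma coeff_yv (G : PowerSeries ℝ) (n : ℕ) :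
    PowerSeries.coeff n (yv true * G) = ∑ j ∈ range n, PowerSeries.coeff j G := by
  rw [mul_comm, PowerSeries.coeff_mul, Finset.Nat.sum_antidiagonal_eq_sum_range_succ
    (fun i j => PowerSeries.coeff i G * PowerSeries.coeff j (yv true)), sum_range_succ]
  have h1 : PowerSeries.coeff (n - n) (yv true) = 0 := by simp [yv]
  rw [h1, mul_zero, add_zero]
  refine sum_congr rfl fun j hj => ?_
  rw [mem_range] at hj
  have h2 : PowerSeries.coeff (n - j) (yv true) = 1 := by
    simp only [yv, if_true, PowerSeries.coeff_mk]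
    rw [if_neg (by omega)]
  rw [h2, mul_one]

lemma coeff_rep (m : ℕ) (w : List Bool) (n : ℕ) :
    PowerSeries.coeff n (Lb (List.replicate m false ++ true :: w)) =
      (∑ j ∈ range n, PowerSeries.coeff j (Lb w)) / (n : ℝ) ^ (m + 1) := by
  induction m with
  | zero =>
    rw [List.replicate_zero, List.nil_append, Lb_cons, Jn, coeff_In, coeff_yv, zero_add, pow_one]
  | succ m ih =>
    rw [List.replicate_succ, List.cons_append, Lb_cons, Jn, coeff_In]
    have h1 : yv false = 1 := by simp [yv]
    rw [h1, one_mul, ih, div_div, ← pow_succ]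

lemma sum_word (l : List ℕ) (hl : ∀ s ∈ l, 1 ≤ s) (n : ℕ) (hn : 1 ≤ n) :
    ∑ j ∈ range n, PowerSeries.coeff j (Lb (word l)) = trunc l n := by
  induction l generalizing n with
  | nil =>
    have h1 : trunc [] n = 1 := rfl
    have h2 : word [] = [] := rfl
    rw [h2, Lb_nil, h1, sum_eq_single 0]
    · simp
    · intro j _ hj
      rw [PowerSeries.coeff_one, if_neg hj]
    · intro h
      exact absurd (mem_range.2 hn) h
  | cons s l ih =>
    have hs := hl s List.mem_cons_self
    have ih' := ih fun s' hs' => hl s' (List.mem_cons_of_mem _ hs')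
    have h1 : trunc (s :: l) n = ∑ j ∈ Finset.Ico 1 n, trunc l j / (j : ℝ) ^ s := rfl
    rw [h1, range_eq_Ico, sum_eq_sum_Ico_succ_bot hn]
    have h0 : PowerSeries.coeff 0 (Lb (word (s :: l))) = 0 := by
      refine coeff_zero_Lb ?_
      rw [word_cons]
      simp
    rw [h0, zero_add]
    refine sum_congr rfl fun j hj => ?_
    rw [mem_Ico] at hj
    rw [word_cons, coeff_rep, ih' j hj.1, Nat.sub_add_cancel hs]

lemma coeff_word (s : ℕ) (l : List ℕ) (hs : 1 ≤ s) (hl : ∀ s ∈ l, 1 ≤ s) (n : ℕ) :
    PowerSeries.coeff n (Lb (word (s :: l))) = trunc l n / (n : ℝ) ^ s := by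
  rw [word_cons, coeff_rep, Nat.sub_add_cancel hs]
  rcases Nat.eq_zero_or_pos n with rfl | hn
  · rw [Nat.cast_zero, zero_pow (by omega), div_zero, div_zero]
  · rw [sum_word l hl n hn]

lemma mzv_Zb (l : List ℕ) (hl : ∀ s ∈ l, 1 ≤ s) : mzv l = Zb (word l) := by
  cases l with
  | nil =>
    have h2 : word [] = [] := rfl
    have h1 : mzv [] = 1 := rfl
    rw [h1, Zb, h2, Lb_nil]
    simp only [PowerSeries.coeff_one]
    rw [tsum_ite_eq]
  | cons s l =>
    have hs := hl s List.mem_cons_self
    have hl' : ∀ s ∈ l, 1 ≤ s := fun s' hs' => hl s' (List.mem_cons_of_mem _ hs')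
    have h0 : mzv (s :: l) = ∑' k : ℕ, trunc l (k + 1) / ((k + 1 : ℕ) : ℝ) ^ s := rfl
    rw [h0, Zb]
    have hinj : Function.Injective fun k : ℕ => k + 1 := fun a b h => Nat.succ_injective h
    have h1 : ∀ k : ℕ, trunc l (k + 1) / ((k + 1 : ℕ) : ℝ) ^ s =
        PowerSeries.coeff (k + 1) (Lb (word (s :: l))) := fun k =>
      (coeff_word s l hs hl' (k + 1)).symm
    rw [tsum_congr h1]
    refine hinj.tsum_eq (f := fun n => PowerSeries.coeff n (Lb (word (s :: l)))) ?_
    intro n hn
    rw [Function.mem_support, coeff_word s l hs hl'] at hn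
    rcases Nat.eq_zero_or_pos n with rfl | hn0
    · exfalso
      apply hn
      rw [Nat.cast_zero, zero_pow (by omega), div_zero]
    · exact ⟨n - 1, by simp only; omega⟩

lemma summable_adm {l : List ℕ} (h : Adm l) :
    Summable fun n => PowerSeries.coeff n (Lb (word l)) := by
  cases l with
  | nil =>
    have h2 : word [] = [] := rfl
    rw [h2, Lb_nil]
    refine summable_of_ne_finset_zero (s := {0}) fun n hn => ?_
    rw [PowerSeries.coeff_one, if_neg (by simpa using hn)]
  | cons s l =>
    have hs := h.1 s List.mem_cons_self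
    have hl' : ∀ s ∈ l, 1 ≤ s := fun s' hs' => h.1 s' (List.mem_cons_of_mem _ hs')
    refine (summable_nat_add_iff 1).1 ?_
    refine (hasSum_mzv h).summable.congr fun k => ?_
    exact (coeff_word s l hs hl' (k + 1)).symm

lemma Vd_of {u : List Bool} : InH1 u → Vd u := by
  induction u with
  | nil => intro _; trivial
  | cons a u ih =>
    intro h
    refine ⟨?_, ih (inH1_cons h)⟩
    rintro rfl
    rcases h with h | h
    · simp at h
    · simpa using h

lemma shuffles_eq (u v : List Bool) : shuffles u v = sh u v := by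
  induction u, v using shuffles.induct with
  | case1 v => rw [shuffles, sh]
  | case2 a u => rw [shuffles, sh]
  | case3 a u b v ih1 ih2 => rw [shuffles, sh, ih1, ih2]

lemma adm_index {w : List Bool} (h : InH0 w) : Adm (index 0 w) ∧ word (index 0 w) = w := by
  rcases h with rfl | ⟨h1, h2⟩
  · exact ⟨⟨by simp [index], by simp [index]⟩, rfl⟩
  · rcases w with _ | ⟨a, r⟩
    · simp at h1
    · simp only [List.head?_cons, Option.some.injEq] at h1
      subst h1
      have hr : r.getLast? = some true := by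
        cases r with
        | nil => simp at h2
        | cons b r => simpa using h2
      obtain ⟨M, l, hM, hl, he⟩ := exists_word r 1 hr
      have he' : (false :: r) = word (M :: l) := he
      have hp : ∀ a ∈ M :: l, 1 ≤ a := by
        intro a ha
        rcases List.mem_cons.1 ha with h | h
        · omega
        · exact hl a h
      rw [he', index_word _ hp]
      refine ⟨⟨hp, ?_⟩, rfl⟩
      intro a t hat
      rw [List.cons.injEq] at hat
      omega

lemma adm_index1 {w : List Bool} (h : InH1 w) :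
    (∀ a ∈ index 0 w, 1 ≤ a) ∧ word (index 0 w) = w := by
  rcases h with rfl | h2
  · exact ⟨by simp [index], rfl⟩
  · obtain ⟨M, l, hM, hl, he⟩ := exists_word w 0 h2
    have he' : w = word (M :: l) := by simpa using he
    have hp : ∀ a ∈ M :: l, 1 ≤ a := by
      intro a ha
      rcases List.mem_cons.1 ha with h | h
      · omega
      · exact hl a h
    rw [he', index_word _ hp]
    exact ⟨hp, rfl⟩

/-- **the shuffle product of multiple zeta values** -/
theorem mzv_shuffle {u v : List Bool} (hu : InH0 u) (hv : InH0 v) :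
    mzv (index 0 u) * mzv (index 0 v) =
      ((shuffles u v).map fun w => mzv (index 0 w)).sum := by
  obtain ⟨hu1, hu2⟩ := adm_index hu
  obtain ⟨hv1, hv2⟩ := adm_index hv
  have su := summable_adm hu1
  have sv := summable_adm hv1
  rw [hu2] at su
  rw [hv2] at sv
  rw [mzv_Zb _ hu1.1, mzv_Zb _ hv1.1, hu2, hv2, Zb_mul (Vd_of (inH0_inH1 hu))
    (Vd_of (inH0_inH1 hv)) su sv, shuffles_eq]
  congr 1
  refine List.map_congr_left fun w hw => ?_
  rw [← shuffles_eq] at hw
  have hw1 := shuffles_inH1 u v (inH0_inH1 hu) (inH0_inH1 hv) w hw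
  obtain ⟨h1, h2⟩ := adm_index1 hw1
  rw [mzv_Zb _ h1, h2]

theorem Z_total (L : List (List Bool)) : Z (total L) = (L.map fun w => mzv (index 0 w)).sum := by
  induction L with
  | nil => simp [total]
  | cons w L ih =>
    have : total (w :: L) = Finsupp.single w 1 + total L := by simp [total]
    rw [this, map_add, ih, Z, Finsupp.linearCombination_single, one_smul, List.map_cons,
      List.sum_cons]

theorem Z_dsh {u v : List Bool} (hu : InH0 u) (hv : InH0 v) : Z (dsh u v) = 0 := by
  obtain ⟨hu1, hu2⟩ := adm_index hu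
  obtain ⟨hv1, hv2⟩ := adm_index hv
  rw [dsh, map_sub, Z_total, Z_total, ← mzv_shuffle hu hv, mzv_stuffle hu1 hv1, sub_eq_zero,
    List.map_map]
  congr 1
  refine List.map_congr_left fun m hm => ?_
  rw [Function.comp_apply, index_word]
  exact pos_stuffles _ _ hu1.1 hv1.1 m hm

theorem FDS_le_Relations (p : ℕ) : FDS p ≤ Relations p := by
  refine le_inf (FDS_le_H0 p) ?_
  rw [FDS, Submodule.span_le]
  rintro f ⟨u, v, hu, hv, _, rfl⟩
  exact Z_dsh hu hv

end Pool.Agent.H65.MZ
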