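import Mathlib

/-!
# Quasi-symmetric coinvariants

A functional on the monomials of degree `m` in `n` variables (lists of length `n` and sum `m`) that
kills the multiples of the quasi-symmetric polynomials without constant term and vanishes at the
monomials with exponents `a₁ + ⋯ + a_i < i` for all `i` vanishes (Aval, F. Bergeron and
N. Bergeron; this file follows an earlier formalization of the pool).
-/

set_option autoImplicit false

namespace Pool.Agent.H65.MZ.QS

/-- `st h β c` is the sum of the values of `h` at the lists obtained from `β` by adding the entries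
of `c`, in this order, at positions `i₁ < i₂ < ⋯`. -/
def st (h : List ℕ → ℚ) : List ℕ → List ℕ → ℚ
  | [], [] => h []
  | [], _ :: _ => 0
  | b :: β, [] => h (b :: β)
  | b :: β, c :: cs => st (fun l => h (b :: l)) β (c :: cs) + st (fun l => h ((b + c) :: l)) β cs

/-- `wk h β c` is the sum of the values of `h` at the lists obtained from `β` by adding the entries
of `c`, in this order, at positions `i₁ ≤ i₂ ≤ ⋯`. -/
def wk (h : List ℕ → ℚ) : List ℕ → List ℕ → ℚ
  | [], [] => h []
  | [], _ :: _ => 0
  | b :: β, [] => h (b :: β)
  | b :: β, c :: cs => wk (fun l => h (b :: l)) β (c :: cs) + wk h ((b + c) :: β) cs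
termination_by β c => β.length + c.length

theorem st_nil (h : List ℕ → ℚ) (β : List ℕ) : st h β [] = h β := by
  cases β <;> simp [st]

theorem wk_nil (h : List ℕ → ℚ) (β : List ℕ) : wk h β [] = h β := by
  cases β <;> simp [wk]

theorem wk_nil_cons (h : List ℕ → ℚ) (c : ℕ) (cs : List ℕ) : wk h [] (c :: cs) = 0 := by
  simp [wk]

theorem wk_cons (h : List ℕ → ℚ) (b : ℕ) (β : List ℕ) (c : ℕ) (cs : List ℕ) :
    wk h (b :: β) (c :: cs) = wk (fun l => h (b :: l)) β (c :: cs) + wk h ((b + c) :: β) cs := by
  rw [wk]

/-- the coarsenings of a composition -/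
def cz : List ℕ → List (List ℕ)
  | [] => [[]]
  | [c] => [[c]]
  | c :: d :: ds => (cz (d :: ds)).map (c :: ·) ++ cz ((c + d) :: ds)
termination_by c => c.length

/-- the sum of `F (first part) (other parts)` over the coarsenings of a nonempty composition -/
def sz (F : ℕ → List ℕ → ℚ) (c : ℕ) (cs : List ℕ) : ℚ :=
  ((cz (c :: cs)).map fun l => F (l.headD 0) l.tail).sum

theorem sz_nil (F : ℕ → List ℕ → ℚ) (c : ℕ) : sz F c [] = F c [] := by
  simp [sz, cz]

theorem sz_cons (F : ℕ → List ℕ → ℚ) (c d : ℕ) (ds : List ℕ) :
    sz F c (d :: ds) = ((cz (d :: ds)).map fun l => F c l).sum + sz F (c + d) ds := by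
  simp [sz, cz, List.map_map, Function.comp_def]

theorem cz_ne_nil : ∀ (n c : ℕ) (cs : List ℕ), cs.length = n → ∀ l ∈ cz (c :: cs), l ≠ [] := by
  intro n
  induction n with
  | zero =>
    intro c cs hn l hl
    rw [List.length_eq_zero_iff] at hn
    subst hn
    simp [cz] at hl
    rw [hl]
    simp
  | succ n ih =>
    intro c cs hn l hl
    obtain ⟨d, ds, rfl⟩ := List.exists_cons_of_length_eq_add_one hn
    rw [cz, List.mem_append] at hl
    rcases hl with hl | hl
    · rw [List.mem_map] at hl
      obtain ⟨l', _, rfl⟩ := hl
      simp
    · exact ih (c + d) ds (by simpa using hn) l hl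

theorem cz_pos : ∀ (n c : ℕ) (cs : List ℕ), cs.length = n → 0 < c → (∀ x ∈ cs, 0 < x) →
    ∀ l ∈ cz (c :: cs), (∀ x ∈ l, 0 < x) ∧ l.sum = c + cs.sum := by
  intro n
  induction n with
  | zero =>
    intro c cs hn hc _ l hl
    rw [List.length_eq_zero_iff] at hn
    subst hn
    simp [cz] at hl
    rw [hl]
    simpa using hc
  | succ n ih =>
    intro c cs hn hc hcs l hl
    obtain ⟨d, ds, rfl⟩ := List.exists_cons_of_length_eq_add_one hn
    have hd : 0 < d := hcs d (by simp)
    have hds : ∀ x ∈ ds, 0 < x := fun x hx => hcs x (by simp [hx])
    rw [cz, List.mem_append] at hl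
    rcases hl with hl | hl
    · rw [List.mem_map] at hl
      obtain ⟨l', hl', rfl⟩ := hl
      obtain ⟨h1, h2⟩ := ih d ds (by simpa using hn) hd hds l' hl'
      refine ⟨?_, ?_⟩
      · intro x hx
        rcases List.mem_cons.1 hx with rfl | hx
        · exact hc
        · exact h1 x hx
      · simp [h2]
    · obtain ⟨h1, h2⟩ := ih (c + d) ds (by simpa using hn) (by omega) hds l hl
      refine ⟨h1, ?_⟩
      rw [h2]
      simp
      omega

/-- the weakly increasing sums are the sums over the coarsenings of the strictly increasing ones -/
theorem wk_eq (β : List ℕ) : ∀ (h : List ℕ → ℚ) (c : List ℕ),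
    wk h β c = ((cz c).map (st h β)).sum := by
  induction β with
  | nil =>
    intro h c
    cases c with
    | nil => simp [wk, cz, st]
    | cons c cs =>
      rw [wk_nil_cons, eq_comm]
      apply List.sum_eq_zero
      intro x hx
      rw [List.mem_map] at hx
      obtain ⟨l, hl, rfl⟩ := hx
      have := cz_ne_nil _ c cs rfl l hl
      cases l with
      | nil => exact absurd rfl this
      | cons a l => rfl
  | cons b β ih =>
    intro h c
    cases c with
    | nil => simp [wk_nil, cz, st_nil]
    | cons c cs =>
      -- the part where the first block is added to `b`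
      have key : ∀ (n c : ℕ) (cs : List ℕ), cs.length = n →
          sz (fun x l => st (fun t => h ((b + x) :: t)) β l) c cs = wk h ((b + c) :: β) cs := by
        intro n
        induction n with
        | zero =>
          intro c cs hn
          rw [List.length_eq_zero_iff] at hn
          subst hn
          rw [sz_nil, st_nil, wk_nil]
        | succ n ihn =>
          intro c cs hn
          obtain ⟨d, ds, rfl⟩ := List.exists_cons_of_length_eq_add_one hn
          rw [sz_cons, wk_cons, ihn (c + d) ds (by simpa using hn), ih, add_assoc]
      rw [wk_cons, ih, ← key _ c cs rfl, sz, ← List.sum_map_add]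
      apply congrArg
      apply List.map_congr_left
      intro l hl
      have := cz_ne_nil _ c cs rfl l hl
      cases l with
      | nil => exact absurd rfl this
      | cons a l => rfl

/-- `wk` only sees the values at the lists of the right length and sum -/
theorem wk_zero_of (n : ℕ) : ∀ (β : List ℕ) (c : List ℕ) (h : List ℕ → ℚ),
    β.length + c.length = n → (∀ l : List ℕ, l.length = β.length → l.sum = β.sum + c.sum → h l = 0) →
    wk h β c = 0 := by
  induction n with
  | zero =>
    intro β c h hn hh
    have h1 : β = [] := List.length_eq_zero_iff.1 (by omega)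
    have h2 : c = [] := List.length_eq_zero_iff.1 (by omega)
    subst h1 h2
    rw [wk_nil]
    exact hh [] rfl rfl
  | succ n ih =>
    intro β c h hn hh
    cases c with
    | nil => rw [wk_nil]; exact hh β rfl (by simp)
    | cons c cs =>
      cases β with
      | nil => exact wk_nil_cons h c cs
      | cons b β =>
        rw [wk_cons, ih β (c :: cs) _ (by simp at hn ⊢; omega), ih ((b + c) :: β) cs h
          (by simp at hn ⊢; omega), add_zero]
        · intro l h1 h2
          refine hh l (by simpa using h1) ?_
          simp at h2 ⊢
          omega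
        · intro l h1 h2
          refine hh (b :: l) (by simpa using h1) ?_
          simp at h2 ⊢
          omega

/-- the weakly increasing sums with at least `k` parts vanish -/
def K (n k m : ℕ) (h : List ℕ → ℚ) : Prop :=
  ∀ β : List ℕ, β.length = n → ∀ c : List ℕ, k ≤ c.length → (∀ x ∈ c, 0 < x) →
    β.sum + c.sum = m → wk h β c = 0

/-- add one to the first entry -/
def up (h : List ℕ → ℚ) : List ℕ → ℚ
  | [] => 0
  | a :: l => h ((a + 1) :: l)

theorem wk_up (c : List ℕ) : ∀ (h : List ℕ → ℚ) (b : ℕ) (β : List ℕ),
    wk (up h) (b :: β) c = wk h ((b + 1) :: β) c := by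
  induction c with
  | nil => intro h b β; simp [wk_nil, up]
  | cons c cs ih =>
    intro h b β
    rw [wk_cons, wk_cons, ih, show b + c + 1 = b + 1 + c by omega]
    rfl

/-- `a₁ + ⋯ + a_i < i + k - 1` for `1 ≤ i ≤ length a` -/
def Bal (k : ℕ) (a : List ℕ) : Prop := ∀ i < a.length, (a.take (i + 1)).sum < i + k

theorem bal_nil (k : ℕ) : Bal k [] := fun i hi => absurd hi (Nat.not_lt_zero i)

theorem bal_zero_cons {k : ℕ} {l : List ℕ} (h : Bal (k + 1) l) (hk : 0 < k) : Bal k (0 :: l) := by
  intro i hi
  cases i with
  | zero => simpa using hk
  | succ i =>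
    have := h i (by simpa using hi)
    simp only [List.take_succ_cons, List.sum_cons] at this ⊢
    omega

theorem bal_succ_cons {k a : ℕ} {l : List ℕ} (h : Bal k (a :: l)) : Bal (k + 1) ((a + 1) :: l) := by
  intro i hi
  have := h i (by simpa using hi)
  simp only [List.take_succ_cons, List.sum_cons] at this ⊢
  omega

/-- the main lemma -/
theorem van2 (n : ℕ) : ∀ (k m : ℕ) (h : List ℕ → ℚ), K n k m h →
    (∀ a : List ℕ, a.length = n → a.sum = m → Bal k a → h a = 0) →
    ∀ a : List ℕ, a.length = n → a.sum = m → h a = 0 := by
  induction n with
  | zero =>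
    intro k m h _ hB a ha hs
    rw [List.length_eq_zero_iff] at ha
    subst ha
    exact hB [] rfl hs (bal_nil k)
  | succ n ih =>
    intro k
    induction k with
    | zero =>
      intro m h hK _ a ha hs
      have := hK a ha [] (Nat.zero_le _) (by simp) (by simpa using hs)
      rwa [wk_nil] at this
    | succ k ihk =>
      intro m h hK hB
      -- the values at the lists that begin with zero vanish
      have h0 : ∀ l : List ℕ, l.length = n → l.sum = m → h (0 :: l) = 0 := by
        refine ih (k + 2) m (fun l => h (0 :: l)) ?_ ?_
        · intro β hβ c hc hpos hsum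
          cases c with
          | nil => simp at hc
          | cons c₁ c =>
            have e1 := hK (0 :: β) (by simpa using hβ) (c₁ :: c) (by simp at hc ⊢; omega) hpos
              (by simpa using hsum)
            rw [wk_cons] at e1
            have e2 := hK ((0 + c₁) :: β) (by simpa using hβ) c (by simp at hc ⊢; omega)
              (fun x hx => hpos x (by simp [hx])) (by simp at hsum ⊢; omega)
            rw [e2, add_zero] at e1
            exact e1
        · intro l hl hs hbal
          exact hB (0 :: l) (by simpa using hl) (by simpa using hs) (bal_zero_cons hbal (by omega))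
      -- the other values
      have h1 : 1 ≤ m → ∀ a : List ℕ, a.length = n + 1 → a.sum = m - 1 → up h a = 0 := by
        intro hm
        refine ihk (m - 1) (up h) ?_ ?_
        · intro β hβ c hc hpos hsum
          obtain ⟨b, β', rfl⟩ := List.exists_cons_of_length_eq_add_one hβ
          rw [wk_up]
          rcases Nat.lt_or_ge k c.length with hlt | hge
          · refine hK _ (by simpa using hβ) c hlt hpos ?_
            simp at hsum ⊢
            omega
          · have e1 := hK (0 :: β') (by simpa using hβ) ((b + 1) :: c) (by simp; omega)
              (by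
                intro x hx
                rcases List.mem_cons.1 hx with rfl | hx
                · omega
                · exact hpos x hx) (by simp at hsum ⊢; omega)
            rw [wk_cons, wk_zero_of _ β' ((b + 1) :: c) _ rfl, zero_add, zero_add] at e1
            · exact e1
            · intro l hl hs
              refine h0 l ?_ ?_
              · simp at hβ
                omega
              · simp at hs hsum
                omega
        · intro a ha hs hbal
          obtain ⟨a₁, a', rfl⟩ := List.exists_cons_of_length_eq_add_one ha
          show h ((a₁ + 1) :: a') = 0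
          exact hB _ (by simpa using ha) (by simp at hs ⊢; omega) (bal_succ_cons hbal)
      intro a ha hs
      obtain ⟨a₁, a', rfl⟩ := List.exists_cons_of_length_eq_add_one ha
      rcases Nat.eq_zero_or_pos a₁ with rfl | hp
      · exact h0 a' (by simpa using ha) (by simpa using hs)
      · obtain ⟨a₂, rfl⟩ := Nat.exists_eq_add_of_le hp
        have := h1 (by simp at hs; omega) (a₂ :: a') (by simpa using ha) (by simp at hs ⊢; omega)
        simpa [up, add_comm] using this


end Pool.Agent.H65.MZ.QS
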