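import Pool.Agent.H65.MZ.YRel
import Pool.Agent.H65.MZ.Ker

/-! # Reduction to the staircase words -/

set_option autoImplicit false

namespace Pool.Agent.H65.MZ

open List Module

theorem regWord_rep (n : ℕ) (u : List Bool) : regWord (replicate n true ++ false :: u) =
    ((-1 : ℚ) ^ n) • pre false (S n (Finsupp.single u 1)) := by
  have h1 : (replicate n true ++ false :: u).takeWhile id = replicate n true := by
    induction n with
    | zero => simp
    | succ n ih => simp [replicate_succ]
  have h2 : (replicate n true ++ false :: u).dropWhile id = false :: u := by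
    induction n with
    | zero => simp
    | succ n ih => simp [replicate_succ]
  rw [regWord, h1, h2, S_single]
  simp only []
  rw [total_map_cons, length_replicate]

theorem reg_single (w : List Bool) : reg (Finsupp.single w 1) = regWord w := by
  rw [reg, Finsupp.linearCombination_single, one_smul]

theorem reg_yx (n : ℕ) (f : W) : reg (prew (replicate n true) (pre false f)) =
    ((-1 : ℚ) ^ n) • pre false (S n f) := by
  induction f using Finsupp.induction_linear with
  | zero => simp
  | add f g hf hg => simp only [map_add, hf, hg, smul_add]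
  | single w c =>
    have hc : (Finsupp.single w c : W) = c • Finsupp.single w 1 := by
      rw [Finsupp.smul_single, smul_eq_mul, mul_one]
    rw [hc]
    simp only [map_smul]
    rw [smul_comm]
    congr 1
    rw [pre_single, prew_single, reg_single, regWord_rep]

theorem S_pre_false (k : ℕ) (f : W) : S k (pre false f) =
    ∑ ij ∈ Finset.HasAntidiagonal.antidiagonal k,
      prew (replicate ij.1 true) (pre false (S ij.2 f)) := by
  induction k with
  | zero => simp [S_zero, prew_nil]
  | succ k ih =>
    rw [S_pre, ih, Finset.Nat.sum_antidiagonal_succ, map_sum]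
    simp only [replicate_zero, prew_nil, replicate_succ, prew_cons]

theorem reg_S {k : ℕ} (hk : 1 ≤ k) (f : W) : reg (S k (pre false f)) = 0 := by
  rw [S_pre_false, map_sum]
  simp only [reg_yx, S_S, map_smul, smul_smul]
  have h1 : ∀ ij ∈ Finset.HasAntidiagonal.antidiagonal k,
      ((-1 : ℚ) ^ ij.1 * ((ij.1 + ij.2).choose ij.1 : ℚ)) • pre false (S (ij.1 + ij.2) f) =
      ((-1 : ℚ) ^ ij.1 * (k.choose ij.1 : ℚ)) • pre false (S k f) := by
    intro ij h
    rw [Finset.HasAntidiagonal.mem_antidiagonal] at h
    rw [h]
  rw [Finset.sum_congr rfl h1, ← Finset.sum_smul,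
    Finset.Nat.sum_antidiagonal_eq_sum_range_succ (fun i _ => (-1 : ℚ) ^ i * (k.choose i : ℚ))]
  have h2 := add_pow (-1 : ℚ) 1 k
  simp only [one_pow, mul_one, neg_add_cancel] at h2
  rw [← h2, zero_pow (by omega), zero_smul]

theorem reg_pre (f : W) : reg (pre false f) = pre false f := by
  have := reg_yx 0 f
  simpa [prew_nil, S_zero] using this

theorem reg_aa (m : ℕ) (w : List Bool) :
    reg (aa m (false :: w)) = ((-1 : ℚ) ^ m) • pre false (hh m w) := by
  rw [aa_false, T, map_sum]
  rw [Finset.sum_eq_single (0, m)]
  · rw [map_smul, S_zero, reg_pre]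
  · rintro ⟨i, j⟩ h hne
    rw [Finset.HasAntidiagonal.mem_antidiagonal] at h
    rw [map_smul, reg_S, smul_zero]
    by_contra hc
    apply hne
    have : i = 0 := by simp only at h hc ⊢; omega
    subst this
    simp at h
    rw [h]
  · intro h
    exact absurd (by simp) h

/-- the elements `h_m (Y) v` are relations, up to words of smaller depth -/
theorem main_rel {m : ℕ} (hm : 1 ≤ m) (w : List Bool) (hw : InH0 (false :: w)) :
    pre false (hh m w) ∈ YDS (m + (w.length + 1)) ⊔ Lo (m + (w.length + 1)) (m + w.count true) := by
  obtain ⟨hl, he⟩ := adm_index hw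
  set l := index 0 (false :: w) with hldef
  have h1 := stuffles_top m l hl.1
  have hlen : l.sum = w.length + 1 := by
    rw [← length_word l hl.1, he, length_cons]
  have hcnt : l.length = w.count true := by
    rw [← count_word l, he, count_cons]; simp
  rw [hlen, hcnt, he] at h1
  have h2 := reg_Lo1 h1
  rw [map_sub, reg_aa] at h2
  have h3 : reg (dsh (replicate m true) (false :: w)) ∈ YDS (m + (w.length + 1)) :=
    Submodule.subset_span ⟨m, false :: w, hm, hw, rfl, rfl⟩
  rw [dsh, map_sub, index_replicate, ← S_single, ← pre_single false w, reg_S hm, zero_sub,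
    ← hldef] at h3
  have h4 : ((-1 : ℚ) ^ m) • pre false (hh m w) ∈
      YDS (m + (w.length + 1)) ⊔ Lo (m + (w.length + 1)) (m + w.count true) := by
    have e : ((-1 : ℚ) ^ m) • pre false (hh m w) =
        (-1 : ℚ) • (-reg (total ((stuffles (replicate m 1) l).map word))) +
        (-1 : ℚ) • (reg (total ((stuffles (replicate m 1) l).map word)) -
          ((-1 : ℚ) ^ m) • pre false (hh m w)) := by
      simp only [neg_smul, one_smul, neg_neg, neg_sub]
      abel
    rw [e]
    exact Submodule.add_mem_sup (Submodule.smul_mem _ _ h3) (Submodule.smul_mem _ _ h2)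
  have h5 := Submodule.smul_mem _ ((-1 : ℚ) ^ m) h4
  rw [smul_smul, ← mul_pow] at h5
  simpa using h5

/-- all ways to add `m` in total to the entries of a list -/
def dist : ℕ → List ℕ → List (List ℕ)
  | 0, l => [l]
  | _ + 1, [] => []
  | m + 1, b :: l => dist m ((b + 1) :: l) ++ (dist (m + 1) l).map (b :: ·)
termination_by m l => (m, l.length)

theorem dist_zero (l : List ℕ) : dist 0 l = [l] := by rw [dist]
theorem dist_nil (m : ℕ) : dist (m + 1) [] = [] := by rw [dist]
theorem dist_cons (m b : ℕ) (l : List ℕ) :
    dist (m + 1) (b :: l) = dist m ((b + 1) :: l) ++ (dist (m + 1) l).map (b :: ·) := by rw [dist]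

theorem hh_rep (m b : ℕ) (w : List Bool) :
    hh m (replicate b true ++ w) = prew (replicate b true) (hh m w) := by
  induction b with
  | zero => rw [replicate_zero, nil_append, prew_nil]
  | succ b ih => rw [replicate_succ, cons_append, hh_true, ih, prew_cons]

theorem hh_zero (w : List Bool) : hh 0 w = Finsupp.single w 1 := by
  induction w with
  | nil => rw [hh_nil]; rfl
  | cons a w ih => cases a <;> simp only [hh_false_zero, hh_true, ih, pre_single]

theorem total_map_prefix (b : ℕ) (L : List (List ℕ)) :
    total ((L.map (b :: ·)).map blocks) =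
      pre false (prew (replicate b true) (total (L.map blocks))) := by
  induction L with
  | nil => simp [total_nil]
  | cons w L ih =>
    simp only [map_cons, total_cons, map_add]
    rw [ih, prew_single, pre_single, blocks]

theorem hh_blocks (m : ℕ) : ∀ (l : List ℕ) (b : ℕ),
    pre false (hh m (replicate b true ++ blocks l)) = total ((dist m (b :: l)).map blocks) := by
  induction m with
  | zero =>
    intro l b
    rw [hh_zero, pre_single, dist_zero, map_singleton, total_one, blocks]
  | succ m ihm =>
    intro l
    induction l with
    | nil =>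
      intro b
      rw [dist_cons, dist_nil, map_append, total_append, ← ihm]
      simp only [blocks, map_nil, total_nil, append_nil, add_zero]
      have e1 : hh (m + 1) (replicate b true) = Finsupp.single (replicate (b + (m + 1)) true) 1 := by
        have := hh_rep (m + 1) b []
        rw [append_nil, hh_nil, prew_single, ← replicate_add] at this
        exact this
      have e2 : hh m (replicate (b + 1) true) = Finsupp.single (replicate (b + (m + 1)) true) 1 := by
        have := hh_rep m (b + 1) []
        rw [append_nil, hh_nil, prew_single, ← replicate_add] at this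
        rw [this]
        congr 2
        ring
      rw [e1, e2]
    | cons c l ihl =>
      intro b
      rw [dist_cons, map_append, total_append, total_map_prefix, ← ihm, ← ihl c, blocks, hh_rep,
        hh_false, map_add, map_add, add_comm]
      congr 1
      rw [hh_rep, replicate_succ', prew_append, prew_cons, prew_nil]

/-- the last entry is positive -/
def LP (l : List ℕ) : Prop := ∃ (l' : List ℕ) (c : ℕ), l = l' ++ [c] ∧ 1 ≤ c

theorem LP_cons {b : ℕ} {l : List ℕ} (h : LP l) : LP (b :: l) := by
  obtain ⟨l', c, rfl, hc⟩ := h
  exact ⟨b :: l', c, rfl, hc⟩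

theorem LP_append {pr l : List ℕ} (h : LP l) : LP (pr ++ l) := by
  obtain ⟨l', c, rfl, hc⟩ := h
  exact ⟨pr ++ l', c, by rw [append_assoc], hc⟩

theorem LP_ne {l : List ℕ} (h : LP l) : l ≠ [] := by
  obtain ⟨l', c, rfl, hc⟩ := h
  simp

theorem LP_succ {b : ℕ} {l : List ℕ} (h : LP (b :: l)) : LP ((b + 1) :: l) := by
  obtain ⟨l', c, he, hc⟩ := h
  cases l' with
  | nil =>
    simp only [nil_append, cons.injEq] at he
    obtain ⟨rfl, rfl⟩ := he
    exact ⟨[], b + 1, rfl, by omega⟩
  | cons d l' =>
    simp only [cons_append, cons.injEq] at he
    obtain ⟨rfl, rfl⟩ := he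
    exact ⟨(b + 1) :: l', c, rfl, hc⟩

theorem LP_of_cons {b : ℕ} {l : List ℕ} (hl : l ≠ []) (h : LP (b :: l)) : LP l := by
  obtain ⟨l', c, he, hc⟩ := h
  cases l' with
  | nil =>
    simp only [nil_append, cons.injEq] at he
    exact absurd he.2 hl
  | cons d l' =>
    simp only [cons_append, cons.injEq] at he
    exact ⟨l', c, he.2, hc⟩

theorem length_blocks (l : List ℕ) : (blocks l).length = l.length + l.sum := by
  induction l with
  | nil => rfl
  | cons b l ih => simp only [blocks, length_cons, length_append, length_replicate, sum_cons, ih]; ring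

theorem count_blocks (l : List ℕ) : (blocks l).count true = l.sum := by
  induction l with
  | nil => rfl
  | cons b l ih => simp [blocks, ih]

theorem inH0_blocks {l : List ℕ} (h : LP l) : InH0 (blocks l) := by
  right
  obtain ⟨l', c, rfl, hc⟩ := h
  have key : ∀ l' : List ℕ, (blocks (l' ++ [c])).getLast? = some true := by
    intro l'
    induction l' with
    | nil =>
      obtain ⟨c, rfl⟩ := Nat.exists_eq_add_of_le' hc
      rw [nil_append, blocks, blocks, append_nil, replicate_succ']
      rw [← cons_append, getLast?_append]
      simp
    | cons b l' ih =>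
      rw [cons_append, blocks, ← cons_append, getLast?_append, ih]
      rfl
  refine ⟨?_, key l'⟩
  cases l' <;> rfl

/-- the sum of the words of `dist m l` is a relation, up to words of smaller depth -/
theorem dist_rel {m : ℕ} (hm : 1 ≤ m) (l : List ℕ) (hl : LP l) :
    total ((dist m l).map blocks) ∈ YDS (m + (l.length + l.sum)) ⊔
      Lo (m + (l.length + l.sum)) (m + l.sum) := by
  cases l with
  | nil => exact absurd rfl (LP_ne hl)
  | cons b l =>
    have h1 := inH0_blocks hl
    rw [blocks] at h1
    have h2 := main_rel hm _ h1
    rw [hh_blocks] at h2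
    have e1 : (replicate b true ++ blocks l).length + 1 = (b :: l).length + (b :: l).sum := by
      rw [length_append, length_replicate, length_blocks, length_cons, sum_cons]; ring
    have e2 : (replicate b true ++ blocks l).count true = (b :: l).sum := by
      rw [count_append, count_blocks, sum_cons]; simp
    rwa [e1, e2] at h2

theorem dist_rel' (n : ℕ) : ∀ (pr : List ℕ), pr.length = n → ∀ (m : ℕ) (l : List ℕ), n + 1 ≤ m →
    LP l → total ((dist m l).map fun s => blocks (pr ++ s)) ∈
      YDS (m + (pr.length + l.length + (pr.sum + l.sum))) ⊔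
      Lo (m + (pr.length + l.length + (pr.sum + l.sum))) (m + (pr.sum + l.sum)) := by
  induction n with
  | zero =>
    intro pr hpr m l hm hl
    rw [length_eq_zero_iff] at hpr
    subst hpr
    have := dist_rel (by omega) l hl
    simpa using this
  | succ n ih =>
    intro pr hpr m l hm hl
    obtain ⟨pr', b, rfl⟩ : ∃ pr' b, pr = pr' ++ [b] := by
      rcases eq_nil_or_concat pr with h | ⟨pr', b, h⟩
      · subst h; simp at hpr
      · exact ⟨pr', b, by simpa using h⟩
    have hpr' : pr'.length = n := by simpa using hpr
    obtain ⟨m, rfl⟩ := Nat.exists_eq_add_of_le' (show 1 ≤ m by omega)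
    have h1 := ih pr' hpr' (m + 1) (b :: l) (by omega) (LP_cons hl)
    have h2 := ih pr' hpr' m ((b + 1) :: l) (by omega) (by
      obtain ⟨l', c, rfl, hc⟩ := hl
      exact ⟨(b + 1) :: l', c, rfl, hc⟩)
    have e1 : m + 1 + (pr'.length + (b :: l).length + (pr'.sum + (b :: l).sum)) =
        m + 1 + ((pr' ++ [b]).length + l.length + ((pr' ++ [b]).sum + l.sum)) := by
      simp only [length_cons, sum_cons, length_append, sum_append, length_nil, sum_nil]; ring
    have e2 : m + 1 + (pr'.sum + (b :: l).sum) = m + 1 + ((pr' ++ [b]).sum + l.sum) := by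
      simp only [sum_cons, sum_append, sum_nil]; ring
    have e3 : m + (pr'.length + ((b + 1) :: l).length + (pr'.sum + ((b + 1) :: l).sum)) =
        m + 1 + ((pr' ++ [b]).length + l.length + ((pr' ++ [b]).sum + l.sum)) := by
      simp only [length_cons, sum_cons, length_append, sum_append, length_nil, sum_nil]; ring
    have e4 : m + (pr'.sum + ((b + 1) :: l).sum) = m + 1 + ((pr' ++ [b]).sum + l.sum) := by
      simp only [sum_cons, sum_append, sum_nil]; ring
    rw [e1, e2] at h1
    rw [e3, e4] at h2
    have e : total ((dist (m + 1) l).map fun s => blocks (pr' ++ [b] ++ s)) =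
        total ((dist (m + 1) (b :: l)).map fun s => blocks (pr' ++ s)) -
        total ((dist m ((b + 1) :: l)).map fun s => blocks (pr' ++ s)) := by
      rw [dist_cons, map_append, total_append, map_map, add_sub_cancel_left]
      congr 2
      funext s
      simp
    rw [e]
    exact sub_mem h1 h2

/-- the weighted sum `∑ i b_i`, `i` from `0` -/
def pos : List ℕ → ℕ
  | [] => 0
  | _ :: l => pos l + l.sum

theorem pos_append (k l : List ℕ) : pos (k ++ l) = pos k + pos l + k.length * l.sum := by
  induction k with
  | nil => simp [pos]
  | cons a k ih => rw [cons_append, pos, pos, ih, sum_append, length_cons]; ring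

theorem dist_spec (m : ℕ) : ∀ (l : List ℕ), ∀ s ∈ dist m l, s.length = l.length ∧
    s.sum = l.sum + m ∧ pos l ≤ pos s ∧ (LP l → LP s) := by
  induction m with
  | zero =>
    intro l s hs
    rw [dist_zero, mem_singleton] at hs
    subst hs
    exact ⟨rfl, by simp, le_rfl, id⟩
  | succ m ihm =>
    intro l
    induction l with
    | nil => intro s hs; rw [dist_nil] at hs; simp at hs
    | cons b l ihl =>
      intro s hs
      rw [dist_cons, mem_append] at hs
      rcases hs with hs | hs
      · obtain ⟨h1, h2, h3, h4⟩ := ihm _ s hs
        refine ⟨by simpa using h1, ?_, ?_, fun h => h4 (LP_succ h)⟩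
        · rw [h2, sum_cons, sum_cons]; ring
        · simpa [pos] using h3
      · obtain ⟨t, ht, rfl⟩ := mem_map.1 hs
        obtain ⟨h1, h2, h3, h4⟩ := ihl t ht
        refine ⟨by simp [h1], ?_, ?_, fun h => ?_⟩
        · rw [sum_cons, h2, sum_cons]; ring
        · rw [pos, pos, h2]; omega
        · by_cases hl : l = []
          · subst hl
            rw [dist_nil] at ht
            simp at ht
          · exact LP_cons (h4 (LP_of_cons hl h))

theorem dist_head (m : ℕ) : ∀ (b : ℕ) (l : List ℕ), ∃ L, dist m (b :: l) = ((b + m) :: l) :: L ∧
    ∀ s ∈ L, pos (b :: l) < pos s := by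
  induction m with
  | zero => intro b l; exact ⟨[], by rw [dist_zero]; rfl, by simp⟩
  | succ m ih =>
    intro b l
    obtain ⟨L, hL, h⟩ := ih (b + 1) l
    refine ⟨L ++ (dist (m + 1) l).map (b :: ·), ?_, ?_⟩
    · rw [dist_cons, hL, cons_append]
      congr 2
      ring
    · intro s hs
      rcases mem_append.1 hs with hs | hs
      · have := h s hs
        simpa [pos] using this
      · obtain ⟨t, ht, rfl⟩ := mem_map.1 hs
        obtain ⟨-, h2, h3, -⟩ := dist_spec _ _ t ht
        rw [pos, pos, h2]
        omega

theorem pos_le (l : List ℕ) : pos l ≤ l.length * l.sum := by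
  induction l with
  | nil => simp [pos]
  | cons b l ih =>
    rw [pos, length_cons, sum_cons]
    nlinarith

/-- a list with positive last entry which is no staircase -/
theorem not_stair {a : List ℕ} (h : LP a) (hs : ¬ IsStair a) :
    ∃ (pr : List ℕ) (b : ℕ) (l : List ℕ), a = pr ++ ((b + (pr.length + 1)) :: l) ∧
      LP (b :: l) := by
  obtain ⟨l', c, rfl, hc⟩ := h
  by_cases hall : ∀ (i : ℕ) (h : i < l'.length), l'[i] ≤ i
  · have hcl : l'.length + 1 < c := by
      by_contra hcon
      exact hs ⟨l', c, rfl, hall, hc, by omega⟩
    refine ⟨l', c - (l'.length + 1), [], ?_, [], c - (l'.length + 1), rfl, by omega⟩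
    rw [Nat.sub_add_cancel (by omega)]
  · push Not at hall
    obtain ⟨i, hi, hlt⟩ := hall
    refine ⟨l'.take i, l'[i] - (i + 1), l'.drop (i + 1) ++ [c], ?_, ?_⟩
    · have hlen : (l'.take i).length = i := by rw [length_take]; omega
      rw [hlen, Nat.sub_add_cancel (by omega)]
      have : l' = l'.take i ++ l'[i] :: l'.drop (i + 1) := by
        rw [← List.drop_eq_getElem_cons hi, take_append_drop]
      rw [← cons_append, ← append_assoc, ← this]
    · exact ⟨(l'[i] - (i + 1)) :: l'.drop (i + 1), c, rfl, hc⟩

theorem total_mem {S : Submodule ℚ W} (L : List (List Bool))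
    (h : ∀ s ∈ L, Finsupp.single s 1 ∈ S) : total L ∈ S := by
  induction L with
  | nil => rw [total_nil]; exact zero_mem _
  | cons s L ih =>
    rw [total_cons]
    exact add_mem (h s mem_cons_self) (ih fun t ht => h t (mem_cons_of_mem _ ht))

/-- the span of the staircase words with `n` letters `x` and `r` letters `y` -/
noncomputable def StairNR (n r : ℕ) : Submodule ℚ W :=
  Submodule.span ℚ {f | ∃ b, IsStair b ∧ b.length = n ∧ b.sum = r ∧ f = Finsupp.single (blocks b) 1}

theorem StairNR_le (n r : ℕ) : StairNR n r ≤ Stair (n + r) := by
  refine Submodule.span_mono ?_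
  rintro f ⟨b, h1, h2, h3, rfl⟩
  exact ⟨b, h1, by rw [h2, h3], rfl⟩

/-- reduction to staircase words, for given numbers of letters -/
theorem stair_reduce (n r : ℕ) : ∀ (K : ℕ) (a : List ℕ), LP a → a.length = n → a.sum = r →
    n * r < K + pos a → (Finsupp.single (blocks a) 1 : W) ∈
      (YDS (n + r) ⊔ Lo (n + r) r) ⊔ StairNR n r := by
  intro K
  induction K with
  | zero =>
    intro a _ hn hr h
    have := pos_le a
    rw [hn, hr] at this
    omega
  | succ K ih =>
    intro a ha hn hr h
    by_cases hs : IsStair a
    · refine Submodule.mem_sup_right (Submodule.subset_span ⟨a, hs, hn, hr, rfl⟩)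
    · obtain ⟨pr, b, l, rfl, hbl⟩ := not_stair ha hs
      obtain ⟨L, hL, hpos⟩ := dist_head (pr.length + 1) b l
      have h1 := dist_rel' pr.length pr rfl (pr.length + 1) (b :: l) le_rfl hbl
      have e1 : pr.length + 1 + (pr.length + (b :: l).length + (pr.sum + (b :: l).sum)) = n + r := by
        rw [← hn, ← hr]
        simp only [length_append, sum_append, length_cons, sum_cons]
        ring
      have e2 : pr.length + 1 + (pr.sum + (b :: l).sum) = r := by
        rw [← hr]
        simp only [sum_append, sum_cons]
        ring
      rw [e1, e2, hL, map_cons, total_cons] at h1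
      have h2 : total (L.map fun s => blocks (pr ++ s)) ∈
          (YDS (n + r) ⊔ Lo (n + r) r) ⊔ StairNR n r := by
        refine total_mem _ ?_
        intro s hs'
        obtain ⟨t, ht, rfl⟩ := mem_map.1 hs'
        have ht' : t ∈ dist (pr.length + 1) (b :: l) := by rw [hL]; exact mem_cons_of_mem _ ht
        obtain ⟨d1, d2, -, d4⟩ := dist_spec _ _ t ht'
        have d5 := hpos t ht
        refine ih _ (LP_append (d4 hbl)) ?_ ?_ ?_
        · rw [← hn, length_append, length_append, d1]; rfl
        · rw [← hr, sum_append, sum_append, d2, sum_cons, sum_cons]; ring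
        · have e3 : pos (pr ++ (b + (pr.length + 1)) :: l) + 1 ≤ pos (pr ++ t) := by
            rw [pos_append, pos_append, d2]
            have : pos ((b + (pr.length + 1)) :: l) = pos (b :: l) := rfl
            rw [this]
            have e4 : ((b + (pr.length + 1)) :: l).sum = (b :: l).sum + (pr.length + 1) := by
              rw [sum_cons, sum_cons]; ring
            rw [e4]
            omega
          omega
      have e : (Finsupp.single (blocks (pr ++ (b + (pr.length + 1)) :: l)) 1 : W) =
          (Finsupp.single (blocks (pr ++ (b + (pr.length + 1)) :: l)) 1 +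
            total (L.map fun s => blocks (pr ++ s))) - total (L.map fun s => blocks (pr ++ s)) := by
        abel
      rw [e]
      exact sub_mem (Submodule.mem_sup_left h1) h2

/-- admissible words are block words -/
theorem exists_blocks {w : List Bool} (hw : w ≠ []) (h : InH0 w) : ∃ a, LP a ∧ w = blocks a := by
  have key : ∀ (n : ℕ) (w : List Bool), w.length = n → w.getLast? = some true → ∀ k : ℕ,
      ∃ a, LP a ∧ false :: (replicate k true ++ w) = blocks a := by
    intro n
    induction n with
    | zero =>
      intro w hw hl
      rw [length_eq_zero_iff] at hw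
      subst hw
      simp at hl
    | succ n ih =>
      intro w hw hl k
      cases w with
      | nil => simp at hw
      | cons c w =>
        by_cases hw' : w = []
        · subst hw'
          simp at hl
          subst hl
          refine ⟨[k + 1], ⟨[], k + 1, rfl, by omega⟩, ?_⟩
          simp [blocks, replicate_succ']
        · have hl' : w.getLast? = some true := by
            cases w with
            | nil => exact absurd rfl hw'
            | cons d w => simpa using hl
          have hlen : w.length = n := by simpa using hw
          cases c with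
          | true =>
            obtain ⟨a, ha, he⟩ := ih w hlen hl' (k + 1)
            refine ⟨a, ha, ?_⟩
            rw [← he, replicate_succ']
            simp
          | false =>
            obtain ⟨a, ha, he⟩ := ih w hlen hl' 0
            refine ⟨k :: a, LP_cons ha, ?_⟩
            rw [blocks, ← he]
            simp
  rcases h with h | ⟨h1, h2⟩
  · exact absurd h hw
  · cases w with
    | nil => exact absurd rfl hw
    | cons c w =>
      simp only [head?_cons, Option.some.injEq] at h1
      subst h1
      have h3 : w.getLast? = some true := by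
        cases w with
        | nil => simp at h2
        | cons d w => simpa using h2
      obtain ⟨a, ha, he⟩ := key _ w rfl h3 0
      exact ⟨a, ha, by simpa using he⟩

theorem H0_le_stair {p : ℕ} (hp : 1 ≤ p) : H0 p ≤ YDS p ⊔ Stair p := by
  have key : ∀ (r : ℕ) (w : List Bool), InH0 w → w.length = p → w.count true < r →
      (Finsupp.single w 1 : W) ∈ YDS p ⊔ Stair p := by
    intro r
    induction r with
    | zero => intro w _ _ h; omega
    | succ r ih =>
      intro w hw hl hc
      have hne : w ≠ [] := by
        rintro rfl
        simp at hl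
        omega
      obtain ⟨a, ha, rfl⟩ := exists_blocks hne hw
      rw [length_blocks] at hl
      rw [count_blocks] at hc
      have h1 := stair_reduce a.length a.sum (a.length * a.sum + 1) a ha rfl rfl (by omega)
      rw [hl] at h1
      have h2 : Lo p a.sum ≤ YDS p ⊔ Stair p := by
        rw [Lo, Submodule.span_le]
        rintro f ⟨v, hv, hvl, hvc, rfl⟩
        exact ih v hv hvl (by omega)
      have h3 := StairNR_le a.length a.sum
      rw [hl] at h3
      exact (sup_le (sup_le le_sup_left h2) (h3.trans le_sup_right)) h1
  rw [H0, Submodule.span_le]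
  rintro f ⟨w, hw, hl, rfl⟩
  exact key (w.count true + 1) w hw hl (by omega)

end Pool.Agent.H65.MZ
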