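import Pool.Agent.H65.MZ.Stair

/-! # Staircase words: the number, the depth, and the regularized double shuffle elements -/

set_option autoImplicit false

namespace Pool.Agent.H65.MZ

open List Module

theorem dsh_mem_Lo1 {u v : List Bool} (hu : InH1 u) (hv : InH1 v) :
    dsh u v ∈ Lo1 (u.length + v.length) (u.length + v.length + 1) := by
  rw [dsh]
  refine sub_mem (total_mem _ fun s hs => ?_) ?_
  · have h1 := length_shuffles _ _ s hs
    have h2 := List.count_le_length (a := true) (l := s)
    exact Submodule.subset_span ⟨s, shuffles_inH1 u v hu hv s hs, h1, by omega, rfl⟩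
  · obtain ⟨k1, k2⟩ := adm_index1 hu
    obtain ⟨l1, l2⟩ := adm_index1 hv
    refine total_mem_Lo1 _ _ _ fun s hs => ?_
    have h1 := pos_stuffles _ _ k1 l1 s hs
    have h2 := sum_stuffles _ _ s hs
    have h3 := length_stuffles _ _ s hs
    have e1 : (index 0 u).sum = u.length := by rw [← length_word _ k1, k2]
    have e2 : (index 0 v).sum = v.length := by rw [← length_word _ l1, l2]
    have e3 : (index 0 u).length ≤ u.length := by
      rw [← count_word, k2]; exact List.count_le_length
    have e4 : (index 0 v).length ≤ v.length := by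
      rw [← count_word, l2]; exact List.count_le_length
    exact ⟨h1, by omega, by omega⟩

theorem Lo_le_H0 (p d : ℕ) : Lo p d ≤ H0 p := by
  refine Submodule.span_mono ?_
  rintro f ⟨w, h1, h2, _, rfl⟩
  exact ⟨w, h1, h2, rfl⟩

theorem RDS_le_H0 (p : ℕ) : RDS p ≤ H0 p := by
  rw [RDS, Submodule.span_le]
  rintro f ⟨u, v, hu, hv, hp, rfl⟩
  have := reg_Lo1 (dsh_mem_Lo1 hu (inH0_inH1 hv))
  rw [hp] at this
  exact Lo_le_H0 _ _ this

theorem IsStair.LP {b : List ℕ} (h : IsStair b) : LP b := by
  obtain ⟨l, c, rfl, -, hc, -⟩ := h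
  exact ⟨l, c, rfl, hc⟩

theorem Stair_le_H0 (p : ℕ) : Stair p ≤ H0 p := by
  refine Submodule.span_mono ?_
  rintro f ⟨b, h1, h2, rfl⟩
  exact ⟨blocks b, inH0_blocks h1.LP, by rw [length_blocks, h2], rfl⟩

theorem H0_eq_stair {p : ℕ} (hp : 1 ≤ p) : H0 p = YDS p ⊔ Stair p :=
  le_antisymm (H0_le_stair hp) (sup_le ((YDS_le_RDS p).trans (RDS_le_H0 p)) (Stair_le_H0 p))

/-- a staircase with `N` entries has a sum of at most `N (N - 1) / 2 + 1` -/
theorem IsStair.sum_le {b : List ℕ} (h : IsStair b) :
    2 * b.sum ≤ b.length * (b.length - 1) + 2 := by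
  obtain ⟨l, c, rfl, hl, -, hc⟩ := h
  have key : ∀ l : List ℕ, (∀ (i : ℕ) (h : i < l.length), l[i] ≤ i) →
      2 * l.sum ≤ l.length * (l.length - 1) := by
    intro l
    induction l using List.reverseRecOn with
    | nil => intro _; simp
    | append_singleton l a ih =>
      intro h
      have h1 := ih fun i hi => by
        have := h i (by rw [length_append]; omega)
        rwa [getElem_append_left hi] at this
      have h2 := h l.length (by simp)
      rw [getElem_append_right le_rfl] at h2
      simp only [Nat.sub_self, getElem_cons_zero] at h2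
      rw [sum_append, length_append, sum_singleton, length_singleton, Nat.add_sub_cancel]
      rcases Nat.eq_zero_or_pos l.length with h0 | h0
      · rw [h0] at h1 h2 ⊢; omega
      · obtain ⟨n, hn⟩ := Nat.exists_eq_add_of_le' h0
        rw [hn] at h1 h2 ⊢
        rw [Nat.add_sub_cancel] at h1
        nlinarith
  have h1 := key l hl
  rw [sum_append, length_append, sum_singleton, length_singleton, Nat.add_sub_cancel]
  rcases Nat.eq_zero_or_pos l.length with h0 | h0
  · rw [h0] at h1 hc ⊢; omega
  · obtain ⟨n, hn⟩ := Nat.exists_eq_add_of_le' h0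
    rw [hn] at h1 hc ⊢
    rw [Nat.add_sub_cancel] at h1
    nlinarith

/-- the staircases with `n + 1` entries -/
def mkStair (n : ℕ) (g : ((i : Fin n) → Fin ((i : ℕ) + 1)) × Fin (n + 1)) : List ℕ :=
  List.ofFn (fun i => (g.1 i : ℕ)) ++ [(g.2 : ℕ) + 1]

theorem mkStair_inj (n : ℕ) : Function.Injective (mkStair n) := by
  rintro ⟨g, c⟩ ⟨g', c'⟩ h
  simp only [mkStair] at h
  obtain ⟨h1, h2⟩ := List.append_inj h (by simp)
  have h3 : g = g' := by
    funext i
    have := congrFun (List.ofFn_injective h1) i
    exact Fin.ext this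
  have h4 : c = c' := by
    simp only [cons.injEq, and_true] at h2
    exact Fin.ext (by omega)
  rw [h3, h4]

theorem range_mkStair (n : ℕ) :
    Set.range (mkStair n) = {b | IsStair b ∧ b.length = n + 1} := by
  ext b
  constructor
  · rintro ⟨⟨g, c⟩, rfl⟩
    refine ⟨⟨_, _, rfl, ?_, by omega, ?_⟩, by simp [mkStair]⟩
    · intro i hi
      rw [List.getElem_ofFn]
      rw [List.length_ofFn] at hi
      have := (g ⟨i, hi⟩).2
      simp only at this ⊢
      omega
    · have := c.2
      simp only [List.length_ofFn]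
      omega
  · rintro ⟨⟨l, c, rfl, hl, hc1, hc2⟩, hn⟩
    have hln : l.length = n := by simpa using hn
    subst hln
    refine ⟨⟨fun i => ⟨l[(i : ℕ)], Nat.lt_succ_of_le (hl i i.2)⟩, ⟨c - 1, by omega⟩⟩, ?_⟩
    rw [mkStair]
    congr 1
    · refine List.ext_getElem (by simp) fun i h1 h2 => ?_
      simp
    · simp only [cons.injEq, and_true]
      omega

/-- there are `N !` staircases with `N` entries -/
theorem card_stair {N : ℕ} (hN : 1 ≤ N) :
    {b : List ℕ | IsStair b ∧ b.length = N}.ncard = N.factorial := by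
  obtain ⟨n, rfl⟩ := Nat.exists_eq_add_of_le' hN
  rw [← range_mkStair, ← Set.image_univ, Set.ncard_image_of_injective _ (mkStair_inj n),
    Set.ncard_univ, Nat.card_prod, Nat.card_eq_fintype_card, Nat.card_eq_fintype_card,
    Fintype.card_pi, Fintype.card_fin]
  simp only [Fintype.card_fin]
  rw [Fin.prod_univ_eq_prod_range (fun i => i + 1) n, Finset.prod_range_add_one_eq_factorial,
    Nat.factorial_succ, mul_comm]

theorem Stair_le_Shallow {p : ℕ} : Stair p ≤ Shallow p := by
  refine Submodule.span_mono ?_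
  rintro f ⟨b, h1, h2, rfl⟩
  refine ⟨blocks b, inH0_blocks h1.LP, by rw [length_blocks, h2], ?_, rfl⟩
  rw [count_blocks]
  have h3 := h1.sum_le
  have hN : 1 ≤ b.length := by
    obtain ⟨l, c, rfl, -⟩ := h1
    simp
  obtain ⟨n, hn⟩ := Nat.exists_eq_add_of_le' hN
  rw [hn, Nat.add_sub_cancel] at h3
  have h4 : 2 * p ≤ (b.length + 1) ^ 2 := by
    rw [← h2, hn]
    nlinarith
  have h5 : Real.sqrt (2 * p) ≤ b.length + 1 := by
    apply Real.sqrt_le_iff.2
    refine ⟨by positivity, ?_⟩
    exact_mod_cast h4
  have h6 : (p : ℝ) = b.length + b.sum := by rw [← h2]; push_cast; ring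
  linarith

/-- a word with `N` letters `x` and more than `N (N - 1) / 2 + 1` letters `y` reduces to words of
smaller depth -/
theorem deep_reduce {w : List Bool} (hw : InH0 w)
    (h : w.count false * (w.count false - 1) + 2 < 2 * w.count true) :
    (Finsupp.single w 1 : W) ∈ YDS w.length ⊔ Lo w.length (w.count true) := by
  have hne : w ≠ [] := by rintro rfl; simp at h
  obtain ⟨a, ha, rfl⟩ := exists_blocks hne hw
  have h0 : (blocks a).count false = a.length := by
    have h1 := List.count_true_add_count_false (blocks a)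
    rw [count_blocks, length_blocks] at h1
    omega
  rw [h0, count_blocks] at h
  have h1 := stair_reduce a.length a.sum (a.length * a.sum + 1) a ha rfl rfl (by omega)
  have h2 : StairNR a.length a.sum = ⊥ := by
    rw [StairNR, Submodule.span_eq_bot]
    rintro f ⟨b, hb, hl, hs, -⟩
    have := hb.sum_le
    rw [hl, hs] at this
    omega
  rw [h2, sup_bot_eq] at h1
  rwa [length_blocks, count_blocks]

end Pool.Agent.H65.MZ
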