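import Pool.Agent.H65.MZ.BalDefs
import Pool.Agent.H65.MZ.QS
import Pool.Agent.H65.MZ.Stair
import Pool.Agent.H65.MZ.StairFin
import Pool.Agent.H65.MZ.Ker

/-! # Ballot words span modulo the regularized double shuffle elements -/

set_option autoImplicit false

namespace Pool.Agent.H65.MZ

open List Module

/-- the words in `H0` with the given numbers of letters -/
noncomputable def Hc (p c : ℕ) : Submodule ℚ W :=
  Submodule.span ℚ {f | ∃ w, InH0 w ∧ w.length = p ∧ w.count true = c ∧ f = Finsupp.single w 1}

/-- the regularization of a word in `H1` -/
theorem reg_Hc {w : List Bool} (hw : InH1 w) : reg (Finsupp.single w 1) ∈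
    Hc w.length (w.count true) := by
  rw [reg, Finsupp.linearCombination_single, one_smul, regWord]
  have hd : w.takeWhile id ++ w.dropWhile id = w := takeWhile_append_dropWhile
  cases hw' : w.dropWhile id with
  | nil =>
    simp only
    split_ifs with h0
    · subst h0
      exact Submodule.subset_span ⟨[], Or.inl rfl, rfl, rfl, rfl⟩
    · exact zero_mem _
  | cons a u =>
    simp only
    refine Submodule.smul_mem _ _ ?_
    have ha : a = false := by
      have := List.head_dropWhile_not (p := id) (l := w) (by rw [hw']; simp)
      simp only [hw', head_cons] at this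
      simpa using this
    subst ha
    rw [hw'] at hd
    have hu : InH1 u := by
      rcases hw with rfl | hw
      · simp at hw'
      · rw [← hd] at hw
        cases u with
        | nil =>
          exfalso
          rw [getLast?_append] at hw
          simp at hw
        | cons b u =>
          right
          rw [getLast?_append] at hw
          simpa using hw
    have hune : u ≠ [] := by
      rintro rfl
      rcases hw with rfl | hw
      · simp at hw'
      · rw [← hd, getLast?_append] at hw
        simp at hw
    have ht : InH1 (w.takeWhile id) := by
      have : w.takeWhile id = replicate (w.takeWhile id).length true := by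
        refine eq_replicate_iff.2 ⟨rfl, fun b hb => ?_⟩
        simpa using mem_takeWhile_imp hb
      rw [this]
      exact inH1_rep _
    have key : ∀ s ∈ (shuffles (w.takeWhile id) u).map (false :: ·), InH0 s ∧
        s.length = w.length ∧ s.count true = w.count true := by
      intro s hs
      obtain ⟨s', hs', rfl⟩ := mem_map.1 hs
      have hl' := length_shuffles _ _ s' hs'
      have hc' : s'.count true = (w.takeWhile id).count true + u.count true :=
        count_shuffles _ _ s' hs'
      have h1 : InH1 s' := shuffles_inH1 _ _ ht hu s' hs'
      have hne : s' ≠ [] := by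
        rintro rfl
        simp at hl'
        apply hune
        exact length_eq_zero_iff.1 (by omega)
      have hwl : w.length = (w.takeWhile id).length + (u.length + 1) := by
        conv_lhs => rw [← hd]
        rw [length_append, length_cons]
      have hwc : w.count true = (w.takeWhile id).count true + u.count true := by
        conv_lhs => rw [← hd]
        rw [count_append, count_cons]
        simp
      refine ⟨Or.inr ⟨rfl, ?_⟩, ?_, ?_⟩
      · rcases h1 with h1 | h1
        · exact absurd h1 hne
        · cases s' with
          | nil => exact absurd rfl hne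
          | cons b s' => simpa using h1
      · rw [length_cons, hl']; omega
      · rw [count_cons, hc', hwc]; simp
    generalize (shuffles (w.takeWhile id) u).map (false :: ·) = L at key
    induction L with
    | nil => rw [total_nil]; exact zero_mem _
    | cons s L ih =>
      rw [total_cons]
      refine add_mem ?_ (ih fun t ht => key t (mem_cons_of_mem _ ht))
      obtain ⟨k1, k2, k3⟩ := key s mem_cons_self
      exact Submodule.subset_span ⟨s, k1, k2, k3, rfl⟩

/-- a linear functional which vanishes at the words of `H0` with given numbers of letters vanishes at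
the regularizations of the words of `H1` with these numbers of letters -/
theorem phi_reg {p c : ℕ} {φ : W →ₗ[ℚ] ℚ} (h : ∀ w, InH0 w → w.length = p → w.count true = c →
    φ (Finsupp.single w 1) = 0) {w : List Bool} (hw : InH1 w) (hl : w.length = p)
    (hc : w.count true = c) : φ (reg (Finsupp.single w 1)) = 0 := by
  have h1 := reg_Hc hw
  rw [hl, hc] at h1
  have h2 : Hc p c ≤ LinearMap.ker φ := by
    rw [Hc, Submodule.span_le]
    rintro f ⟨s, h3, h4, h5, rfl⟩
    exact h s h3 h4 h5
  exact h2 h1

theorem length_stuffles' (k l : List ℕ) : ∀ m ∈ stuffles k l, l.length ≤ m.length := by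
  induction k, l using stuffles.induct with
  | case1 l => intro m hm; rw [stuffles_nil, mem_singleton] at hm; rw [hm]
  | case2 i k => intro m _; simp
  | case3 i k j l h1 h2 h3 =>
    intro m hm
    rw [stuffles_cons, mem_append, mem_append, mem_map, mem_map, mem_map] at hm
    rcases hm with (⟨m', hm, rfl⟩ | ⟨m', hm, rfl⟩) | ⟨m', hm, rfl⟩
    · have := h1 m' hm; simp at this ⊢; omega
    · have := h2 m' hm; simp at this ⊢; omega
    · have := h3 m' hm; simp at this ⊢; omega

theorem sum_map_zero {α : Type*} (L : List α) (f : α → ℚ) (h : ∀ a ∈ L, f a = 0) :
    (L.map f).sum = 0 := by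
  apply List.sum_eq_zero
  intro x hx
  obtain ⟨a, ha, rfl⟩ := mem_map.1 hx
  exact h a ha

/-- if `F` vanishes at the lists which are longer than `l`, then the sum over the stuffle product
is the sum over the ways to add the entries of `k` to entries of `l` -/
theorem sum_stuf (k l : List ℕ) : ∀ F : List ℕ → ℚ,
    (∀ m ∈ stuffles k l, l.length < m.length → F m = 0) →
    ((stuffles k l).map F).sum = QS.st F l k := by
  induction k, l using stuffles.induct with
  | case1 l =>
    intro F _
    rw [stuffles_nil, QS.st_nil]
    simp
  | case2 i k =>
    intro F h
    rw [stuffles_nil']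
    rw [stuffles_nil'] at h
    simp only [map_cons, map_nil, sum_cons, sum_nil, add_zero, QS.st]
    exact h _ (mem_singleton.2 rfl) (by simp)
  | case3 i k j l h1 h2 h3 =>
    intro F h
    rw [stuffles_cons, map_append, map_append, sum_append, sum_append, map_map, map_map, map_map,
      QS.st]
    have e1 : ((stuffles k (j :: l)).map (F ∘ (i :: ·))).sum = 0 := by
      refine sum_map_zero _ _ ?_
      intro m hm
      refine h _ ?_ ?_
      · rw [stuffles_cons, mem_append, mem_append]
        exact Or.inl (Or.inl (mem_map.2 ⟨m, hm, rfl⟩))
      · have := length_stuffles' _ _ m hm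
        simp at this ⊢
        omega
    have e2 : ((stuffles (i :: k) l).map (F ∘ (j :: ·))).sum =
        QS.st (fun t => F (j :: t)) l (i :: k) := by
      refine h2 (fun t => F (j :: t)) ?_
      intro m hm hl
      refine h _ ?_ (by simpa using hl)
      rw [stuffles_cons, mem_append, mem_append]
      exact Or.inl (Or.inr (mem_map.2 ⟨m, hm, rfl⟩))
    have e3 : ((stuffles k l).map (F ∘ ((i + j) :: ·))).sum =
        QS.st (fun t => F ((j + i) :: t)) l k := by
      rw [add_comm j i]
      refine h3 (fun t => F ((i + j) :: t)) ?_
      intro m hm hl
      refine h _ ?_ (by simpa using hl)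
      rw [stuffles_cons, mem_append, mem_append]
      exact Or.inr (mem_map.2 ⟨m, hm, rfl⟩)
    rw [e1, e2, e3, zero_add]

/-- `(a_1, ..., a_n) ↦ (a_1 + 2, a_2 + 1, ..., a_n + 1)` -/
def tr : List ℕ → List ℕ
  | [] => []
  | a :: l => (a + 2) :: l.map (· + 1)

theorem length_tr (l : List ℕ) : (tr l).length = l.length := by cases l <;> simp [tr]

theorem st_map (β : List ℕ) : ∀ (c : List ℕ) (G : List ℕ → ℚ),
    QS.st G (β.map (· + 1)) c = QS.st (fun l => G (l.map (· + 1))) β c := by
  induction β with
  | nil => intro c G; cases c <;> simp [QS.st]
  | cons b β ih =>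
    intro c G
    cases c with
    | nil => simp [QS.st]
    | cons c cs =>
      rw [map_cons, QS.st, QS.st, ih, ih]
      simp only [map_cons]
      rw [show b + c + 1 = b + 1 + c by omega]

theorem st_tr (β c : List ℕ) (G : List ℕ → ℚ) :
    QS.st G (tr β) c = QS.st (fun l => G (tr l)) β c := by
  cases β with
  | nil => cases c <;> simp [QS.st, tr]
  | cons b β =>
    cases c with
    | nil => simp [QS.st, tr]
    | cons c cs =>
      rw [tr, QS.st, QS.st, st_map, st_map]
      simp only [tr]
      rw [show b + c + 2 = b + 2 + c by omega]

theorem sum_map_add_one (l : List ℕ) : (l.map (· + 1)).sum = l.sum + l.length := by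
  induction l with
  | nil => rfl
  | cons a l ih => simp [ih]; omega

theorem sum_tr {l : List ℕ} (h : l ≠ []) : (tr l).sum = l.sum + l.length + 1 := by
  cases l with
  | nil => exact absurd rfl h
  | cons a l => rw [tr, sum_cons, sum_map_add_one, sum_cons, length_cons]; omega

theorem pos_tr (l : List ℕ) : ∀ a ∈ tr l, 1 ≤ a := by
  cases l with
  | nil => simp [tr]
  | cons b l =>
    intro a ha
    rw [tr, mem_cons, mem_map] at ha
    rcases ha with rfl | ⟨c, _, rfl⟩ <;> omega

theorem inH0_tr (l : List ℕ) : InH0 (word (tr l)) := by
  cases l with
  | nil => exact Or.inl rfl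
  | cons b l => exact word_inH0 (by omega) _

/-- the inverse of `tr` -/
theorem exists_tr {k : List ℕ} (h1 : ∀ a ∈ k, 1 ≤ a) (h2 : ∀ a t, k = a :: t → 2 ≤ a) :
    ∃ l, k = tr l := by
  cases k with
  | nil => exact ⟨[], rfl⟩
  | cons a k =>
    refine ⟨(a - 2) :: k.map (· - 1), ?_⟩
    have h3 := h2 a k rfl
    rw [tr, map_map]
    congr 1
    · omega
    · conv_lhs => rw [← map_id k]
      apply map_congr_left
      intro b hb
      have := h1 b (mem_cons_of_mem _ hb)
      simp
      omega

theorem take_sum_tr (l : List ℕ) (i : ℕ) (hi : i < l.length) :
    ((tr l).take (i + 1)).sum = (l.take (i + 1)).sum + i + 2 := by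
  cases l with
  | nil => simp at hi
  | cons b l =>
    rw [tr, take_succ_cons, take_succ_cons, sum_cons, sum_cons, ← map_take, sum_map_add_one,
      length_take, min_eq_left (by simp at hi; omega)]
    omega

theorem isBallot_tr {p : ℕ} {l : List ℕ} (hl : l ≠ []) (hs : l.sum + l.length + 1 = p)
    (h : QS.Bal 1 l) : IsBallot p (tr l) := by
  refine ⟨pos_tr l, ?_, ?_, ?_⟩
  · cases l with
    | nil => exact absurd rfl hl
    | cons b l =>
      intro a ha
      simp [tr] at ha
      omega
  · rw [sum_tr hl, hs]
  · intro i h1 h2
    obtain ⟨j, rfl⟩ := Nat.exists_eq_add_of_le h1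
    rw [length_tr] at h2
    rw [add_comm, take_sum_tr l j (by omega)]
    have := h j (by omega)
    omega

theorem phi_total (φ : W →ₗ[ℚ] ℚ) (L : List (List Bool)) : φ (reg (total L)) =
    (L.map fun w => φ (reg (Finsupp.single w 1))).sum := by
  induction L with
  | nil => simp [total_nil]
  | cons w L ih => rw [total_cons, map_add, map_add, ih, map_cons, sum_cons]

theorem adm_tr {w : List Bool} (hw : InH0 w) : ∃ l, w = word (tr l) := by
  obtain ⟨⟨h1, h2⟩, h3⟩ := adm_index hw
  obtain ⟨l, hl⟩ := exists_tr h1 h2
  exact ⟨l, by rw [← hl, h3]⟩

/-- the main step -/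
theorem phi_zero {p : ℕ} (hp : 1 ≤ p) {φ : W →ₗ[ℚ] ℚ} (h1 : ∀ f ∈ RDS p, φ f = 0)
    (h2 : ∀ f ∈ BalS p, φ f = 0) (n : ℕ) : ∀ w, InH0 w → w.length = p → w.count true = p - n →
    φ (Finsupp.single w 1) = 0 := by
  induction n using Nat.strong_induction_on with
  | _ n ih =>
    intro w hw hl hc
    rcases Nat.lt_or_ge p n with hnp | hnp
    · refine ih p hnp w hw hl ?_
      rw [hc]; omega
    obtain ⟨a, rfl⟩ := adm_tr hw
    rw [count_word, length_tr] at hc
    rw [length_word _ (pos_tr a)] at hl
    have ha : a ≠ [] := by
      rintro rfl
      simp [tr] at hl
      omega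
    rw [sum_tr ha] at hl
    -- the functional on the lists
    set G : List ℕ → ℚ := fun m => φ (reg (Finsupp.single (word m) 1)) with hG
    have hGz : ∀ m : List ℕ, (∀ a ∈ m, 1 ≤ a) → m.sum = p → p - n < m.length → G m = 0 := by
      intro m m1 m2 m3
      have hlen : m.length ≤ p := by
        rw [← m2]
        exact List.length_le_sum_of_one_le m m1
      refine phi_reg (p := p) (c := m.length) ?_ (word_inH1 m) (by rw [length_word m m1, m2])
        (count_word m)
      intro w' hw' hl' hc'
      exact ih (p - m.length) (by omega) w' hw' hl' (by rw [hc']; omega)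
    set h : List ℕ → ℚ := fun l => G (tr l) with hh
    have key : ∀ l : List ℕ, l.length = p - n → l.sum = n - 1 → h l = 0 := by
      refine QS.van2 (p - n) 1 (n - 1) h ?_ ?_
      · intro β hβ c hc1 hcp hsum
        rw [QS.wk_eq]
        refine sum_map_zero _ _ ?_
        intro l hlc
        cases c with
        | nil => simp at hc1
        | cons c cs =>
          obtain ⟨l1, l2⟩ := QS.cz_pos _ c cs rfl (hcp c mem_cons_self)
            (fun x hx => hcp x (mem_cons_of_mem _ hx)) l hlc
          have l3 := QS.cz_ne_nil _ c cs rfl l hlc
          have l1' : ∀ a ∈ l, 1 ≤ a := l1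
          have hβne : β ≠ [] := by
            rintro rfl
            simp at hβ
            have := length_pos_of_ne_nil ha
            omega
          have hpn : 1 ≤ p - n := by
            have := length_pos_of_ne_nil ha
            omega
          have hn1 : 1 ≤ n := by omega
          have hls : l.sum + (tr β).sum = p := by
            rw [sum_tr hβne, l2]
            simp at hsum
            omega
          have hlpos : 1 ≤ l.length := length_pos_of_ne_nil l3
          -- the relation
          have hrel : φ (reg (dsh (word l) (word (tr β)))) = 0 := by
            refine h1 _ (Submodule.subset_span ⟨_, _, word_inH1 l, inH0_tr β, ?_, rfl⟩)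
            rw [length_word l l1', length_word _ (pos_tr β), hls]
          rw [dsh, index_word l l1', index_word _ (pos_tr β), map_sub, map_sub, phi_total,
            phi_total, map_map] at hrel
          have hz : ((shuffles (word l) (word (tr β))).map
              fun w => φ (reg (Finsupp.single w 1))).sum = 0 := by
            refine sum_map_zero _ _ ?_
            intro s hs
            have s1 := length_shuffles _ _ s hs
            have s2 := count_shuffles _ _ s hs
            have s3 := shuffles_inH1 _ _ (word_inH1 l) (inH0_inH1 (inH0_tr β)) s hs
            rw [length_word l l1', length_word _ (pos_tr β), hls] at s1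
            rw [count_word, count_word, length_tr, hβ] at s2
            refine phi_reg (p := p) (c := s.count true) ?_ s3 s1 rfl
            intro w' hw' hl' hc'
            have hle : s.count true ≤ p := by
              rw [← s1]; exact count_le_length
            exact ih (p - s.count true) (by omega) w' hw' hl' (by rw [hc']; omega)
          rw [hz, zero_sub, neg_eq_zero] at hrel
          have hst := sum_stuf l (tr β) G ?_
          · rw [← st_tr, ← hst, ← hrel]
            rfl
          · intro m hm hlm
            refine hGz m (pos_stuffles _ _ l1' (pos_tr β) m hm) ?_ ?_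
            · rw [sum_stuffles _ _ m hm, hls]
            · rw [length_tr, hβ] at hlm
              exact hlm
      · intro l hl1 hl2 hbal
        have hlne : l ≠ [] := by
          rintro rfl
          simp at hl1
          have := length_pos_of_ne_nil ha
          omega
        have hsum : l.sum + l.length + 1 = p := by
          have := length_pos_of_ne_nil ha
          omega
        have hb := isBallot_tr hlne hsum hbal
        have hr : reg (Finsupp.single (word (tr l)) 1) = Finsupp.single (word (tr l)) 1 := by
          rcases inH0_tr l with h0 | ⟨h0, _⟩
          · exfalso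
            have := length_word _ (pos_tr l)
            rw [h0, sum_tr hlne] at this
            simp at this
          · cases hwt : word (tr l) with
            | nil => rw [hwt] at h0; simp at h0
            | cons b u =>
              rw [hwt] at h0
              simp at h0
              subst h0
              rw [← pre_single, reg_pre]
        show φ (reg (Finsupp.single (word (tr l)) 1)) = 0
        rw [hr]
        exact h2 _ (Submodule.subset_span ⟨_, hb, rfl⟩)
    have hfin := key a (by omega) (by omega)
    have hr : reg (Finsupp.single (word (tr a)) 1) = Finsupp.single (word (tr a)) 1 := by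
      cases a with
      | nil => exact absurd rfl ha
      | cons b a =>
        have : word (tr (b :: a)) = false :: (replicate b false ++ true :: word (a.map (· + 1))) := by
          simp [tr, word, replicate_succ]
        rw [this, ← pre_single, reg_pre]
    have : φ (reg (Finsupp.single (word (tr a)) 1)) = 0 := hfin
    rwa [hr] at this

end Pool.Agent.H65.MZ
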