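import Pool.Agent.H65.MZ.BalDefs

/-! # The number of ballot words -/

set_option autoImplicit false

namespace Pool.Agent.H65.MZ.BC

open Finset

/-- the terms of the number of the paths -/
def t (q j : ℕ) : ℕ := if j ≤ q then q.choose ((q - j) / 2) else 0

def G (q h : ℕ) : ℕ := ∑ j ∈ range (h + 1), t q j

theorem t_succ_succ (q j : ℕ) : t (q + 1) (j + 1) = t q j + t q (j + 2) := by
  unfold t
  rcases Nat.lt_or_ge q j with h | h
  · rw [if_neg (by omega), if_neg (by omega), if_neg (by omega)]
  · rw [if_pos (by omega), if_pos h]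
    rcases Nat.lt_or_ge q (j + 2) with h' | h'
    · rw [if_neg (by omega)]
      have e1 : (q + 1 - (j + 1)) / 2 = 0 := by omega
      have e2 : (q - j) / 2 = 0 := by omega
      rw [e1, e2]
      simp
    · rw [if_pos h']
      obtain ⟨m, hm⟩ : ∃ m, (q - (j + 2)) / 2 = m := ⟨_, rfl⟩
      have e1 : (q + 1 - (j + 1)) / 2 = m + 1 := by omega
      have e2 : (q - j) / 2 = m + 1 := by omega
      rw [e1, e2, hm, Nat.choose_succ_succ, add_comm]

theorem t_succ_zero (q : ℕ) : t (q + 1) 0 = t q 0 + t q 1 := by
  unfold t
  rw [if_pos (by omega), if_pos (by omega)]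
  rcases Nat.eq_zero_or_pos q with rfl | h
  · simp
  · rw [if_pos (by omega), Nat.sub_zero, Nat.sub_zero]
    rcases Nat.even_or_odd' q with ⟨m, rfl | rfl⟩
    · obtain ⟨k, rfl⟩ := Nat.exists_eq_add_of_le' (show 1 ≤ m by omega)
      have e1 : (2 * (k + 1) + 1) / 2 = k + 1 := by omega
      have e2 : (2 * (k + 1)) / 2 = k + 1 := by omega
      have e3 : (2 * (k + 1) - 1) / 2 = k := by omega
      rw [e1, e2, e3, Nat.choose_succ_succ, add_comm]
    · have e1 : (2 * m + 1 + 1) / 2 = m + 1 := by omega
      have e2 : (2 * m + 1) / 2 = m := by omega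
      have e3 : (2 * m + 1 - 1) / 2 = m := by omega
      rw [e1, e2, e3, Nat.choose_succ_succ]
      congr 1
      exact Nat.choose_symm_half m

theorem G_succ (q h : ℕ) : G (q + 1) h = G q (h + 1) + (if h = 0 then 0 else G q (h - 1)) := by
  induction h with
  | zero => simp [G, sum_range_succ, t_succ_zero]
  | succ h ih =>
    have e : G (q + 1) (h + 1) = G (q + 1) h + t (q + 1) (h + 1) := by
      simp only [G, sum_range_succ]
    have e2 : G q (h + 1 + 1) = G q (h + 1) + t q (h + 2) := by
      simp only [G, sum_range_succ]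
    have e4 : (if h + 1 = 0 then 0 else G q (h + 1 - 1)) = G q h := by
      rw [if_neg (by omega), Nat.add_sub_cancel]
    rw [e4, e, ih, t_succ_succ, e2]
    rcases Nat.eq_zero_or_pos h with rfl | hh
    · have e5 : G q 0 = t q 0 := by simp [G]
      rw [if_pos rfl, e5]
      ring
    · obtain ⟨k, rfl⟩ := Nat.exists_eq_add_of_le' hh
      rw [if_neg (by omega), Nat.add_sub_cancel]
      have e3 : G q (k + 1) = G q k + t q (k + 1) := by
        simp only [G, sum_range_succ]
      rw [e3]
      ring

theorem G_zero (q : ℕ) : G q 0 = q.choose (q / 2) := by simp [G, t]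

theorem G_zero' (h : ℕ) : G 0 h = 1 := by
  induction h with
  | zero => simp [G, t]
  | succ h ih =>
    have e : G 0 (h + 1) = G 0 h + t 0 (h + 1) := by simp only [G, sum_range_succ]
    rw [e, ih]
    simp [t]

/-- `P h k` : `k_1 + ... + k_i + 1 ≤ h + 2 i` for `1 ≤ i ≤ length k` -/
def P (h : ℕ) (k : List ℕ) : Prop := ∀ i < k.length, (k.take (i + 1)).sum + 1 ≤ h + 2 * (i + 1)

/-- the indices which belong to paths with `q` steps from height `h` -/
def T (h q : ℕ) : Set (List ℕ) := {k | k ≠ [] ∧ (∀ a ∈ k, 1 ≤ a) ∧ k.sum = q + 1 ∧ P h k}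

def bump : List ℕ → List ℕ
  | [] => []
  | a :: l => (a + 1) :: l

theorem bump_inj : Function.Injective bump := by
  intro k l h
  cases k <;> cases l <;> simp_all [bump]

theorem T_zero (h : ℕ) : T h 0 = {[1]} := by
  ext k
  simp only [T, Set.mem_ofPred_eq, Set.mem_singleton_iff]
  constructor
  · rintro ⟨h1, h2, h3, _⟩
    cases k with
    | nil => exact absurd rfl h1
    | cons a l =>
      have ha := h2 a List.mem_cons_self
      simp at h3
      cases l with
      | nil => simp at h3; simp [h3]
      | cons b l =>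
        have hb := h2 b (by simp)
        simp at h3
        omega
  · rintro rfl
    refine ⟨by simp, by simp, by simp, ?_⟩
    intro i hi
    simp at hi
    subst hi
    simp

theorem P_one_cons (h : ℕ) (l : List ℕ) : P h (1 :: l) ↔ P (h + 1) l := by
  constructor
  · intro H i hi
    have := H (i + 1) (by simpa using hi)
    simp only [List.take_succ_cons, List.sum_cons] at this
    omega
  · intro H i hi
    cases i with
    | zero => simp
    | succ i =>
      have := H i (by simpa using hi)
      simp only [List.take_succ_cons, List.sum_cons]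
      omega

theorem P_bump (h a : ℕ) (l : List ℕ) : P (h + 1) ((a + 1) :: l) ↔ P h (a :: l) := by
  constructor
  · intro H i hi
    have := H i (by simpa using hi)
    simp only [List.take_succ_cons, List.sum_cons] at this ⊢
    omega
  · intro H i hi
    have := H i (by simpa using hi)
    simp only [List.take_succ_cons, List.sum_cons] at this ⊢
    omega

theorem T_succ (h q : ℕ) : T h (q + 1) = (fun l => 1 :: l) '' T (h + 1) q ∪
    (if h = 0 then ∅ else bump '' T (h - 1) q) := by
  ext k
  simp only [Set.mem_union, Set.mem_image]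
  constructor
  · rintro ⟨h1, h2, h3, h4⟩
    cases k with
    | nil => exact absurd rfl h1
    | cons a l =>
      have ha := h2 a List.mem_cons_self
      obtain ⟨b, rfl⟩ := Nat.exists_eq_add_of_le' ha
      rcases Nat.eq_zero_or_pos b with rfl | hb
      · left
        refine ⟨l, ⟨?_, fun x hx => h2 x (List.mem_cons_of_mem _ hx), ?_, ?_⟩, rfl⟩
        · rintro rfl
          simp at h3
        · simp at h3
          omega
        · exact (P_one_cons h l).1 h4
      · right
        rcases Nat.eq_zero_or_pos h with rfl | hh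
        · exfalso
          have := h4 0 (by simp)
          simp at this
          omega
        · obtain ⟨g, rfl⟩ := Nat.exists_eq_add_of_le' hh
          rw [if_neg (by omega), Nat.add_sub_cancel]
          refine ⟨b :: l, ⟨by simp, ?_, ?_, ?_⟩, rfl⟩
          · intro x hx
            rcases List.mem_cons.1 hx with rfl | hx
            · exact hb
            · exact h2 x (List.mem_cons_of_mem _ hx)
          · simp at h3 ⊢
            omega
          · exact (P_bump g b l).1 h4
  · rintro (⟨l, ⟨h1, h2, h3, h4⟩, rfl⟩ | H)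
    · refine ⟨by simp, ?_, ?_, ?_⟩
      · intro x hx
        rcases List.mem_cons.1 hx with rfl | hx
        · exact le_refl _
        · exact h2 x hx
      · simp [h3]
        omega
      · exact (P_one_cons h l).2 h4
    · rcases Nat.eq_zero_or_pos h with rfl | hh
      · simp at H
      · obtain ⟨g, rfl⟩ := Nat.exists_eq_add_of_le' hh
        rw [if_neg (by omega), Nat.add_sub_cancel] at H
        obtain ⟨k, ⟨h1, h2, h3, h4⟩, rfl⟩ := H
        cases k with
        | nil => exact absurd rfl h1
        | cons b l =>
          refine ⟨by simp [bump], ?_, ?_, ?_⟩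
          · intro x hx
            rcases List.mem_cons.1 hx with rfl | hx
            · omega
            · exact h2 x (List.mem_cons_of_mem _ hx)
          · simp [bump] at h3 ⊢
            omega
          · exact (P_bump g b l).2 h4

theorem T_card (q : ℕ) : ∀ h, (T h q).Finite ∧ (T h q).ncard = G q h := by
  induction q with
  | zero =>
    intro h
    rw [T_zero, G_zero']
    exact ⟨Set.finite_singleton _, Set.ncard_singleton _⟩
  | succ q ih =>
    intro h
    obtain ⟨f1, c1⟩ := ih (h + 1)
    obtain ⟨f2, c2⟩ := ih (h - 1)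
    have fi : (if h = 0 then (∅ : Set (List ℕ)) else bump '' T (h - 1) q).Finite := by
      split_ifs
      · exact Set.finite_empty
      · exact f2.image _
    have f0 := f1.image (fun l => 1 :: l)
    refine ⟨?_, ?_⟩
    · rw [T_succ]
      exact f0.union fi
    · rw [T_succ, Set.ncard_union_eq ?_ f0 fi, G_succ]
      · congr 1
        · rw [Set.ncard_image_of_injective _ (fun a b hab => by simpa using hab), c1]
        · split_ifs
          · simp
          · rw [Set.ncard_image_of_injective _ bump_inj, c2]
      · rw [Set.disjoint_left]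
        rintro _ ⟨l, _, rfl⟩ hk
        split_ifs at hk
        · exact hk
        · obtain ⟨k, ⟨k1, k2, _⟩, hk⟩ := hk
          cases k with
          | nil => exact absurd rfl k1
          | cons b k =>
            have := k2 b List.mem_cons_self
            simp [bump] at hk
            omega

theorem ballot_eq (n : ℕ) : {k | IsBallot (n + 2) k} = bump '' T 0 n := by
  ext k
  simp only [Set.mem_ofPred_eq, Set.mem_image]
  constructor
  · rintro ⟨h1, h2, h3, h4⟩
    cases k with
    | nil => simp at h3
    | cons a l =>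
      have ha : 2 ≤ a := h2 a (by simp)
      obtain ⟨b, rfl⟩ := Nat.exists_eq_add_of_le' ha
      refine ⟨(b + 1) :: l, ⟨by simp, ?_, ?_, ?_⟩, rfl⟩
      · intro x hx
        rcases List.mem_cons.1 hx with rfl | hx
        · omega
        · exact h1 x (List.mem_cons_of_mem _ hx)
      · simp at h3 ⊢
        omega
      · intro i hi
        have := h4 (i + 1) (by omega) (by simpa using hi)
        simp only [List.take_succ_cons, List.sum_cons] at this ⊢
        omega
  · rintro ⟨k, ⟨h1, h2, h3, h4⟩, rfl⟩
    cases k with
    | nil => exact absurd rfl h1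
    | cons b l =>
      refine ⟨?_, ?_, ?_, ?_⟩
      · intro x hx
        rcases List.mem_cons.1 hx with rfl | hx
        · omega
        · exact h2 x (List.mem_cons_of_mem _ hx)
      · intro a ha
        have := h2 b List.mem_cons_self
        simp [bump] at ha
        omega
      · simp [bump] at h3 ⊢
        omega
      · intro i h5 h6
        obtain ⟨j, rfl⟩ := Nat.exists_eq_add_of_le' h5
        have := h4 j (by simpa [bump] using h6)
        simp only [bump, List.take_succ_cons, List.sum_cons] at this ⊢
        omega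

theorem ballot_card (n : ℕ) : {k | IsBallot (n + 2) k}.Finite ∧
    {k | IsBallot (n + 2) k}.ncard = n.choose (n / 2) := by
  obtain ⟨f, c⟩ := T_card n 0
  rw [ballot_eq]
  exact ⟨f.image _, by rw [Set.ncard_image_of_injective _ bump_inj, c, G_zero]⟩

theorem central_sq_le (m : ℕ) : (3 * m + 1) * (2 * m).choose m ^ 2 ≤ 16 ^ m := by
  induction m with
  | zero => simp
  | succ m ih =>
    have h1 : (m + 1) * (2 * (m + 1)).choose (m + 1) = 2 * (2 * m + 1) * (2 * m).choose m := by
      have := Nat.succ_mul_centralBinom_succ m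
      simpa [Nat.centralBinom_eq_two_mul_choose] using this
    have h2 : (m + 1) ^ 2 * ((3 * (m + 1) + 1) * (2 * (m + 1)).choose (m + 1) ^ 2) *
        (3 * m + 1) ≤ (m + 1) ^ 2 * 16 ^ (m + 1) * (3 * m + 1) := by
      calc (m + 1) ^ 2 * ((3 * (m + 1) + 1) * (2 * (m + 1)).choose (m + 1) ^ 2) * (3 * m + 1)
          = (3 * m + 4) * (3 * m + 1) * ((m + 1) * (2 * (m + 1)).choose (m + 1)) ^ 2 := by ring
        _ = (3 * m + 4) * (3 * m + 1) * (2 * (2 * m + 1) * (2 * m).choose m) ^ 2 := by rw [h1]
        _ = (4 * (2 * m + 1) ^ 2 * (3 * m + 4)) * ((3 * m + 1) * (2 * m).choose m ^ 2) := by ring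
        _ ≤ (16 * (m + 1) ^ 2 * (3 * m + 1)) * 16 ^ m := by
            refine Nat.mul_le_mul ?_ ih
            nlinarith
        _ = (m + 1) ^ 2 * 16 ^ (m + 1) * (3 * m + 1) := by ring
    have h3 := Nat.le_of_mul_le_mul_right h2 (by omega)
    exact Nat.le_of_mul_le_mul_left h3 (by positivity)

theorem choose_half_sq_le (q : ℕ) : (q + 1) * q.choose (q / 2) ^ 2 ≤ 4 ^ q := by
  rcases Nat.even_or_odd' q with ⟨m, rfl | rfl⟩
  · rw [show 2 * m / 2 = m by omega, pow_mul]
    refine le_trans (Nat.mul_le_mul_right _ (by omega)) (central_sq_le m)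
  · rw [show (2 * m + 1) / 2 = m by omega]
    have h1 := central_sq_le (m + 1)
    have h2 : (2 * (m + 1)).choose (m + 1) = 2 * (2 * m + 1).choose m := by
      rw [show 2 * (m + 1) = 2 * m + 1 + 1 by ring, Nat.choose_succ_succ, Nat.succ_eq_add_one,
        Nat.choose_symm_half]
      ring
    rw [h2] at h1
    have h3 : 4 * ((3 * (m + 1) + 1) * (2 * m + 1).choose m ^ 2) ≤ 4 * 4 ^ (2 * m + 1) := by
      calc 4 * ((3 * (m + 1) + 1) * (2 * m + 1).choose m ^ 2) =
          (3 * (m + 1) + 1) * (2 * (2 * m + 1).choose m) ^ 2 := by ring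
        _ ≤ 16 ^ (m + 1) := h1
        _ = 4 * 4 ^ (2 * m + 1) := by
          rw [show (16 : ℕ) = 4 ^ 2 by norm_num, ← pow_mul]
          ring
    have h4 := Nat.le_of_mul_le_mul_left h3 (by norm_num)
    exact le_trans (Nat.mul_le_mul_right _ (by omega)) h4

end Pool.Agent.H65.MZ.BC
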