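import Pool.Agent.H65.MZ.BalCount

/-! # The number of ballot words for the finite relations -/

set_option autoImplicit false

namespace Pool.Agent.H65.MZ.BC

theorem take_reverse_sum (l : List ℕ) (j : ℕ) :
    (l.reverse.take j).sum = (l.drop (l.length - j)).sum := by
  rw [List.take_reverse, List.sum_reverse]

theorem ballotF_eq (n : ℕ) : {k | IsBallotF (n + 2) k} = (fun k => bump k.reverse) '' T 1 n := by
  ext k
  simp only [Set.mem_ofPred_eq, Set.mem_image]
  constructor
  · rintro ⟨h1, h2, h3, h4, h5⟩
    cases k with
    | nil => simp at h3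
    | cons a l =>
      have ha : 2 ≤ a := h2 a (by simp)
      obtain ⟨b, rfl⟩ := Nat.exists_eq_add_of_le' ha
      refine ⟨((b + 1) :: l).reverse, ⟨by simp, ?_, ?_, ?_⟩, ?_⟩
      · intro x hx
        rw [List.mem_reverse] at hx
        rcases List.mem_cons.1 hx with rfl | hx
        · omega
        · exact h1 x (List.mem_cons_of_mem _ hx)
      · rw [List.sum_reverse]
        simp at h3 ⊢
        omega
      · intro i hi
        rw [List.length_reverse, List.length_cons] at hi
        rw [take_reverse_sum, List.length_cons]
        rcases Nat.lt_or_ge (i + 1) (l.length + 1) with h | h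
        · obtain ⟨j, hj⟩ : ∃ j, l.length + 1 - (i + 1) = j + 1 := ⟨l.length - i - 1, by omega⟩
          have := h5 (j + 1) (by omega) (by rw [List.length_cons]; omega)
          rw [List.drop_succ_cons, List.length_cons] at this
          rw [hj, List.drop_succ_cons]
          omega
        · rw [show l.length + 1 - (i + 1) = 0 by omega, List.drop_zero]
          simp at h3 h4 ⊢
          omega
      · rw [List.reverse_reverse, bump]
  · rintro ⟨k, ⟨h1, h2, h3, h4⟩, rfl⟩
    obtain ⟨k, rfl⟩ : ∃ l : List ℕ, k = l.reverse := ⟨k.reverse, by simp⟩
    rw [List.reverse_reverse]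
    cases k with
    | nil => simp at h1
    | cons b l =>
      have hb : 1 ≤ b := h2 b (by simp)
      rw [List.sum_reverse] at h3
      refine ⟨?_, ?_, ?_, ?_, ?_⟩
      · intro x hx
        rcases List.mem_cons.1 hx with rfl | hx
        · omega
        · exact h2 x (by simp [hx])
      · intro a ha
        simp [bump] at ha
        omega
      · simp [bump] at h3 ⊢
        omega
      · have := h4 l.length (by simp)
        rw [take_reverse_sum, List.length_cons, Nat.sub_self, List.drop_zero] at this
        simp [bump] at h3 this ⊢
        omega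
      · intro i h5 h6
        obtain ⟨j, rfl⟩ := Nat.exists_eq_add_of_le' h5
        rw [bump, List.length_cons] at h6 ⊢
        rw [List.drop_succ_cons]
        obtain ⟨c, hc⟩ : ∃ c, l.length + 1 - (j + 1) = c + 1 := ⟨l.length - j - 1, by omega⟩
        have := h4 c (by rw [List.length_reverse, List.length_cons]; omega)
        rw [take_reverse_sum, List.length_cons, show l.length + 1 - (c + 1) = j + 1 by omega,
          List.drop_succ_cons] at this
        omega

theorem ballotF_card (n : ℕ) : {k | IsBallotF (n + 2) k}.Finite ∧
    {k | IsBallotF (n + 2) k}.ncard = (n + 1).choose ((n + 1) / 2) := by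
  obtain ⟨f, c⟩ := T_card n 1
  have hinj : Function.Injective (fun k : List ℕ => bump k.reverse) :=
    bump_inj.comp List.reverse_injective
  rw [ballotF_eq]
  refine ⟨f.image _, ?_⟩
  rw [Set.ncard_image_of_injective _ hinj, c]
  have h1 : G n 1 = t n 0 + t n 1 := by simp [G, Finset.sum_range_succ]
  rw [h1, ← t_succ_zero]
  simp [t]

end Pool.Agent.H65.MZ.BC
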