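import Pool.Agent.H65.MZ.Defs

/-! # Ballot words: definitions -/

set_option autoImplicit false

namespace Pool.Agent.H65.MZ

open Module

/-- the indices `k = (k_1, ..., k_t)` of weight `p` with `k_1 ≥ 2`, all `k_i ≥ 1` and
`k_1 + ... + k_i ≤ 2 i` for `1 ≤ i ≤ t` -/
def IsBallot (p : ℕ) (k : List ℕ) : Prop :=
  (∀ a ∈ k, 1 ≤ a) ∧ (∀ a ∈ k.head?, 2 ≤ a) ∧ k.sum = p ∧
    ∀ i, 1 ≤ i → i ≤ k.length → (k.take i).sum ≤ 2 * i

/-- the span of the words `y_{k_1} ... y_{k_t}` for the indices of `IsBallot p` -/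
noncomputable def BalS (p : ℕ) : Submodule ℚ W :=
  Submodule.span ℚ {f | ∃ k, IsBallot p k ∧ f = Finsupp.single (word k) 1}

/-- the indices `k = (k_1, ..., k_t)` of weight `p ≤ 2 t + 1` with `k_1 ≥ 2`, all `k_i ≥ 1` and
`k_{i + 1} + ... + k_t ≤ 2 (t - i)` for `1 ≤ i < t` -/
def IsBallotF (p : ℕ) (k : List ℕ) : Prop :=
  (∀ a ∈ k, 1 ≤ a) ∧ (∀ a ∈ k.head?, 2 ≤ a) ∧ k.sum = p ∧ p ≤ 2 * k.length + 1 ∧
    ∀ i, 1 ≤ i → i < k.length → (k.drop i).sum ≤ 2 * (k.length - i)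

/-- the span of the words `y_{k_1} ... y_{k_t}` for the indices of `IsBallotF p` -/
noncomputable def BalSF (p : ℕ) : Submodule ℚ W :=
  Submodule.span ℚ {f | ∃ k, IsBallotF p k ∧ f = Finsupp.single (word k) 1}

end Pool.Agent.H65.MZ
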