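import Pool.Agent.H65.MZ.QS

/-!
# Quasi-symmetric coinvariants: admissible compositions

A functional on the monomials of degree `m` in `n` variables that kills the multiples of the monomial
quasi-symmetric polynomials whose last exponent is at least two, and vanishes at the monomials with
exponents `a₁ + ⋯ + a_i ≤ i` for all `i`, vanishes.
-/

set_option autoImplicit false

namespace Pool.Agent.H65.MZ.QS

/-- `st` at a list with a last entry -/
theorem st_concat (β : List ℕ) : ∀ (h : List ℕ → ℚ) (b : ℕ) (c : List ℕ) (d : ℕ),
    st h (β ++ [b]) (c ++ [d]) = st (fun l => h (l ++ [b])) β (c ++ [d]) +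
      st (fun l => h (l ++ [b + d])) β c := by
  induction β with
  | nil =>
    intro h b c d
    cases c with
    | nil => simp [st]
    | cons c cs => cases cs <;> simp [st]
  | cons a β ih =>
    intro h b c d
    cases c with
    | nil =>
      have h1 := ih (fun l => h (a :: l)) b [] d
      rw [List.nil_append, st_nil] at h1
      rw [List.nil_append, List.cons_append]
      simp only [st, st_nil, List.cons_append]
      rw [h1]
      ring
    | cons c cs =>
      have h1 := ih (fun l => h (a :: l)) b (c :: cs) d
      have h2 := ih (fun l => h ((a + c) :: l)) b cs d
      simp only [List.cons_append] at h1 ⊢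
      rw [st, h1, h2, st, st]
      simp only [List.cons_append]
      ring

theorem st_nil_left (h : List ℕ → ℚ) (c : List ℕ) (hc : c ≠ []) : st h [] c = 0 := by
  cases c with
  | nil => exact absurd rfl hc
  | cons c cs => rfl

/-- reversal -/
theorem st_reverse (n : ℕ) : ∀ (β c : List ℕ) (h : List ℕ → ℚ), β.length = n →
    st (fun l => h l.reverse) β.reverse c.reverse = st h β c := by
  induction n with
  | zero =>
    intro β c h hn
    rw [List.length_eq_zero_iff] at hn
    subst hn
    cases c with
    | nil => simp [st]
    | cons c cs =>
      rw [List.reverse_nil, st_nil_left _ _ (by simp)]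
      rfl
  | succ n ih =>
    intro β c h hn
    obtain ⟨b, β, rfl⟩ := List.exists_cons_of_length_eq_add_one hn
    cases c with
    | nil => simp [st_nil]
    | cons c cs =>
      rw [List.reverse_cons, List.reverse_cons, st_concat, st]
      have h1 := ih β (c :: cs) (fun l => h (b :: l)) (by simpa using hn)
      have h2 := ih β cs (fun l => h ((b + c) :: l)) (by simpa using hn)
      rw [List.reverse_cons] at h1
      simp only [List.reverse_append, List.reverse_cons, List.reverse_nil, List.nil_append,
        List.singleton_append]
      rw [h1, h2]

/-- the last entries of the coarsenings -/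
theorem cz_last : ∀ (n c : ℕ) (cs : List ℕ), cs.length = n →
    ∀ l ∈ cz (c :: cs), ∀ z ∈ l.getLast?, ∀ y ∈ (c :: cs).getLast?, y ≤ z := by
  intro n
  induction n with
  | zero =>
    intro c cs hn l hl z hz y hy
    rw [List.length_eq_zero_iff] at hn
    subst hn
    simp [cz] at hl
    subst hl
    simp at hz hy
    omega
  | succ n ih =>
    intro c cs hn l hl z hz y hy
    obtain ⟨d, ds, rfl⟩ := List.exists_cons_of_length_eq_add_one hn
    rw [List.getLast?_cons_cons] at hy
    rw [cz, List.mem_append] at hl
    rcases hl with hl | hl
    · rw [List.mem_map] at hl
      obtain ⟨l', hl', rfl⟩ := hl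
      have hne := cz_ne_nil _ d ds rfl l' hl'
      obtain ⟨e, l'', rfl⟩ := List.exists_cons_of_ne_nil hne
      rw [List.getLast?_cons_cons] at hz
      exact ih d ds (by simpa using hn) _ hl' z hz y hy
    · cases ds with
      | nil =>
        simp [cz] at hl
        subst hl
        simp at hz hy
        omega
      | cons e ds =>
        refine ih (c + d) (e :: ds) (by simpa using hn) l hl z hz y ?_
        rw [List.getLast?_cons_cons] at hy ⊢
        exact hy

/-- the weakly increasing sums with at least `k` parts, the last one at least two, vanish -/
def KA (n k m : ℕ) (h : List ℕ → ℚ) : Prop :=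
  ∀ β : List ℕ, β.length = n → ∀ c : List ℕ, k ≤ c.length → (∀ x ∈ c, 0 < x) →
    (∀ x ∈ c.getLast?, 2 ≤ x) → c ≠ [] → β.sum + c.sum = m → wk h β c = 0

/-- `wk` only sees the values at the lists whose first entry is large -/
theorem wk_zero_of' (c : List ℕ) : ∀ (h : List ℕ → ℚ) (b : ℕ) (β : List ℕ),
    (∀ (a : ℕ) (l : List ℕ), b ≤ a → l.length = β.length → a + l.sum = b + β.sum + c.sum →
      h (a :: l) = 0) → wk h (b :: β) c = 0 := by
  induction c with
  | nil => intro h b β H; rw [wk_nil]; exact H b β le_rfl rfl (by simp)
  | cons c cs ih =>
    intro h b β H
    rw [wk_cons, wk_zero_of _ β (c :: cs) _ rfl, ih, add_zero]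
    · intro a l h1 h2 h3
      exact H a l (by omega) h2 (by simp at h3 ⊢; omega)
    · intro l h1 h2
      exact H b l le_rfl h1 (by simp at h2 ⊢; omega)

theorem getLast_cons_of_ne {c : ℕ} {cs : List ℕ} (h : cs ≠ []) :
    (c :: cs).getLast? = cs.getLast? := by
  obtain ⟨d, ds, rfl⟩ := List.exists_cons_of_ne_nil h
  rw [List.getLast?_cons_cons]

/-- the main lemma for admissible compositions -/
theorem vanA (n : ℕ) : ∀ (k m : ℕ) (h : List ℕ → ℚ), KA n (k + 1) m h →
    (∀ a : List ℕ, a.length = n → a.sum = m → Bal (k + 2) a → h a = 0) →
    ∀ a : List ℕ, a.length = n → a.sum = m → h a = 0 := by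
  induction n with
  | zero =>
    intro k m h _ hB a ha hs
    rw [List.length_eq_zero_iff] at ha
    subst ha
    exact hB [] rfl hs (bal_nil _)
  | succ n ih =>
    intro k
    induction k with
    | zero =>
      intro m h hK hB
      have h0 : ∀ l : List ℕ, l.length = n → l.sum = m → h (0 :: l) = 0 := by
        refine ih 1 m (fun l => h (0 :: l)) ?_ ?_
        · intro β hβ c hc hpos hlast hne hsum
          cases c with
          | nil => simp at hc
          | cons c₁ c =>
            have hcne : c ≠ [] := by
              rintro rfl
              simp at hc
            rw [getLast_cons_of_ne hcne] at hlast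
            have e1 := hK (0 :: β) (by simpa using hβ) (c₁ :: c) (by simp) hpos
              (by rwa [getLast_cons_of_ne hcne]) (by simp) (by simpa using hsum)
            rw [wk_cons] at e1
            have e2 := hK ((0 + c₁) :: β) (by simpa using hβ) c (by simp at hc ⊢; omega)
              (fun x hx => hpos x (by simp [hx])) hlast hcne (by simp at hsum ⊢; omega)
            rw [e2, add_zero] at e1
            exact e1
        · intro l hl hs hbal
          exact hB (0 :: l) (by simpa using hl) (by simpa using hs) (bal_zero_cons hbal (by omega))
      have h2 : ∀ (a : ℕ) (l : List ℕ), 2 ≤ a → l.length = n → a + l.sum = m → h (a :: l) = 0 := by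
        intro a l ha hl hs
        have e1 := hK (0 :: l) (by simpa using hl) [a] (by simp) (by simp; omega)
          (by simp; omega) (by simp) (by simp; omega)
        rw [wk_cons, wk_zero_of _ l [a] _ rfl, zero_add, zero_add, wk_nil] at e1
        · exact e1
        · intro l' h1 h2
          exact h0 l' (by omega) (by simp at h2; omega)
      have h1 : 1 ≤ m → ∀ l : List ℕ, l.length = n → l.sum = m - 1 → h (1 :: l) = 0 := by
        intro hm
        refine ih 0 (m - 1) (fun l => h (1 :: l)) ?_ ?_
        · intro β hβ c hc hpos hlast hne hsum
          cases c with
          | nil => exact absurd rfl hne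
          | cons c₁ c =>
            have e1 := hK (1 :: β) (by simpa using hβ) (c₁ :: c) hc hpos hlast hne
              (by simp at hsum ⊢; omega)
            have hc₁ : 0 < c₁ := hpos c₁ (by simp)
            rw [wk_cons, wk_zero_of' c h (1 + c₁) β, add_zero] at e1
            · exact e1
            · intro a l h3 h4 h5
              refine h2 a l (by omega) (by omega) ?_
              simp at hsum
              omega
        · intro l hl hs hbal
          refine hB (1 :: l) (by simpa using hl) (by simp; omega) ?_
          intro i hi
          cases i with
          | zero => simp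
          | succ i =>
            have := hbal i (by simpa using hi)
            simp only [List.take_succ_cons, List.sum_cons] at this ⊢
            omega
      intro a ha hs
      obtain ⟨a₁, a', rfl⟩ := List.exists_cons_of_length_eq_add_one ha
      rcases Nat.lt_or_ge a₁ 2 with h3 | h3
      · rcases Nat.eq_zero_or_pos a₁ with rfl | hp
        · exact h0 a' (by simpa using ha) (by simpa using hs)
        · obtain rfl : a₁ = 1 := by omega
          exact h1 (by simp at hs; omega) a' (by simpa using ha) (by simp at hs ⊢; omega)
      · exact h2 a₁ a' h3 (by simpa using ha) (by simpa using hs)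
    | succ k ihk =>
      intro m h hK hB
      have h0 : ∀ l : List ℕ, l.length = n → l.sum = m → h (0 :: l) = 0 := by
        refine ih (k + 2) m (fun l => h (0 :: l)) ?_ ?_
        · intro β hβ c hc hpos hlast hne hsum
          cases c with
          | nil => simp at hc
          | cons c₁ c =>
            have hcne : c ≠ [] := by
              rintro rfl
              simp at hc
            rw [getLast_cons_of_ne hcne] at hlast
            have e1 := hK (0 :: β) (by simpa using hβ) (c₁ :: c) (by simp at hc ⊢; omega) hpos
              (by rwa [getLast_cons_of_ne hcne]) (by simp) (by simpa using hsum)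
            rw [wk_cons] at e1
            have e2 := hK ((0 + c₁) :: β) (by simpa using hβ) c (by simp at hc ⊢; omega)
              (fun x hx => hpos x (by simp [hx])) hlast hcne (by simp at hsum ⊢; omega)
            rw [e2, add_zero] at e1
            exact e1
        · intro l hl hs hbal
          exact hB (0 :: l) (by simpa using hl) (by simpa using hs) (bal_zero_cons hbal (by omega))
      have h1 : 1 ≤ m → ∀ a : List ℕ, a.length = n + 1 → a.sum = m - 1 → up h a = 0 := by
        intro hm
        refine ihk (m - 1) (up h) ?_ ?_
        · intro β hβ c hc hpos hlast hne hsum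
          obtain ⟨b, β', rfl⟩ := List.exists_cons_of_length_eq_add_one hβ
          rw [wk_up]
          rcases Nat.lt_or_ge (k + 1) c.length with hlt | hge
          · refine hK _ (by simpa using hβ) c (by omega) hpos hlast hne ?_
            simp at hsum ⊢
            omega
          · have e1 := hK (0 :: β') (by simpa using hβ) ((b + 1) :: c) (by simp; omega)
              (by
                intro x hx
                rcases List.mem_cons.1 hx with rfl | hx
                · omega
                · exact hpos x hx) (by rwa [getLast_cons_of_ne hne]) (by simp)
              (by simp at hsum ⊢; omega)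
            rw [wk_cons, wk_zero_of _ β' ((b + 1) :: c) _ rfl, zero_add, zero_add] at e1
            · exact e1
            · intro l hl hs
              refine h0 l ?_ ?_
              · simp at hβ
                omega
              · simp at hs hsum
                omega
        · intro a ha hs hbal
          obtain ⟨a₁, a', rfl⟩ := List.exists_cons_of_length_eq_add_one ha
          show h ((a₁ + 1) :: a') = 0
          exact hB _ (by simpa using ha) (by simp at hs ⊢; omega) (bal_succ_cons hbal)
      intro a ha hs
      obtain ⟨a₁, a', rfl⟩ := List.exists_cons_of_length_eq_add_one ha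
      rcases Nat.eq_zero_or_pos a₁ with rfl | hp
      · exact h0 a' (by simpa using ha) (by simpa using hs)
      · obtain ⟨a₂, rfl⟩ := Nat.exists_eq_add_of_le hp
        have := h1 (by simp at hs; omega) (a₂ :: a') (by simpa using ha) (by simp at hs ⊢; omega)
        simpa [up, add_comm] using this

end Pool.Agent.H65.MZ.QS
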