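import Pool.Agent.H65.MZ.Bal
import Pool.Agent.H65.MZ.QSA

/-! # Ballot words span modulo the finite double shuffle elements -/

set_option autoImplicit false

namespace Pool.Agent.H65.MZ

open List Module

theorem adm_tr' (l : List ℕ) : Har.Adm (tr l) := by
  refine ⟨pos_tr l, ?_⟩
  intro a t h
  cases l with
  | nil => simp [tr] at h
  | cons b l =>
    rw [tr, cons.injEq] at h
    omega

theorem word_inH0' {k : List ℕ} (h : Har.Adm k) : InH0 (word k) := by
  cases k with
  | nil => exact Or.inl rfl
  | cons a k => exact word_inH0 (h.2 a k rfl) k

theorem head_of_adm {a : ℕ} {l : List ℕ} (h : Har.Adm (a :: l)) : 2 ≤ a := h.2 a l rfl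

/-- shuffles of words in `H0` -/
theorem shuffles_inH0 {u v : List Bool} (hu : InH0 u) (hv : InH0 v) :
    ∀ s ∈ shuffles u v, InH0 s := by
  intro s hs
  rcases hu with rfl | ⟨hu1, hu2⟩
  · rw [shuffles_nil, mem_singleton] at hs
    subst hs
    exact hv
  · rcases hv with rfl | ⟨hv1, hv2⟩
    · rw [shuffles_nil', mem_singleton] at hs
      subst hs
      exact Or.inr ⟨hu1, hu2⟩
    · have h1 := shuffles_inH1 u v (Or.inr hu2) (Or.inr hv2) s hs
      refine inH0_of h1 ?_
      cases u with
      | nil => simp at hu1
      | cons a u =>
        cases v with
        | nil => simp at hv1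
        | cons b v =>
          simp at hu1 hv1
          subst hu1 hv1
          rw [shuffles_cons, mem_append, mem_map, mem_map] at hs
          rcases hs with ⟨s', _, rfl⟩ | ⟨s', _, rfl⟩ <;> rfl

theorem phi_total' (φ : W →ₗ[ℚ] ℚ) (L : List (List Bool)) : φ (total L) =
    (L.map fun w => φ (Finsupp.single w 1)).sum := by
  induction L with
  | nil => simp [total_nil]
  | cons w L ih => rw [total_cons, map_add, ih, map_cons, sum_cons]

theorem sum_tr_reverse {l : List ℕ} (h : l ≠ []) :
    (tr l.reverse).sum = l.sum + l.length + 1 := by
  rw [sum_tr (by simpa using h), sum_reverse, length_reverse]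

theorem drop_tr (l : List ℕ) (i : ℕ) (hi : 1 ≤ i) :
    ((tr l).drop i).sum = (l.drop i).sum + (l.length - i) := by
  cases l with
  | nil => simp [tr]
  | cons b l =>
    obtain ⟨j, rfl⟩ := Nat.exists_eq_add_of_le' hi
    rw [tr, drop_succ_cons, drop_succ_cons, ← map_drop, sum_map_add_one, length_drop]
    simp

theorem isBallotF_tr {p : ℕ} {l : List ℕ} (hl : l ≠ []) (hs : l.sum + l.length + 1 = p)
    (h : QS.Bal 2 l) : IsBallotF p (tr l.reverse) := by
  have hlen : 1 ≤ l.length := length_pos_of_ne_nil hl
  refine ⟨pos_tr _, ?_, ?_, ?_, ?_⟩
  · intro a ha
    have := adm_tr' l.reverse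
    cases h' : tr l.reverse with
    | nil => rw [h'] at ha; simp at ha
    | cons b t =>
      rw [h'] at ha this
      simp at ha
      subst ha
      exact head_of_adm this
  · rw [sum_tr_reverse hl, hs]
  · rw [length_tr, length_reverse]
    have := h (l.length - 1) (by omega)
    rw [Nat.sub_add_cancel hlen, take_length] at this
    omega
  · intro i h1 h2
    rw [length_tr, length_reverse] at h2 ⊢
    rw [drop_tr _ i h1, length_reverse, drop_reverse, sum_reverse]
    have := h (l.length - i - 1) (by omega)
    rw [show l.length - i - 1 + 1 = l.length - i by omega] at this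
    omega

/-- the main step -/
theorem phi_zeroF {p : ℕ} (hp : 1 ≤ p) {φ : W →ₗ[ℚ] ℚ} (h1 : ∀ f ∈ FDS p, φ f = 0)
    (h2 : ∀ f ∈ BalSF p, φ f = 0) (n : ℕ) : ∀ w, InH0 w → w.length = p → w.count true = p - n →
    φ (Finsupp.single w 1) = 0 := by
  induction n using Nat.strong_induction_on with
  | _ n ih =>
    intro w hw hl hc
    rcases Nat.lt_or_ge p n with hnp | hnp
    · refine ih p hnp w hw hl ?_
      rw [hc]; omega
    obtain ⟨a, rfl⟩ := adm_tr hw
    rw [count_word, length_tr] at hc
    rw [length_word _ (pos_tr a)] at hl
    have ha : a ≠ [] := by
      rintro rfl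
      simp [tr] at hl
      omega
    have halen : 1 ≤ a.length := length_pos_of_ne_nil ha
    rw [sum_tr ha] at hl
    -- the functional on the lists
    set G : List ℕ → ℚ := fun m => φ (Finsupp.single (word m) 1) with hG
    have hGz : ∀ m : List ℕ, Har.Adm m → m.sum = p → p - n < m.length → G m = 0 := by
      intro m m1 m2 m3
      have hlen : m.length ≤ p := by
        rw [← m2]
        exact List.length_le_sum_of_one_le m m1.1
      exact ih (p - m.length) (by omega) (word m) (word_inH0' m1)
        (by rw [length_word m m1.1, m2]) (by rw [count_word]; omega)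
    set h : List ℕ → ℚ := fun l => G (tr l) with hh
    set g : List ℕ → ℚ := fun l => h l.reverse with hg
    have key : ∀ l : List ℕ, l.length = p - n → l.sum = n - 1 → g l = 0 := by
      refine QS.vanA (p - n) 0 (n - 1) g ?_ ?_
      · intro β hβ c hc1 hcp hclast hcne hsum
        rw [QS.wk_eq]
        refine sum_map_zero _ _ ?_
        intro l' hlc
        cases c with
        | nil => exact absurd rfl hcne
        | cons c cs =>
          obtain ⟨l1, l2⟩ := QS.cz_pos _ c cs rfl (hcp c mem_cons_self)
            (fun x hx => hcp x (mem_cons_of_mem _ hx)) l' hlc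
          have l3 := QS.cz_ne_nil _ c cs rfl l' hlc
          -- the admissible index and the list
          obtain ⟨l, rfl⟩ : ∃ l, l' = l.reverse := ⟨l'.reverse, by simp⟩
          obtain ⟨γ, rfl⟩ : ∃ γ, β = γ.reverse := ⟨β.reverse, by simp⟩
          rw [length_reverse] at hβ
          rw [hg, QS.st_reverse _ γ l h rfl]
          have l3' : l ≠ [] := by simpa using l3
          have l1' : ∀ a ∈ l, 1 ≤ a := fun a ha => l1 a (by simpa using ha)
          have ladm : Har.Adm l := by
            refine ⟨l1', ?_⟩
            intro b t hbt
            subst hbt
            have h5 : b ∈ (b :: t).reverse.getLast? := by simp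
            obtain ⟨y, hy⟩ : ∃ y, y ∈ (c :: cs).getLast? := by
              cases h6 : (c :: cs).getLast? with
              | none => simp at h6
              | some y => exact ⟨y, rfl⟩
            have h7 := QS.cz_last _ c cs rfl _ hlc b h5 y hy
            have h8 := hclast y hy
            omega
          have hγne : γ ≠ [] := by
            rintro rfl
            simp at hβ
            omega
          have hn1 : 1 ≤ n := by omega
          have hls : l.sum + (tr γ).sum = p := by
            rw [sum_tr hγne]
            rw [sum_reverse] at l2 hsum
            simp at hsum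
            omega
          have hlpos : 1 ≤ l.length := length_pos_of_ne_nil l3'
          -- the relation
          have hrel : φ (dsh (word l) (word (tr γ))) = 0 := by
            refine h1 _ (Submodule.subset_span ⟨_, _, word_inH0' ladm, inH0_tr γ, ?_, rfl⟩)
            rw [length_word l l1', length_word _ (pos_tr γ), hls]
          rw [dsh, index_word l l1', index_word _ (pos_tr γ), map_sub, phi_total',
            phi_total', map_map] at hrel
          have hz : ((shuffles (word l) (word (tr γ))).map
              fun w => φ (Finsupp.single w 1)).sum = 0 := by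
            refine sum_map_zero _ _ ?_
            intro s hs
            have s1 := length_shuffles _ _ s hs
            have s2 := count_shuffles _ _ s hs
            have s3 := shuffles_inH0 (word_inH0' ladm) (inH0_tr γ) s hs
            rw [length_word l l1', length_word _ (pos_tr γ), hls] at s1
            rw [count_word, count_word, length_tr, hβ] at s2
            have hle : s.count true ≤ p := by
              rw [← s1]; exact count_le_length
            exact ih (p - s.count true) (by omega) s s3 s1 (by omega)
          rw [hz, zero_sub, neg_eq_zero] at hrel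
          have hst := sum_stuf l (tr γ) G ?_
          · rw [← st_tr, ← hst, ← hrel]
            rfl
          · intro m hm hlm
            refine hGz m ?_ ?_ ?_
            · rw [stuffles_eq] at hm
              exact Har.st_adm _ _ ladm (adm_tr' γ) m hm
            · rw [sum_stuffles _ _ m hm, hls]
            · rw [length_tr, hβ] at hlm
              exact hlm
      · intro l hl1 hl2 hbal
        have hlne : l ≠ [] := by
          rintro rfl
          simp at hl1
          omega
        have hb := isBallotF_tr (p := p) hlne (by omega) hbal
        exact h2 _ (Submodule.subset_span ⟨_, hb, rfl⟩)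
    have hfin := key a.reverse (by rw [length_reverse]; omega) (by rw [sum_reverse]; omega)
    simpa [hg, hh, hG] using hfin

end Pool.Agent.H65.MZ
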