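import Pool.Agent.H65.MZ.BalF
import Pool.Agent.H65.MZ.BalCountF
import Pool.Agent.H65.MZ.Dim

/-! # Ballot words span modulo the double shuffle elements: conclusion -/

set_option autoImplicit false

namespace Pool.Agent.H65.MZ

open List Module

/-- the span of the words of a set of indices -/
noncomputable def spanW (S : Set (List ℕ)) : Submodule ℚ W :=
  Submodule.span ℚ {f | ∃ k, k ∈ S ∧ f = Finsupp.single (word k) 1}

theorem BalS_eq (p : ℕ) : BalS p = spanW {k | IsBallot p k} := rfl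

theorem BalSF_eq (p : ℕ) : BalSF p = spanW {k | IsBallotF p k} := rfl

theorem spanW_le_H0 {p : ℕ} (hp : 1 ≤ p) {S : Set (List ℕ)} (hS : ∀ k ∈ S, (∀ a ∈ k, 1 ≤ a) ∧
    (∀ a ∈ k.head?, 2 ≤ a) ∧ k.sum = p) : spanW S ≤ H0 p := by
  refine Submodule.span_mono ?_
  rintro f ⟨k, hk, rfl⟩
  obtain ⟨h1, h2, h3⟩ := hS k hk
  refine ⟨word k, ?_, by rw [length_word k h1, h3], rfl⟩
  cases k with
  | nil => simp at h3; omega
  | cons a l => exact word_inH0 (h2 a (by simp)) l

theorem H0_eq_of {p : ℕ} {A B : Submodule ℚ W} (hA : A ≤ H0 p) (hB : B ≤ H0 p)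
    (h : ∀ φ : W →ₗ[ℚ] ℚ, (∀ f ∈ A, φ f = 0) → (∀ f ∈ B, φ f = 0) → ∀ n w, InH0 w →
      w.length = p → w.count true = p - n → φ (Finsupp.single w 1) = 0) : H0 p = A ⊔ B := by
  refine le_antisymm ?_ (sup_le hA hB)
  rw [H0, Submodule.span_le]
  rintro f ⟨w, hw, hl, rfl⟩
  by_contra hf
  obtain ⟨φ, hφ, hz⟩ := Submodule.exists_dual_map_eq_bot_of_notMem hf inferInstance
  have hz' : ∀ g ∈ A ⊔ B, φ g = 0 := by
    intro g hg
    have : φ g ∈ (A ⊔ B).map φ := Submodule.mem_map_of_mem hg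
    rw [hz] at this
    simpa using this
  refine hφ (h φ (fun g hg => hz' g (Submodule.mem_sup_left hg))
    (fun g hg => hz' g (Submodule.mem_sup_right hg)) (p - w.count true) w hw hl ?_)
  have : w.count true ≤ p := by rw [← hl]; exact count_le_length
  omega

theorem BalS_le_H0 {p : ℕ} (hp : 1 ≤ p) : BalS p ≤ H0 p := by
  rw [BalS_eq]
  exact spanW_le_H0 hp fun k hk => ⟨hk.1, hk.2.1, hk.2.2.1⟩

theorem BalSF_le_H0 {p : ℕ} (hp : 1 ≤ p) : BalSF p ≤ H0 p := by
  rw [BalSF_eq]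
  exact spanW_le_H0 hp fun k hk => ⟨hk.1, hk.2.1, hk.2.2.1⟩

theorem H0_eq_ballot {p : ℕ} (hp : 1 ≤ p) : H0 p = RDS p ⊔ BalS p :=
  H0_eq_of (RDS_le_H0 p) (BalS_le_H0 hp) fun _ h1 h2 n w h3 h4 h5 =>
    phi_zero hp h1 h2 n w h3 h4 h5

theorem H0_eq_ballotF {p : ℕ} (hp : 1 ≤ p) : H0 p = FDS p ⊔ BalSF p :=
  H0_eq_of (FDS_le_H0 p) (BalSF_le_H0 hp) fun _ h1 h2 n w h3 h4 h5 =>
    phi_zeroF hp h1 h2 n w h3 h4 h5

theorem finrank_spanW {S : Set (List ℕ)} (f : S.Finite) : finrank ℚ (spanW S) ≤ S.ncard := by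
  have e : {g : W | ∃ k, k ∈ S ∧ g = Finsupp.single (word k) 1} =
      (fun k => (Finsupp.single (word k) 1 : W)) '' S := by
    ext g
    constructor
    · rintro ⟨k, hk, rfl⟩
      exact ⟨k, hk, rfl⟩
    · rintro ⟨k, hk, rfl⟩
      exact ⟨k, hk, rfl⟩
  have fi := f.image (fun k => (Finsupp.single (word k) 1 : W))
  rw [spanW, e]
  have := fi.fintype
  calc finrank ℚ (Submodule.span ℚ ((fun k => (Finsupp.single (word k) 1 : W)) '' S)) ≤
        ((fun k => (Finsupp.single (word k) 1 : W)) '' S).toFinset.card := finrank_span_le_card _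
    _ = ((fun k => (Finsupp.single (word k) 1 : W)) '' S).ncard :=
        (Set.ncard_eq_toFinset_card' _).symm
    _ ≤ S.ncard := Set.ncard_image_le f

theorem finrank_of {n c : ℕ} {A : Submodule ℚ W} {S : Set (List ℕ)} (f : S.Finite)
    (hc : S.ncard = c) (h : H0 (n + 2) = A ⊔ spanW S) : 2 ^ n ≤ finrank ℚ A + c := by
  have hfin : Module.Finite ℚ (H0 (n + 2)) := by
    apply FiniteDimensional.of_finrank_pos
    rw [finrank_H0]
    positivity
  have hA : Module.Finite ℚ A := Submodule.finiteDimensional_of_le (S₂ := H0 (n + 2)) (by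
    rw [h]; exact le_sup_left)
  have hB : Module.Finite ℚ (spanW S) := Submodule.finiteDimensional_of_le (S₂ := H0 (n + 2)) (by
    rw [h]; exact le_sup_right)
  rw [← finrank_H0, h, ← hc]
  exact (Submodule.finrank_add_le_finrank_add_finrank _ _).trans
    (Nat.add_le_add_left (finrank_spanW f) _)

theorem finrank_ballot (n : ℕ) : 2 ^ n ≤ finrank ℚ (RDS (n + 2)) + n.choose (n / 2) :=
  finrank_of (BC.ballot_card n).1 (BC.ballot_card n).2 (by
    rw [← BalS_eq]; exact H0_eq_ballot (by omega))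

theorem finrank_ballotF (n : ℕ) :
    2 ^ n ≤ finrank ℚ (FDS (n + 2)) + (n + 1).choose ((n + 1) / 2) :=
  finrank_of (BC.ballotF_card n).1 (BC.ballotF_card n).2 (by
    rw [← BalSF_eq]; exact H0_eq_ballotF (by omega))

theorem IsBallot.depth {p : ℕ} {k : List ℕ} (h : IsBallot p k) : p ≤ 2 * k.length := by
  obtain ⟨_, _, h3, h4⟩ := h
  rcases Nat.eq_zero_or_pos k.length with h0 | h0
  · rw [length_eq_zero_iff] at h0
    subst h0
    simp at h3
    omega
  · have := h4 k.length h0 le_rfl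
    rw [take_length] at this
    omega

end Pool.Agent.H65.MZ
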