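import Pool.Agent.H65.MZ.Red

/-! # The number of the reduced words -/

set_option autoImplicit false

namespace Pool.Agent.H65.MZ

open List Module

/-- the number of words of length `L` accepted from the state `m c e` -/
def cnt (m c : ℕ) (e : Bool) (L : ℕ) : ℕ := ((words L).filter (bad m c e)).length

theorem length_words (L : ℕ) : (words L).length = 2 ^ L := by
  induction L with
  | zero => rfl
  | succ L ih => rw [words, length_append, length_map, length_map, ih, pow_succ]; omega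

theorem cnt_le_pow (m c : ℕ) (e : Bool) (L : ℕ) : cnt m c e L ≤ 2 ^ L := by
  rw [cnt, ← length_words]
  exact length_filter_le _ _

theorem cnt_zero (m c : ℕ) (e : Bool) : cnt m c e 0 = 1 := by
  have h : bad m c e [] = true := by rw [bad]
  rw [cnt, words, filter_cons_of_pos h]
  rfl

theorem cnt_succ (m c : ℕ) (e : Bool) (L : ℕ) : cnt m c e (L + 1) =
    (if c < m then cnt m (c + 1) e L else if e then cnt (m + 1) (m + 1) true L else 0) +
      cnt m 0 (c == 0) L := by
  rw [cnt, words, filter_append, length_append, filter_map, filter_map, length_map, length_map]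
  congr 1
  split_ifs with h1 h2
  · rw [cnt]
    congr 2
    funext l
    simp [bad, h1]
  · rw [cnt]
    congr 2
    funext l
    simp [bad, h1, h2]
  · rw [length_eq_zero_iff, filter_eq_nil_iff]
    intro l _
    simp [bad, h1, h2]

/-- the potential: (in a random continuation) the probability that the first run of length `m + 1`
comes after a block `y_1` -/
noncomputable def H (m c : ℕ) (e : Bool) : ℝ :=
  if c = 0 then (if e then 1 / 2 + 1 / 2 ^ (m + 1) else 1 / 2)
  else (if e then 1 / 2 + 2 ^ c / 2 ^ (m + 2) else 1 / 2 - 2 ^ c / 2 ^ (m + 2))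

theorem H_step (m c : ℕ) (e : Bool) : H m (c + 1) e + H m 0 (c == 0) = 2 * H m c e := by
  have e2 : (2 : ℝ) ^ (m + 2) = 2 * 2 ^ (m + 1) := by ring
  have h1 : (0 : ℝ) < 2 ^ (m + 1) := by positivity
  rcases Nat.eq_zero_or_pos c with rfl | hc
  · cases e
    · simp only [H, e2]
      norm_num
      field_simp
      ring
    · simp only [H, e2]
      norm_num
      field_simp
      ring
  · have hb : (c == 0) = false := by simp; omega
    have hc' : c ≠ 0 := by omega
    cases e
    · simp only [H, hb, hc', e2]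
      norm_num
      field_simp
      ring
    · simp only [H, hb, hc', e2]
      norm_num
      field_simp
      ring

theorem H_top (m : ℕ) (hm : 1 ≤ m) : H m m true = 3 / 4 ∧ H m m false = 1 / 4 := by
  have e2 : (2 : ℝ) ^ (m + 2) = 4 * 2 ^ m := by ring
  have h1 : (0 : ℝ) < 2 ^ m := by positivity
  have hm' : m ≠ 0 := by omega
  constructor
  · simp only [H, hm', e2]
    norm_num
    field_simp
    norm_num
  · simp only [H, hm', e2]
    norm_num
    field_simp
    norm_num

theorem H_zero_false (m : ℕ) : H m 0 false = 1 / 2 := by simp [H]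

theorem cnt_le (n : ℕ) : ∀ (L m c : ℕ) (e : Bool), 1 ≤ m → m < n → c ≤ m →
    (cnt m c e L : ℝ) ≤ (3 / 4) ^ (n - m - 1) * H m c e * 2 ^ L +
      (2 - 2 ^ c / 2 ^ n) * (2 - 1 / 2 ^ (n + 1)) ^ L := by
  intro L
  induction L with
  | zero =>
    intro m c e hm hmn hc
    rw [cnt_zero]
    have h1 : 0 ≤ H m c e := by
      have e2 : (2 : ℝ) ^ (m + 2) = 4 * 2 ^ m := by ring
      have hp : (0 : ℝ) < 2 ^ m := by positivity
      have hcm : (2 : ℝ) ^ c ≤ 2 ^ m := pow_le_pow_right₀ (by norm_num) hc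
      unfold H
      split_ifs
      · positivity
      · norm_num
      · positivity
      · rw [e2, sub_nonneg, div_le_div_iff₀ (by positivity) (by norm_num)]
        nlinarith
    have h2 : (2 : ℝ) ^ c ≤ 2 ^ n := pow_le_pow_right₀ (by norm_num) (by omega)
    have h3 : (2 : ℝ) ^ c / 2 ^ n ≤ 1 := (div_le_one (by positivity)).2 h2
    have h4 : 0 ≤ (3 / 4 : ℝ) ^ (n - m - 1) * H m c e := by positivity
    rw [pow_zero, pow_zero, mul_one, mul_one]
    push_cast
    linarith
  | succ L ih =>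
    intro m c e hm hmn hc
    set T : ℝ := 2 - 1 / 2 ^ (n + 1) with hT
    have hpn : (0 : ℝ) < 2 ^ n := by positivity
    have e1 : (1 : ℝ) / 2 ^ (n + 1) = (1 / 2) * (1 / 2 ^ n) := by rw [pow_succ]; field_simp
    have hn1 : (1 : ℝ) / 2 ^ n ≤ 1 := by
      rw [div_le_one hpn]; exact one_le_pow₀ (by norm_num)
    have hn0 : (0 : ℝ) < 1 / 2 ^ n := by positivity
    have hT0 : 0 ≤ T := by rw [hT, e1]; linarith
    have hTL : 0 ≤ T ^ L := pow_nonneg hT0 L
    have hψ : (2 - (2 : ℝ) ^ (c + 1) / 2 ^ n) + (2 - 2 ^ 0 / 2 ^ n) ≤ (2 - 2 ^ c / 2 ^ n) * T := by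
      have e3 : (2 : ℝ) ^ (c + 1) / 2 ^ n = 2 * (2 ^ c / 2 ^ n) := by rw [pow_succ]; ring
      have h5 : (0 : ℝ) ≤ 2 ^ c / 2 ^ n := by positivity
      rw [e3, hT, e1, pow_zero]
      nlinarith
    have hψ1 : 0 ≤ 2 - (2 : ℝ) ^ (c + 1) / 2 ^ n := by
      have h2 : (2 : ℝ) ^ (c + 1) ≤ 2 ^ n := pow_le_pow_right₀ (by norm_num) (by omega)
      have h3 : (2 : ℝ) ^ (c + 1) / 2 ^ n ≤ 1 := (div_le_one (by positivity)).2 h2
      linarith
    have h0 := ih m 0 (c == 0) hm hmn (Nat.zero_le _)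
    have hstep := H_step m c e
    rw [cnt_succ]
    have hq : 0 ≤ (3 / 4 : ℝ) ^ (n - m - 1) := by positivity
    have h2L : (0 : ℝ) ≤ 2 ^ L := by positivity
    have key : ∀ A : ℝ, (A ≤ (3 / 4) ^ (n - m - 1) * H m (c + 1) e * 2 ^ L +
        (2 - 2 ^ (c + 1) / 2 ^ n) * T ^ L) →
        A + (cnt m 0 (c == 0) L : ℝ) ≤ (3 / 4) ^ (n - m - 1) * H m c e * 2 ^ (L + 1) +
          (2 - 2 ^ c / 2 ^ n) * T ^ (L + 1) := by
      intro A hA
      have h6 : (3 / 4 : ℝ) ^ (n - m - 1) * H m c e * 2 ^ (L + 1) =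
          (3 / 4) ^ (n - m - 1) * H m (c + 1) e * 2 ^ L + (3 / 4) ^ (n - m - 1) * H m 0 (c == 0) * 2 ^ L := by
        have : H m c e = (H m (c + 1) e + H m 0 (c == 0)) / 2 := by linarith
        rw [this, pow_succ]; ring
      have h7 : (2 - (2 : ℝ) ^ (c + 1) / 2 ^ n) * T ^ L + (2 - 2 ^ 0 / 2 ^ n) * T ^ L ≤
          (2 - 2 ^ c / 2 ^ n) * T ^ (L + 1) := by
        have := mul_le_mul_of_nonneg_right hψ hTL
        rw [pow_succ T L]
        linarith
      rw [h6]
      linarith
    split_ifs with hcm he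
    · push_cast
      exact key _ (ih m (c + 1) e hm hmn (by omega))
    · have hcm' : c = m := by omega
      subst hcm'
      subst he
      push_cast
      apply key
      have htop : H c (c + 1) true = 1 := by
        have e2 : (2 : ℝ) ^ (c + 2) = 2 * 2 ^ (c + 1) := by ring
        have h1 : (0 : ℝ) < 2 ^ (c + 1) := by positivity
        simp only [H, e2]
        norm_num
        field_simp
        norm_num
      rw [htop, mul_one]
      rcases Nat.lt_or_ge (c + 1) n with hlt | hge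
      · refine (ih (c + 1) (c + 1) true (by omega) hlt le_rfl).trans (le_of_eq ?_)
        rw [(H_top (c + 1) (by omega)).1]
        have : n - c - 1 = (n - (c + 1) - 1) + 1 := by omega
        rw [this, pow_succ (3 / 4 : ℝ) (n - (c + 1) - 1)]
      · have hn : n = c + 1 := by omega
        have h8 : (cnt (c + 1) (c + 1) true L : ℝ) ≤ 2 ^ L := by exact_mod_cast cnt_le_pow _ _ _ _
        have h9 : n - c - 1 = 0 := by omega
        rw [h9, pow_zero, one_mul]
        have := mul_nonneg hψ1 hTL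
        linarith
    · have hcm' : c = m := by omega
      subst hcm'
      have he' : e = false := by simpa using he
      subst he'
      push_cast
      apply key
      have htop : H c (c + 1) false = 0 := by
        have e2 : (2 : ℝ) ^ (c + 2) = 2 * 2 ^ (c + 1) := by ring
        have h1 : (0 : ℝ) < 2 ^ (c + 1) := by positivity
        simp only [H, e2]
        norm_num
        field_simp
        norm_num
      rw [htop]
      have := mul_nonneg hψ1 hTL
      linarith

theorem reduced_le {n : ℕ} (hn : 3 ≤ n) (q : ℕ) : ((reduced q).length : ℝ) ≤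
    2 * (3 / 4) ^ (n - 2) * 2 ^ q + 4 * (2 - 1 / 2 ^ (n + 1)) ^ q := by
  have hr : (reduced q).length = cnt 1 0 true q + cnt 2 2 true q := by
    rw [reduced, length_append, length_map, length_map]; rfl
  have h1 := cnt_le n q 1 0 true le_rfl (by omega) (by omega)
  have h2 := cnt_le n q 2 2 true (by omega) (by omega) le_rfl
  have hH1 : H 1 0 true = 3 / 4 := by norm_num [H]
  have hpn : (0 : ℝ) < 2 ^ n := by positivity
  have e1 : (1 : ℝ) / 2 ^ (n + 1) = (1 / 2) * (1 / 2 ^ n) := by rw [pow_succ]; field_simp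
  have hn1 : (1 : ℝ) / 2 ^ n ≤ 1 := by
    rw [div_le_one hpn]; exact one_le_pow₀ (by norm_num)
  have hT0 : (0 : ℝ) ≤ 2 - 1 / 2 ^ (n + 1) := by rw [e1]; linarith
  have hTL : 0 ≤ (2 - 1 / 2 ^ (n + 1) : ℝ) ^ q := pow_nonneg hT0 q
  rw [(H_top 2 (by omega)).1] at h2
  rw [hH1] at h1
  have e3 : (3 / 4 : ℝ) ^ (n - 2 - 1) * (3 / 4) = (3 / 4) ^ (n - 2) := by
    rw [← pow_succ]; congr 1; omega
  have e4 : (3 / 4 : ℝ) ^ (n - 1 - 1) * (3 / 4) ≤ (3 / 4) ^ (n - 2) := by
    have : n - 1 - 1 = n - 2 := by omega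
    rw [this]
    have : 0 ≤ (3 / 4 : ℝ) ^ (n - 2) := by positivity
    linarith
  rw [e3] at h2
  have h2q : (0 : ℝ) ≤ 2 ^ q := by positivity
  have h5 : (0 : ℝ) ≤ 2 ^ 0 / 2 ^ n := by positivity
  have h6 : (0 : ℝ) ≤ 2 ^ 2 / 2 ^ n := by positivity
  have h7 := mul_le_mul_of_nonneg_right e4 h2q
  have h8 : (2 - (2 : ℝ) ^ 0 / 2 ^ n) * (2 - 1 / 2 ^ (n + 1)) ^ q ≤ 2 * (2 - 1 / 2 ^ (n + 1)) ^ q :=
    mul_le_mul_of_nonneg_right (by linarith) hTL
  have h9 : (2 - (2 : ℝ) ^ 2 / 2 ^ n) * (2 - 1 / 2 ^ (n + 1)) ^ q ≤ 2 * (2 - 1 / 2 ^ (n + 1)) ^ q :=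
    mul_le_mul_of_nonneg_right (by linarith) hTL
  rw [hr]
  push_cast
  linarith

end Pool.Agent.H65.MZ
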