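import Mathlib

/-! # Multiple zeta values and double shuffle elements: definitions -/

set_option autoImplicit false

namespace Pool.Agent.H65.MZ

open Module

/-- `trunc [s_1, ..., s_r] m` is the sum of `∏ k_i ^ (-s_i)` over `m > k_1 > ... > k_r ≥ 1` -/
noncomputable def trunc : List ℕ → ℕ → ℝ
  | [], _ => 1
  | s :: l, m => ∑ j ∈ Finset.Ico 1 m, trunc l j / (j : ℝ) ^ s

/-- the multiple zeta value `ζ(s_1, ..., s_r)`, `s_1` belongs to the largest variable -/
noncomputable def mzv : List ℕ → ℝ
  | [] => 1
  | s :: l => ∑' k : ℕ, trunc l (k + 1) / ((k + 1 : ℕ) : ℝ) ^ s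

/-- the word `y_{k_1} ... y_{k_t}`, where `y_k = x ^ (k - 1) y`, `x = false`, `y = true` -/
def word : List ℕ → List Bool
  | [] => []
  | k :: l => List.replicate (k - 1) false ++ true :: word l

/-- `index 0 w` is the list of the `k_i` for the word `w = y_{k_1} ... y_{k_t}` -/
def index : ℕ → List Bool → List ℕ
  | _, [] => []
  | c, true :: u => (c + 1) :: index 0 u
  | c, false :: u => index (c + 1) u

/-- the list of the shuffles of two words (with multiplicities): the terms of the shuffle product -/
def shuffles : List Bool → List Bool → List (List Bool)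
  | [], v => [v]
  | a :: u, [] => [a :: u]
  | a :: u, b :: v => (shuffles u (b :: v)).map (a :: ·) ++ (shuffles (a :: u) v).map (b :: ·)
termination_by u v => u.length + v.length

/-- the list of the indices in the stuffle product of two indices (with multiplicities) -/
def stuffles : List ℕ → List ℕ → List (List ℕ)
  | [], l => [l]
  | i :: k, [] => [i :: k]
  | i :: k, j :: l => (stuffles k (j :: l)).map (i :: ·) ++ (stuffles (i :: k) l).map (j :: ·) ++
      (stuffles k l).map ((i + j) :: ·)
termination_by k l => k.length + l.length

/-- rational combinations of words -/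
abbrev W : Type := List Bool →₀ ℚ

/-- the sum of a list of words -/
noncomputable def total (L : List (List Bool)) : W := (L.map fun w => Finsupp.single w 1).sum

/-- the `ℚ`-linear map `Z` with `Z (y_{k_1} ... y_{k_t}) = ζ(k_1, ..., k_t)` -/
noncomputable def Z : W →ₗ[ℚ] ℝ := Finsupp.linearCombination ℚ fun w => mzv (index 0 w)

/-- words which are empty or end in `y` -/
def InH1 (w : List Bool) : Prop := w = [] ∨ w.getLast? = some true

/-- words which are empty or start with `x` and end in `y` -/
def InH0 (w : List Bool) : Prop := w = [] ∨ (w.head? = some false ∧ w.getLast? = some true)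

/-- the part of weight `p` of `ℚ + x ℚ⟨x, y⟩ y` -/
noncomputable def H0 (p : ℕ) : Submodule ℚ W :=
  Submodule.span ℚ {f | ∃ w, InH0 w ∧ w.length = p ∧ f = Finsupp.single w 1}

/-- the regularization of a word: `reg (y ^ n x u) = (-1) ^ n x (y ^ n ш u)`, `reg 1 = 1`,
`reg (y ^ n) = 0` for `n ≥ 1` -/
noncomputable def regWord (w : List Bool) : W :=
  match w.dropWhile id with
  | [] => if w = [] then Finsupp.single [] 1 else 0
  | _ :: u => ((-1 : ℚ) ^ (w.takeWhile id).length) •
      total ((shuffles (w.takeWhile id) u).map (false :: ·))

/-- the regularization -/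
noncomputable def reg : W →ₗ[ℚ] W := Finsupp.linearCombination ℚ regWord

/-- the difference `u ш v - u * v` of the shuffle product and the stuffle product -/
noncomputable def dsh (u v : List Bool) : W :=
  total (shuffles u v) - total ((stuffles (index 0 u) (index 0 v)).map word)

/-- the span of the regularized double shuffle elements of weight `p` -/
noncomputable def RDS (p : ℕ) : Submodule ℚ W :=
  Submodule.span ℚ {f | ∃ u v, InH1 u ∧ InH0 v ∧ u.length + v.length = p ∧ f = reg (dsh u v)}

/-- the span of the finite double shuffle elements `u ш v - u * v` of weight `p`: both words `u`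
and `v` are admissible (in `x ℚ⟨x, y⟩ y`), there is no regularization -/
noncomputable def FDS (p : ℕ) : Submodule ℚ W :=
  Submodule.span ℚ {f | ∃ u v, InH0 u ∧ InH0 v ∧ u.length + v.length = p ∧ f = dsh u v}

/-- the relations of weight `p` between multiple zeta values -/
noncomputable def Relations (p : ℕ) : Submodule ℚ W := H0 p ⊓ LinearMap.ker Z

end Pool.Agent.H65.MZ
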