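import Pool.Agent.H65.MZ.Defs

/-! # The leading words of double shuffle elements -/

set_option autoImplicit false

namespace Pool.Agent.H65.MZ

open List

theorem shuffles_nil (v : List Bool) : shuffles [] v = [v] := by rw [shuffles]

theorem shuffles_nil' (u : List Bool) : shuffles u [] = [u] := by
  cases u <;> rw [shuffles]

theorem shuffles_cons (a b : Bool) (u v : List Bool) : shuffles (a :: u) (b :: v) =
    (shuffles u (b :: v)).map (a :: ·) ++ (shuffles (a :: u) v).map (b :: ·) := by rw [shuffles]

theorem mem_shuffles_cons {a b : Bool} {u v s : List Bool} :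
    s ∈ shuffles (a :: u) (b :: v) ↔ (∃ s' ∈ shuffles u (b :: v), s = a :: s') ∨
      ∃ s' ∈ shuffles (a :: u) v, s = b :: s' := by
  rw [shuffles_cons, mem_append, mem_map, mem_map]
  constructor
  · rintro (⟨s', h, rfl⟩ | ⟨s', h, rfl⟩)
    · exact Or.inl ⟨s', h, rfl⟩
    · exact Or.inr ⟨s', h, rfl⟩
  · rintro (⟨s', h, rfl⟩ | ⟨s', h, rfl⟩)
    · exact Or.inl ⟨s', h, rfl⟩
    · exact Or.inr ⟨s', h, rfl⟩

theorem length_shuffles (u v : List Bool) : ∀ s ∈ shuffles u v, s.length = u.length + v.length := by
  induction u, v using shuffles.induct with
  | case1 v => intro s hs; rw [shuffles_nil, mem_singleton] at hs; subst hs; simp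
  | case2 a u => intro s hs; rw [shuffles_nil', mem_singleton] at hs; subst hs; simp
  | case3 a u b v ih1 ih2 =>
    intro s hs
    rcases mem_shuffles_cons.1 hs with ⟨s', h, rfl⟩ | ⟨s', h, rfl⟩
    · have := ih1 s' h
      simp only [length_cons] at this ⊢
      omega
    · have := ih2 s' h
      simp only [length_cons] at this ⊢
      omega

theorem count_shuffles (u v : List Bool) :
    ∀ s ∈ shuffles u v, s.count true = u.count true + v.count true := by
  induction u, v using shuffles.induct with
  | case1 v => intro s hs; rw [shuffles_nil, mem_singleton] at hs; subst hs; simp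
  | case2 a u => intro s hs; rw [shuffles_nil', mem_singleton] at hs; subst hs; simp
  | case3 a u b v ih1 ih2 =>
    intro s hs
    rcases mem_shuffles_cons.1 hs with ⟨s', h, rfl⟩ | ⟨s', h, rfl⟩
    · have := ih1 s' h
      simp only [count_cons] at this ⊢
      omega
    · have := ih2 s' h
      simp only [count_cons] at this ⊢
      omega

/-- the binary value of a word -/
def val : List Bool → ℕ
  | [] => 0
  | true :: l => 2 ^ l.length + val l
  | false :: l => val l

theorem val_lt (l : List Bool) : val l < 2 ^ l.length := by
  induction l with
  | nil => simp [val]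
  | cons a l ih =>
    cases a
    · rw [val, length_cons, pow_succ]; omega
    · rw [val, length_cons, pow_succ]; omega

theorem val_inj : ∀ {s t : List Bool}, s.length = t.length → val s = val t → s = t
  | [], [], _, _ => rfl
  | [], _ :: _, h, _ => by simp at h
  | _ :: _, [], h, _ => by simp at h
  | a :: s, b :: t, h, hv => by
    have hl : s.length = t.length := by simpa using h
    have h1 := val_lt s
    have h2 := val_lt t
    rw [hl] at h1
    cases a <;> cases b
    · rw [val, val] at hv
      rw [val_inj hl hv]
    · rw [val, val] at hv; omega
    · rw [val, val, hl] at hv; omega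
    · rw [val, val, hl] at hv
      rw [val_inj hl (by omega)]

theorem val_rep (n : ℕ) (l : List Bool) : val (replicate n false ++ l) = val l := by
  induction n with
  | zero => simp
  | succ n ih => rw [replicate_succ, cons_append, val, ih]

/-- if `s` starts with more letters `x` than `w`, then `s < w` -/
theorem val_lt_of_rep (t : ℕ) (s' w' : List Bool) (h : s'.length = w'.length) :
    val (replicate (t + 1) false ++ s') < val (replicate t false ++ true :: w') := by
  rw [val_rep, val_rep, val, ← h]
  have := val_lt s'
  omega

theorem val_false_lt_true {s w : List Bool} (h : s.length = w.length) :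
    val (false :: s) < val (true :: w) := val_lt_of_rep 0 s w h

theorem val_cons_lt (a : Bool) {s t : List Bool} (h : s.length = t.length) (hv : val s < val t) :
    val (a :: s) < val (a :: t) := by
  cases a
  · rw [val, val]; exact hv
  · rw [val, val, h]; omega

theorem val_cons_le (a : Bool) {s t : List Bool} (h : s.length = t.length) (hv : val s ≤ val t) :
    val (a :: s) ≤ val (a :: t) := by
  cases a
  · rw [val, val]; exact hv
  · rw [val, val, h]; omega

/-- common initial letters `x` -/
theorem lead_x (t : ℕ) : ∀ (u v s : List Bool),
    s ∈ shuffles (replicate t false ++ u) (replicate t false ++ v) →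
      ∃ s', s = replicate t false ++ s' := by
  suffices h : ∀ (t : ℕ) (u v s : List Bool), (∃ u', u = replicate t false ++ u') →
      (∃ v', v = replicate t false ++ v') → s ∈ shuffles u v → ∃ s', s = replicate t false ++ s' by
    exact fun u v s hs => h t _ _ s ⟨u, rfl⟩ ⟨v, rfl⟩ hs
  intro t
  induction t with
  | zero => intro u v s _ _ _; exact ⟨s, by simp⟩
  | succ t ih =>
    rintro u v s ⟨u', rfl⟩ ⟨v', rfl⟩ hs
    rw [replicate_succ, cons_append, cons_append] at hs
    rcases mem_shuffles_cons.1 hs with ⟨s', h, rfl⟩ | ⟨s', h, rfl⟩
    · obtain ⟨s'', rfl⟩ := ih _ _ s' ⟨u', rfl⟩ ⟨false :: v', by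
        rw [← cons_append, ← replicate_succ, replicate_succ', append_assoc]; rfl⟩ h
      exact ⟨s'', by rw [replicate_succ, cons_append]⟩
    · obtain ⟨s'', rfl⟩ := ih _ _ s' ⟨false :: u', by
        rw [← cons_append, ← replicate_succ, replicate_succ', append_assoc]; rfl⟩ ⟨v', rfl⟩ h
      exact ⟨s'', by rw [replicate_succ, cons_append]⟩

theorem lead_x' {t m : ℕ} (h : t ≤ m) {u v s : List Bool}
    (hs : s ∈ shuffles (replicate t false ++ u) (replicate m false ++ v)) :
    ∃ s', s = replicate t false ++ s' := by
  obtain ⟨k, rfl⟩ := Nat.exists_eq_add_of_le h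
  rw [replicate_add, append_assoc] at hs
  exact lead_x t _ _ s hs

theorem rep_cons (n : ℕ) (hn : 1 ≤ n) (l : List Bool) :
    replicate n false ++ l = false :: (replicate (n - 1) false ++ l) := by
  obtain ⟨m, rfl⟩ := Nat.exists_eq_add_of_le' hn
  rw [replicate_succ, cons_append, Nat.add_sub_cancel]

/-- one block -/
theorem blockA {M : ℕ} (u' v0 : List Bool)
    (ih : ∀ s ∈ shuffles u' (replicate M false ++ v0), s = u' ++ (replicate M false ++ v0) ∨
      val s < val (u' ++ (replicate M false ++ v0))) :
    ∀ t < M, ∀ s ∈ shuffles (replicate t false ++ true :: u') (replicate M false ++ v0),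
      s = replicate t false ++ true :: u' ++ (replicate M false ++ v0) ∨
      val s < val (replicate t false ++ true :: u' ++ (replicate M false ++ v0)) := by
  intro t
  induction t with
  | zero =>
    intro ht s hs
    rw [rep_cons M (by omega)] at hs ⊢
    rw [rep_cons M (by omega)] at ih
    rw [replicate_zero, nil_append] at hs ⊢
    rcases mem_shuffles_cons.1 hs with ⟨s', h, rfl⟩ | ⟨s', h, rfl⟩
    · rcases ih s' h with rfl | h'
      · exact Or.inl rfl
      · right
        exact val_cons_lt true (by simp [length_shuffles _ _ s' h]) h'
    · right
      have := length_shuffles _ _ s' h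
      apply val_false_lt_true
      rw [this]
      simp only [length_cons, length_append, length_replicate, append_eq]
      omega
  | succ t iht =>
    intro ht s hs
    have hM : 1 ≤ M := by omega
    rw [rep_cons M hM, rep_cons (t + 1) (by omega), Nat.add_sub_cancel] at hs
    rcases mem_shuffles_cons.1 hs with ⟨s', h, rfl⟩ | ⟨s', h, rfl⟩
    · rw [← rep_cons M hM] at h
      rw [rep_cons (t + 1) (by omega), Nat.add_sub_cancel, cons_append]
      rcases iht (by omega) s' h with rfl | h'
      · exact Or.inl rfl
      · right
        exact val_cons_lt false (by simp [length_shuffles _ _ s' h]; omega) h'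
    · right
      rw [← cons_append, ← replicate_succ] at h
      have hl := length_shuffles _ _ s' h
      obtain ⟨s'', rfl⟩ := lead_x' (by omega : t + 1 ≤ M - 1) h
      rw [← cons_append, ← replicate_succ, append_assoc, cons_append]
      apply val_lt_of_rep
      simp only [length_cons, length_append, length_replicate] at hl ⊢
      omega

/-- `u v` is the greatest shuffle of `u` and `v`, if `v` starts with a longer run of letters `x`
than all the runs of `u` -/
theorem claimA {M : ℕ} (hM : 1 ≤ M) (v0 : List Bool) : ∀ K : List ℕ, (∀ k ∈ K, k ≤ M) →
    ∀ s ∈ shuffles (word K) (replicate M false ++ v0), s = word K ++ (replicate M false ++ v0) ∨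
      val s < val (word K ++ (replicate M false ++ v0)) := by
  intro K
  induction K with
  | nil =>
    intro _ s hs
    rw [word, shuffles_nil, mem_singleton] at hs
    exact Or.inl (by rw [hs, word, nil_append])
  | cons k K ih =>
    intro hK
    have hk : k ≤ M := hK k (by simp)
    exact blockA (word K) v0 (ih fun j hj => hK j (by simp [hj])) (k - 1) (by omega)

theorem count_map_cons (a : Bool) (l : List Bool) (L : List (List Bool)) :
    (L.map (a :: ·)).count (a :: l) = L.count l :=
  count_map_of_injective _ _ (fun _ _ h => by simpa using h) _

theorem count_map_cons_ne {a b : Bool} (h : a ≠ b) (l : List Bool) (L : List (List Bool)) :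
    (L.map (b :: ·)).count (a :: l) = 0 := by
  rw [count_eq_zero, mem_map]
  rintro ⟨s, _, hs⟩
  simp at hs
  exact h hs.1.symm

theorem blockC {M : ℕ} (u' v0 : List Bool)
    (ih : (shuffles u' (replicate M false ++ v0)).count (u' ++ (replicate M false ++ v0)) = 1) :
    ∀ t < M, (shuffles (replicate t false ++ true :: u') (replicate M false ++ v0)).count
      (replicate t false ++ true :: u' ++ (replicate M false ++ v0)) = 1 := by
  intro t
  induction t with
  | zero =>
    intro ht
    rw [rep_cons M (by omega)]
    rw [rep_cons M (by omega)] at ih
    rw [replicate_zero, nil_append, shuffles_cons, count_append, cons_append, count_map_cons,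
      count_map_cons_ne (by simp), ih]
  | succ t iht =>
    intro ht
    have hM : 1 ≤ M := by omega
    rw [rep_cons M hM, rep_cons (t + 1) (by omega), Nat.add_sub_cancel, shuffles_cons, count_append,
      cons_append, count_map_cons, ← rep_cons M hM, iht (by omega), add_eq_left, count_eq_zero,
      mem_map]
    rintro ⟨s', h, hs⟩
    have hs' : s' = replicate t false ++ true :: u' ++ (replicate M false ++ v0) := by simpa using hs
    rw [← cons_append, ← replicate_succ] at h
    obtain ⟨s'', rfl⟩ := lead_x' (by omega : t + 1 ≤ M - 1) h
    rw [replicate_succ', append_assoc, append_assoc] at hs'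
    have := append_cancel_left hs'
    simp at this

theorem countA {M : ℕ} (hM : 1 ≤ M) (v0 : List Bool) : ∀ K : List ℕ, (∀ k ∈ K, k ≤ M) →
    (shuffles (word K) (replicate M false ++ v0)).count (word K ++ (replicate M false ++ v0)) = 1 := by
  intro K
  induction K with
  | nil =>
    intro _
    rw [word, shuffles_nil, nil_append, count_singleton_self]
  | cons k K ih =>
    intro hK
    have hk : k ≤ M := hK k (by simp)
    exact blockC (word K) v0 (ih fun j hj => hK j (by simp [hj])) (k - 1) (by omega)

theorem word_one (a : ℕ) : word [a] = replicate (a - 1) false ++ [true] := rfl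

theorem word_cons (k : ℕ) (l : List ℕ) :
    word (k :: l) = replicate (k - 1) false ++ true :: word l := rfl

theorem word_append (k l : List ℕ) : word (k ++ l) = word k ++ word l := by
  induction k with
  | nil => rfl
  | cons a k ih => rw [cons_append, word_cons, word_cons, ih, append_assoc, cons_append]

/-- the second greatest shuffle: one block -/
theorem blockB0 {M : ℕ} (v0 : List Bool) : ∀ t, t + 1 < M →
    ∀ s ∈ shuffles (replicate t false ++ [true]) (replicate M false ++ v0),
      s = replicate t false ++ [true] ++ (replicate M false ++ v0) ∨
      val s ≤ val (replicate (t + 1) false ++ true :: (replicate (M - 1) false ++ v0)) := by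
  intro t
  induction t with
  | zero =>
    intro ht s hs
    have hM : 1 ≤ M := by omega
    rw [rep_cons M hM] at hs ⊢
    rw [replicate_zero, nil_append] at hs ⊢
    rcases mem_shuffles_cons.1 hs with ⟨s', h, rfl⟩ | ⟨s', h, rfl⟩
    · rw [shuffles_nil, mem_singleton] at h
      left
      rw [h]
      rfl
    · right
      rw [zero_add, replicate_one, singleton_append, val, val]
      rcases claimA (by omega : 1 ≤ M - 1) v0 [1] (by simp; omega) s' h with rfl | h'
      · exact le_rfl
      · exact h'.le
  | succ t iht =>
    intro ht s hs
    have hM : 1 ≤ M := by omega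
    rw [rep_cons M hM, rep_cons (t + 1) (by omega), Nat.add_sub_cancel] at hs
    rcases mem_shuffles_cons.1 hs with ⟨s', h, rfl⟩ | ⟨s', h, rfl⟩
    · rw [← rep_cons M hM] at h
      rw [rep_cons (t + 1) (by omega), Nat.add_sub_cancel, cons_append]
      rcases iht (by omega) s' h with rfl | h'
      · exact Or.inl rfl
      · right
        rw [replicate_succ, cons_append, val, val]
        exact h'
    · right
      rw [← cons_append, ← replicate_succ] at h
      rw [replicate_succ, cons_append, val, val]
      rcases claimA (by omega : 1 ≤ M - 1) v0 [t + 2] (by simp; omega) s' h with rfl | h'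
      · rw [word_one, append_assoc]
        exact le_rfl
      · rw [word_one, append_assoc] at h'
        exact h'.le

/-- the second greatest shuffle: one block more -/
theorem blockB {M : ℕ} (u' v0 w' : List Bool) (hw : w'.length = u'.length + M + v0.length)
    (ih : ∀ s ∈ shuffles u' (replicate M false ++ v0), s = u' ++ (replicate M false ++ v0) ∨
      val s ≤ val w') :
    ∀ t < M, ∀ s ∈ shuffles (replicate t false ++ true :: u') (replicate M false ++ v0),
      s = replicate t false ++ true :: u' ++ (replicate M false ++ v0) ∨
      val s ≤ val (replicate t false ++ true :: w') := by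
  intro t
  induction t with
  | zero =>
    intro ht s hs
    rw [rep_cons M (by omega)] at hs ⊢
    rw [rep_cons M (by omega)] at ih
    rw [replicate_zero, nil_append] at hs ⊢
    rcases mem_shuffles_cons.1 hs with ⟨s', h, rfl⟩ | ⟨s', h, rfl⟩
    · rcases ih s' h with rfl | h'
      · exact Or.inl rfl
      · right
        refine val_cons_le true ?_ h'
        rw [length_shuffles _ _ s' h, hw]
        simp
        omega
    · right
      have := length_shuffles _ _ s' h
      refine (val_false_lt_true ?_).le
      rw [this, hw]
      simp only [length_cons, length_append, length_replicate, append_eq]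
      omega
  | succ t iht =>
    intro ht s hs
    have hM : 1 ≤ M := by omega
    rw [rep_cons M hM, rep_cons (t + 1) (by omega), Nat.add_sub_cancel] at hs
    rcases mem_shuffles_cons.1 hs with ⟨s', h, rfl⟩ | ⟨s', h, rfl⟩
    · rw [← rep_cons M hM] at h
      rw [rep_cons (t + 1) (by omega), Nat.add_sub_cancel, cons_append]
      rcases iht (by omega) s' h with rfl | h'
      · exact Or.inl rfl
      · right
        rw [replicate_succ, cons_append, val, val]
        exact h'
    · right
      rw [← cons_append, ← replicate_succ] at h
      have hl := length_shuffles _ _ s' h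
      obtain ⟨s'', rfl⟩ := lead_x' (by omega : t + 1 ≤ M - 1) h
      rw [← cons_append, ← replicate_succ]
      refine (val_lt_of_rep _ _ _ ?_).le
      rw [hw]
      simp only [length_cons, length_append, length_replicate] at hl ⊢
      omega

theorem length_word_append (K : List ℕ) (a : ℕ) (ha : 1 ≤ a) :
    (word (K ++ [a + 1])).length = (word (K ++ [a])).length + 1 := by
  rw [word_append, word_append, word_one, word_one]
  simp
  omega

/-- **the second greatest shuffle** -/
theorem claimB {M a : ℕ} (ha : 1 ≤ a) (haM : a < M) (v0 : List Bool) : ∀ K : List ℕ,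
    (∀ k ∈ K, k ≤ M) → ∀ s ∈ shuffles (word (K ++ [a])) (replicate M false ++ v0),
      s = word (K ++ [a]) ++ (replicate M false ++ v0) ∨
      val s ≤ val (word (K ++ [a + 1]) ++ (replicate (M - 1) false ++ v0)) := by
  intro K
  induction K with
  | nil =>
    intro _ s hs
    rw [nil_append, word_one] at hs ⊢
    rw [nil_append, word_one, Nat.add_sub_cancel, append_assoc (replicate a false)]
    have h := blockB0 v0 (a - 1) (by omega) s hs
    rw [Nat.sub_add_cancel ha] at h
    exact h
  | cons k K ih =>
    intro hK
    have hk : k ≤ M := hK k (by simp)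
    rw [cons_append, cons_append, word_cons, word_cons]
    have h := blockB (word (K ++ [a])) v0 (word (K ++ [a + 1]) ++ (replicate (M - 1) false ++ v0))
      (by
        rw [length_append, length_word_append K a ha]
        simp
        omega) (ih fun j hj => hK j (by simp [hj])) (k - 1) (by omega)
    rw [append_assoc (replicate (k - 1) false), cons_append] at h ⊢
    rw [append_assoc (replicate (k - 1) false), cons_append]
    exact h

end Pool.Agent.H65.MZ
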