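import Mathlib

/-! # The stuffle products with `1, ..., 1` on lists, and lowering operators

A list `[a_1, ..., a_r]` of natural numbers stands for the composition `(a_1 + 1, ..., a_r + 1)`. -/

set_option autoImplicit false

namespace Pool.Agent.H65.MZ.QR

open Module

/-- rational combinations of lists -/
abbrev Q : Type := List ℕ →₀ ℚ

/-- put `a` in front of all lists -/
noncomputable def cn (a : ℕ) : Q →ₗ[ℚ] Q := Finsupp.lmapDomain ℚ ℚ (a :: ·)

theorem cn_single (a : ℕ) (l : List ℕ) (c : ℚ) :
    cn a (Finsupp.single l c) = Finsupp.single (a :: l) c := by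
  simp [cn, Finsupp.lmapDomain_apply, Finsupp.mapDomain_single]

/-- the stuffle product of `(1, ..., 1)` (`m` entries) and of a composition -/
noncomputable def E : ℕ → List ℕ → Q
  | 0, l => Finsupp.single l 1
  | m + 1, [] => cn 0 (E m [])
  | m + 1, a :: l => cn 0 (E m (a :: l)) + cn a (E (m + 1) l) + cn (a + 1) (E m l)
termination_by m l => m + l.length

/-- the linear extension of `E m` -/
noncomputable def El (m : ℕ) : Module.End ℚ Q := Finsupp.linearCombination ℚ (E m)

/-- `L n` removes the first entry of the composition if it is equal to `n ≥ 1`; `L 0 = 1` -/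
noncomputable def L : ℕ → Module.End ℚ Q
  | 0 => 1
  | n + 1 => Finsupp.linearCombination ℚ fun l => match l with
    | [] => 0
    | a :: t => if a = n then Finsupp.single t 1 else 0

theorem hext {f g : Module.End ℚ Q} (h : ∀ l, f (Finsupp.single l 1) = g (Finsupp.single l 1)) :
    f = g := by
  refine Finsupp.lhom_ext fun l c => ?_
  have : (Finsupp.single l c : Q) = c • Finsupp.single l 1 := by
    rw [Finsupp.smul_single, smul_eq_mul, mul_one]
  rw [this, map_smul, map_smul, h]

theorem El_single (m : ℕ) (l : List ℕ) : El m (Finsupp.single l 1) = E m l := by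
  rw [El, Finsupp.linearCombination_single, one_smul]

theorem E_zero (l : List ℕ) : E 0 l = Finsupp.single l 1 := by rw [E]

theorem E_nil (m : ℕ) : E (m + 1) [] = cn 0 (E m []) := by rw [E]

theorem E_cons (m a : ℕ) (l : List ℕ) : E (m + 1) (a :: l) =
    cn 0 (E m (a :: l)) + cn a (E (m + 1) l) + cn (a + 1) (E m l) := by rw [E]

theorem El_zero : El 0 = 1 := by
  refine hext fun l => ?_
  rw [El_single, E_zero]; rfl

theorem L_zero : L 0 = 1 := rfl

theorem L_nil (n : ℕ) : L (n + 1) (Finsupp.single [] 1) = 0 := by
  rw [L, Finsupp.linearCombination_single, smul_zero]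

theorem L_cons (n a : ℕ) (l : List ℕ) : L (n + 1) (Finsupp.single (a :: l) 1) =
    if a = n then Finsupp.single l 1 else 0 := by
  rw [L, Finsupp.linearCombination_single, one_smul]

theorem L_cn (n a : ℕ) (f : Q) : L (n + 1) (cn a f) = if a = n then f else 0 := by
  induction f using Finsupp.induction_linear with
  | zero => simp
  | add f g hf hg => rw [map_add, map_add, hf, hg]; split_ifs <;> simp
  | single l c =>
    have : (Finsupp.single l c : Q) = c • Finsupp.single l 1 := by
      rw [Finsupp.smul_single, smul_eq_mul, mul_one]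
    rw [this, map_smul, map_smul, cn_single, L_cons]
    split_ifs <;> simp

theorem L_apply (n : ℕ) (f : Q) (l : List ℕ) : L (n + 1) f l = f (n :: l) := by
  induction f using Finsupp.induction_linear with
  | zero => simp
  | add f g hf hg => rw [map_add, Finsupp.add_apply, hf, hg, Finsupp.add_apply]
  | single t c =>
    have : (Finsupp.single t c : Q) = c • Finsupp.single t 1 := by
      rw [Finsupp.smul_single, smul_eq_mul, mul_one]
    rw [this, map_smul, Finsupp.smul_apply, Finsupp.smul_apply]
    congr 1
    rcases t with _ | ⟨a, t⟩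
    · rw [L_nil]; simp
    · rw [L_cons]
      split_ifs with h
      · subst h
        simp only [Finsupp.single_apply, List.cons.injEq, true_and]
      · rw [Finsupp.single_apply, if_neg]
        · rfl
        · simp [h]

theorem zero_of {f : Q} (h0 : f [] = 0) (h : ∀ n, L (n + 1) f = 0) : f = 0 := by
  ext l
  rcases l with _ | ⟨n, l⟩
  · exact h0
  · rw [← L_apply, h]; rfl

theorem cn_nil (a : ℕ) (f : Q) : cn a f [] = 0 := by
  induction f using Finsupp.induction_linear with
  | zero => simp
  | add f g hf hg => rw [map_add, Finsupp.add_apply, hf, hg, add_zero]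
  | single l c => rw [cn_single]; simp

theorem El_succ_nil (m : ℕ) (f : Q) : El (m + 1) f [] = 0 := by
  induction f using Finsupp.induction_linear with
  | zero => simp
  | add f g hf hg => rw [map_add, Finsupp.add_apply, hf, hg, add_zero]
  | single l c =>
    have : (Finsupp.single l c : Q) = c • Finsupp.single l 1 := by
      rw [Finsupp.smul_single, smul_eq_mul, mul_one]
    rw [this, map_smul, Finsupp.smul_apply, El_single]
    rcases l with _ | ⟨a, l⟩
    · rw [E_nil, cn_nil, smul_zero]
    · rw [E_cons, Finsupp.add_apply, Finsupp.add_apply, cn_nil, cn_nil, cn_nil]; simp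

theorem LE_zero (m : ℕ) : L 1 * El (m + 1) = El (m + 1) * L 1 + El m := by
  refine hext fun l => ?_
  simp only [Module.End.mul_apply, LinearMap.add_apply, El_single]
  rcases l with _ | ⟨a, l⟩
  · rw [E_nil, L_cn, if_pos rfl, L_nil, map_zero, zero_add]
  · rw [E_cons, map_add, map_add, L_cn, L_cn, L_cn, if_pos rfl, L_cons, if_neg (Nat.succ_ne_zero a),
      add_zero]
    split_ifs with h
    · rw [El_single, add_comm]
    · rw [map_zero, add_comm]

theorem LE_succ (n m : ℕ) : L (n + 2) * El (m + 1) = El (m + 1) * L (n + 2) + El m * L (n + 1) := by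
  refine hext fun l => ?_
  simp only [Module.End.mul_apply, LinearMap.add_apply, El_single]
  rcases l with _ | ⟨a, l⟩
  · rw [E_nil, L_cn, if_neg (Nat.succ_ne_zero n).symm, L_nil, L_nil, map_zero, map_zero, add_zero]
  · rw [E_cons, map_add, map_add, L_cn, L_cn, L_cn, if_neg (Nat.succ_ne_zero n).symm, L_cons, L_cons,
      zero_add]
    have : (a + 1 = n + 1) ↔ (a = n) := by omega
    simp only [this]
    split_ifs <;> simp [El_single]

theorem LE (n m : ℕ) : L n * El (m + 1) = El (m + 1) * L n +
    (if n = 0 then 0 else El m * L (n - 1)) := by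
  rcases n with _ | _ | n
  · rw [L_zero, if_pos rfl, one_mul, mul_one, add_zero]
  · rw [if_neg (by omega), LE_zero, Nat.sub_self, L_zero, mul_one]
  · rw [if_neg (by omega), LE_succ]; rfl

theorem E_comm_aux (N : ℕ) : ∀ i k, i + k = N → ∀ l : List ℕ,
    El i (El k (Finsupp.single l 1)) = El k (El i (Finsupp.single l 1)) := by
  induction N using Nat.strong_induction_on with
  | _ N ih =>
    intro i k hik l
    rcases i with _ | i
    · rw [El_zero]; rfl
    rcases k with _ | k
    · rw [El_zero]; rfl
    have ih' : ∀ i k, i + k < N → El i * El k = El k * El i := fun i k h =>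
      hext fun l => ih _ h i k rfl l
    have c1 : El (i + 1) * El k = El k * El (i + 1) := ih' _ _ (by omega)
    have c2 : El i * El (k + 1) = El (k + 1) * El i := ih' _ _ (by omega)
    have c3 : El i * El k = El k * El i := ih' _ _ (by omega)
    induction l with
    | nil =>
      rw [← sub_eq_zero]
      refine zero_of (by rw [Finsupp.sub_apply, El_succ_nil, El_succ_nil, sub_zero]) fun n => ?_
      rw [map_sub, sub_eq_zero]
      have e1 := LinearMap.congr_fun (LE (n + 1) i) (El (k + 1) (Finsupp.single [] 1))
      have e2 := LinearMap.congr_fun (LE (n + 1) k) (Finsupp.single [] 1)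
      have e3 := LinearMap.congr_fun (LE n k) (Finsupp.single [] 1)
      have f1 := LinearMap.congr_fun (LE (n + 1) k) (El (i + 1) (Finsupp.single [] 1))
      have f2 := LinearMap.congr_fun (LE (n + 1) i) (Finsupp.single [] 1)
      have f3 := LinearMap.congr_fun (LE n i) (Finsupp.single [] 1)
      simp only [Module.End.mul_apply, LinearMap.add_apply, if_neg (Nat.succ_ne_zero n),
        Nat.add_sub_cancel, L_nil, map_zero, zero_add] at e1 e2 e3 f1 f2 f3
      rw [e1, f1, e2, e3, f2, f3, map_add, map_add]
      have d1 := LinearMap.congr_fun c1 (L n (Finsupp.single [] 1))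
      have d2 := LinearMap.congr_fun c2 (L n (Finsupp.single [] 1))
      simp only [Module.End.mul_apply] at d1 d2
      rw [d1, d2]
      have d3 : El i ((if n = 0 then (0 : Module.End ℚ Q) else El k * L (n - 1)) (Finsupp.single [] 1))
          = El k ((if n = 0 then (0 : Module.End ℚ Q) else El i * L (n - 1)) (Finsupp.single [] 1)) := by
        split_ifs
        · simp
        · exact LinearMap.congr_fun c3 (L (n - 1) (Finsupp.single [] 1))
      rw [d3]
      abel
    | cons a l ihl =>
      rw [← sub_eq_zero]
      refine zero_of (by rw [Finsupp.sub_apply, El_succ_nil, El_succ_nil, sub_zero]) fun n => ?_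
      rw [map_sub, sub_eq_zero]
      have e1 := LinearMap.congr_fun (LE (n + 1) i) (El (k + 1) (Finsupp.single (a :: l) 1))
      have e2 := LinearMap.congr_fun (LE (n + 1) k) (Finsupp.single (a :: l) 1)
      have e3 := LinearMap.congr_fun (LE n k) (Finsupp.single (a :: l) 1)
      have f1 := LinearMap.congr_fun (LE (n + 1) k) (El (i + 1) (Finsupp.single (a :: l) 1))
      have f2 := LinearMap.congr_fun (LE (n + 1) i) (Finsupp.single (a :: l) 1)
      have f3 := LinearMap.congr_fun (LE n i) (Finsupp.single (a :: l) 1)
      simp only [Module.End.mul_apply, LinearMap.add_apply, if_neg (Nat.succ_ne_zero n),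
        Nat.add_sub_cancel] at e1 e2 e3 f1 f2 f3
      rw [e1, f1, e2, e3, f2, f3, map_add, map_add, map_add, map_add]
      have d0 : El (i + 1) (El (k + 1) (L (n + 1) (Finsupp.single (a :: l) 1))) =
          El (k + 1) (El (i + 1) (L (n + 1) (Finsupp.single (a :: l) 1))) := by
        rw [L_cons]
        split_ifs
        · exact ihl
        · simp
      have d1 := LinearMap.congr_fun c1 (L n (Finsupp.single (a :: l) 1))
      have d2 := LinearMap.congr_fun c2 (L n (Finsupp.single (a :: l) 1))
      simp only [Module.End.mul_apply] at d1 d2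
      rw [d0, d1, d2]
      have d3 : El i ((if n = 0 then (0 : Module.End ℚ Q) else El k * L (n - 1))
            (Finsupp.single (a :: l) 1))
          = El k ((if n = 0 then (0 : Module.End ℚ Q) else El i * L (n - 1))
            (Finsupp.single (a :: l) 1)) := by
        split_ifs
        · simp
        · exact LinearMap.congr_fun c3 (L (n - 1) (Finsupp.single (a :: l) 1))
      rw [d3]
      abel

theorem E_comm (i k : ℕ) : El i * El k = El k * El i := hext fun l => E_comm_aux _ i k rfl l

/-- the lowering operators: `n L n = ∑ k, Xi k (L (n - k))` -/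
noncomputable def Xi (n : ℕ) : Module.End ℚ Q :=
  (n : ℚ) • L n - ∑ k : Fin n, Xi k.1 * L (n - k.1)
termination_by n
decreasing_by exact k.2

theorem Xi_eq (n : ℕ) : Xi n = (n : ℚ) • L n - ∑ k ∈ Finset.range n, Xi k * L (n - k) := by
  rw [Xi, Fin.sum_univ_eq_sum_range (fun k => Xi k * L (n - k)) n]

theorem Xi_sum (n : ℕ) : ∑ k ∈ Finset.range (n + 1), Xi k * L (n - k) = (n : ℚ) • L n := by
  rw [Finset.sum_range_succ, Nat.sub_self, L_zero, mul_one, Xi_eq n]
  abel

theorem Xi_zero : Xi 0 = 0 := by rw [Xi_eq]; simp

/-- the signs -/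
def sg (n : ℕ) : ℚ := if n = 0 then 0 else (-1) ^ (n - 1)

/-- `El (m - n)` or `0` -/
noncomputable def ee (m n : ℕ) : Module.End ℚ Q := if n ≤ m then El (m - n) else 0

theorem ee_succ (m n : ℕ) : ee (m + 1) (n + 1) = ee m n := by
  unfold ee
  simp

theorem tel (a : ℕ → Module.End ℚ Q) (n : ℕ) :
    ∑ k ∈ Finset.range (n + 1), sg k • (a k + a (k + 1)) =
      if n = 0 then 0 else a 1 - sg (n + 1) • a (n + 1) := by
  induction n with
  | zero => simp [sg]
  | succ n ih =>
    rw [Finset.sum_range_succ, ih]
    rcases n with _ | n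
    · simp only [sg]
      simp
      module
    · simp only [if_neg (Nat.succ_ne_zero _)]
      have : sg (n + 1 + 1 + 1) = - sg (n + 1 + 1) := by
        simp [sg, pow_succ]
      rw [this]
      module

theorem XiE (n : ℕ) : ∀ m, Xi n * El m = El m * Xi n + sg n • ee m n := by
  induction n using Nat.strong_induction_on with
  | _ n ih =>
    intro m
    rcases n with _ | n
    · rw [Xi_zero]; simp [sg]
    rcases m with _ | m
    · rw [El_zero, mul_one, one_mul, ee, if_neg (by omega), smul_zero, add_zero]
    have h1 := Xi_eq (n + 1)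
    have h2 : ∑ k ∈ Finset.range (n + 1), Xi k * L (n + 1 - k) * El (m + 1) =
        El (m + 1) * (((n + 1 : ℕ) : ℚ) • L (n + 1) - Xi (n + 1)) +
        El m * ((n : ℚ) • L n) +
        ∑ k ∈ Finset.range (n + 1), sg k • (ee (m + 1) k * L (n + 1 - k) +
          ee (m + 1) (k + 1) * L (n + 1 - (k + 1))) := by
      have h3 : ((n + 1 : ℕ) : ℚ) • L (n + 1) - Xi (n + 1) =
          ∑ k ∈ Finset.range (n + 1), Xi k * L (n + 1 - k) := by
        rw [h1]; abel
      rw [h3, ← Xi_sum n, Finset.mul_sum, Finset.mul_sum, ← Finset.sum_add_distrib,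
        ← Finset.sum_add_distrib]
      refine Finset.sum_congr rfl fun k hk => ?_
      have hk' : k < n + 1 := Finset.mem_range.1 hk
      have e1 := LE (n + 1 - k) m
      rw [if_neg (by omega)] at e1
      have e2 : n + 1 - k - 1 = n - k := by omega
      rw [e2] at e1
      have e3 := ih k hk' (m + 1)
      have e4 := ih k hk' m
      have e5 : n + 1 - (k + 1) = n - k := by omega
      rw [e5, ee_succ, mul_assoc, e1, mul_add, ← mul_assoc, ← mul_assoc, e3, e4, smul_add,
        add_mul, add_mul, mul_assoc, mul_assoc, smul_mul_assoc, smul_mul_assoc]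
      abel
    rw [tel (fun k => ee (m + 1) k * L (n + 1 - k))] at h2
    have h4 := LE (n + 1) m
    rw [if_neg (by omega), Nat.add_sub_cancel] at h4
    conv_lhs => rw [h1]
    rw [sub_mul, Finset.sum_mul, h2, smul_mul_assoc, h4, smul_add]
    rcases n with _ | n
    · rw [if_pos rfl]
      simp only [zero_add, Nat.cast_one, one_smul, Nat.cast_zero, zero_smul, mul_zero, add_zero,
        L_zero, mul_one, ee, sg, mul_sub]
      simp
      abel
    · rw [if_neg (by omega), Nat.sub_self, L_zero, mul_one]
      have e6 : ee (m + 1) 1 * L (n + 1 + 1 - 1) = El m * L (n + 1) := by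
        simp [ee]
      rw [e6, mul_sub, mul_smul_comm, mul_smul_comm]
      have e7 : ((n + 1 + 1 : ℕ) : ℚ) = ((n + 1 : ℕ) : ℚ) + 1 := by push_cast; ring
      rw [e7, add_smul, add_smul, one_smul, one_smul]
      abel

end Pool.Agent.H65.MZ.QR
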