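import Pool.Agent.H65.MZ.StairDefs

/-! # The double shuffle elements with `w_1 = y ^ m`, `m ≤ j`: definition -/

set_option autoImplicit false

namespace Pool.Agent.H65.MZ

/-- the span of the regularized double shuffle elements `reg (w_1 ш w_0 - w_1 * w_0)` of weight `p`
with `w_1 = y ^ m`, `1 ≤ m ≤ j` -/
noncomputable def YDSle (j p : ℕ) : Submodule ℚ W :=
  Submodule.span ℚ {f | ∃ m v, 1 ≤ m ∧ m ≤ j ∧ InH0 v ∧ m + v.length = p ∧
    f = reg (dsh (List.replicate m true) v)}

end Pool.Agent.H65.MZ
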