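import Pool.Agent.H65.MZ.RankAlg

/-! # The dimension of the space spanned by the stuffle products with `1, ..., 1` -/

set_option autoImplicit false

namespace Pool.Agent.H65.MZ.QR

open Module

/-- the weight of the composition `(a_1 + 1, ..., a_r + 1)` -/
def wt (l : List ℕ) : ℕ := l.sum + l.length

theorem wt_nil : wt [] = 0 := rfl

theorem wt_cons (a : ℕ) (l : List ℕ) : wt (a :: l) = a + 1 + wt l := by
  simp [wt]; ring

/-- the part of weight `d` -/
noncomputable def V (d : ℕ) : Submodule ℚ Q :=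
  Submodule.span ℚ {f | ∃ l, wt l = d ∧ f = Finsupp.single l 1}

theorem single_mem (l : List ℕ) : (Finsupp.single l 1 : Q) ∈ V (wt l) :=
  Submodule.subset_span ⟨l, rfl, rfl⟩

theorem cn_mem {a d : ℕ} {f : Q} (h : f ∈ V d) : cn a f ∈ V (a + 1 + d) := by
  rw [V] at h
  induction h using Submodule.span_induction with
  | mem f h =>
    obtain ⟨l, rfl, rfl⟩ := h
    rw [cn_single, ← wt_cons]
    exact single_mem _
  | zero => simp
  | add f g _ _ h1 h2 => rw [map_add]; exact add_mem h1 h2
  | smul c f _ h1 => rw [map_smul]; exact Submodule.smul_mem _ _ h1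

theorem E_mem (m : ℕ) : ∀ l, E m l ∈ V (m + wt l) := by
  induction m with
  | zero => intro l; rw [E_zero, zero_add]; exact single_mem _
  | succ m ihm =>
    intro l
    induction l with
    | nil =>
      rw [E_nil]
      have := cn_mem (a := 0) (ihm [])
      rwa [zero_add, ← add_assoc, add_comm 1 m] at this
    | cons a l ihl =>
      rw [E_cons]
      have h1 := cn_mem (a := 0) (ihm (a :: l))
      have h2 := cn_mem (a := a) ihl
      have h3 := cn_mem (a := a + 1) (ihm l)
      rw [wt_cons] at h1 ⊢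
      have e1 : 0 + 1 + (m + (a + 1 + wt l)) = m + 1 + (a + 1 + wt l) := by ring
      have e2 : a + 1 + (m + 1 + wt l) = m + 1 + (a + 1 + wt l) := by ring
      have e3 : a + 1 + 1 + (m + wt l) = m + 1 + (a + 1 + wt l) := by ring
      rw [e1] at h1
      rw [e2] at h2
      rw [e3] at h3
      exact add_mem (add_mem h1 h2) h3

theorem El_mem (m : ℕ) {d : ℕ} {f : Q} (h : f ∈ V d) : El m f ∈ V (m + d) := by
  rw [V] at h
  induction h using Submodule.span_induction with
  | mem f h =>
    obtain ⟨l, rfl, rfl⟩ := h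
    rw [El_single]
    exact E_mem m l
  | zero => simp
  | add f g _ _ h1 h2 => rw [map_add]; exact add_mem h1 h2
  | smul c f _ h1 => rw [map_smul]; exact Submodule.smul_mem _ _ h1

/-- `D` lowers the weight by `n` -/
def Low (n : ℕ) (D : Module.End ℚ Q) : Prop :=
  ∀ d f, f ∈ V d → (n ≤ d → D f ∈ V (d - n)) ∧ (d < n → D f = 0)

theorem low_L (n : ℕ) : Low n (L n) := by
  intro d f h
  rcases n with _ | n
  · refine ⟨fun _ => h, fun h => absurd h (Nat.not_lt_zero _)⟩
  rw [V] at h
  induction h using Submodule.span_induction with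
  | mem f h =>
    obtain ⟨l, rfl, rfl⟩ := h
    rcases l with _ | ⟨a, l⟩
    · rw [L_nil]; exact ⟨fun _ => zero_mem _, fun _ => rfl⟩
    · rw [L_cons, wt_cons]
      refine ⟨fun h => ?_, fun h => ?_⟩
      · split_ifs with h1
        · subst h1
          rw [Nat.add_sub_cancel_left]
          exact single_mem _
        · exact zero_mem _
      · rw [if_neg]
        rintro rfl
        omega
  | zero => simp
  | add f g _ _ h1 h2 =>
    rw [map_add]
    exact ⟨fun h => add_mem (h1.1 h) (h2.1 h), fun h => by rw [h1.2 h, h2.2 h, add_zero]⟩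
  | smul c f _ h1 =>
    rw [map_smul]
    exact ⟨fun h => Submodule.smul_mem _ _ (h1.1 h), fun h => by rw [h1.2 h, smul_zero]⟩

theorem Low.mul {k n : ℕ} (hk : k ≤ n) {A B : Module.End ℚ Q} (hA : Low k A) (hB : Low (n - k) B) :
    Low n (A * B) := by
  intro d f h
  rw [Module.End.mul_apply]
  obtain ⟨h1, h2⟩ := hB d f h
  rcases Nat.lt_or_ge d (n - k) with h3 | h3
  · rw [h2 h3, map_zero]
    exact ⟨fun _ => zero_mem _, fun _ => rfl⟩
  · obtain ⟨h4, h5⟩ := hA _ _ (h1 h3)
    refine ⟨fun h6 => ?_, fun h6 => h5 (by omega)⟩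
    have := h4 (by omega)
    have e : d - (n - k) - k = d - n := by omega
    rwa [e] at this

theorem Low.smul {n : ℕ} {A : Module.End ℚ Q} (c : ℚ) (hA : Low n A) : Low n (c • A) := by
  intro d f h
  obtain ⟨h1, h2⟩ := hA d f h
  exact ⟨fun h => Submodule.smul_mem _ _ (h1 h), fun h => by
    rw [LinearMap.smul_apply, h2 h, smul_zero]⟩

theorem Low.sub {n : ℕ} {A B : Module.End ℚ Q} (hA : Low n A) (hB : Low n B) : Low n (A - B) := by
  intro d f h
  obtain ⟨h1, h2⟩ := hA d f h
  obtain ⟨h3, h4⟩ := hB d f h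
  exact ⟨fun h => sub_mem (h1 h) (h3 h), fun h => by
    rw [LinearMap.sub_apply, h2 h, h4 h, sub_zero]⟩

theorem Low.sum {n : ℕ} {A : ℕ → Module.End ℚ Q} (s : Finset ℕ) (hA : ∀ k ∈ s, Low n (A k)) :
    Low n (∑ k ∈ s, A k) := by
  intro d f h
  rw [LinearMap.sum_apply]
  exact ⟨fun h' => Submodule.sum_mem _ fun k hk => (hA k hk d f h).1 h',
    fun h' => Finset.sum_eq_zero fun k hk => (hA k hk d f h).2 h'⟩

theorem low_Xi (n : ℕ) : Low n (Xi n) := by
  induction n using Nat.strong_induction_on with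
  | _ n ih =>
    rw [Xi_eq]
    refine ((low_L n).smul _).sub (Low.sum _ fun k hk => ?_)
    have hk := Finset.mem_range.1 hk
    exact Low.mul hk.le (ih k hk) (low_L _)

/-- the key property: `Xi n (El n f) = El n (Xi n f) ± f` -/
theorem Xi_El (n : ℕ) (_ : 1 ≤ n) (f : Q) : Xi n (El n f) = El n (Xi n f) + sg n • f := by
  have := LinearMap.congr_fun (XiE n n) f
  rw [ee, if_pos le_rfl, Nat.sub_self, El_zero] at this
  simpa using this

theorem Xi_El_lt {n m : ℕ} (h : m < n) (f : Q) : Xi n (El m f) = El m (Xi n f) := by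
  have := LinearMap.congr_fun (XiE n m) f
  rw [ee, if_neg (by omega)] at this
  simpa using this

theorem sg_ne {n : ℕ} (hn : 1 ≤ n) : sg n ≠ 0 := by
  rw [sg, if_neg (by omega)]
  exact pow_ne_zero _ (by norm_num)

/-- injectivity modulo a family of subspaces which is stable under `El n` and `Xi n` -/
theorem inj_mod {n : ℕ} (hn : 1 ≤ n) (J : ℕ → Submodule ℚ Q)
    (hP : ∀ e f, f ∈ J e → El n f ∈ J (e + n)) (hD : ∀ e f, f ∈ J (e + n) → Xi n f ∈ J e) :
    ∀ e f, f ∈ V e → El n f ∈ J (e + n) → f ∈ J e := by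
  have key : ∀ e g, g ∈ V e → ∀ s : ℕ, 1 ≤ s →
      El n (Xi n g) + ((s : ℚ) * sg n) • g ∈ J e → g ∈ J e := by
    intro e
    induction e using Nat.strong_induction_on with
    | _ e ih =>
      intro g hg s hs h
      have hc : (s : ℚ) * sg n ≠ 0 := mul_ne_zero (by exact_mod_cast (by omega : s ≠ 0)) (sg_ne hn)
      have fin : El n (Xi n g) ∈ J e → g ∈ J e := by
        intro h1
        have h2 : ((s : ℚ) * sg n) • g ∈ J e := by
          have := sub_mem h h1
          rwa [add_sub_cancel_left] at this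
        have := Submodule.smul_mem _ ((s : ℚ) * sg n)⁻¹ h2
        rwa [smul_smul, inv_mul_cancel₀ hc, one_smul] at this
      apply fin
      rcases Nat.lt_or_ge e n with he | he
      · rw [(low_Xi n e g hg).2 he, map_zero]
        exact zero_mem _
      · have hg' := (low_Xi n e g hg).1 he
        have e1 : e - n + n = e := Nat.sub_add_cancel he
        have h1 : Xi n g ∈ J (e - n) := by
          refine ih (e - n) (by omega) _ hg' (s + 1) (by omega) ?_
          have h2 := hD (e - n) (El n (Xi n g) + ((s : ℚ) * sg n) • g) (by rwa [e1])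
          rw [map_add, map_smul, Xi_El n hn] at h2
          have e2 : El n (Xi n (Xi n g)) + sg n • Xi n g + ((s : ℚ) * sg n) • Xi n g =
              El n (Xi n (Xi n g)) + (((s + 1 : ℕ) : ℚ) * sg n) • Xi n g := by
            push_cast
            module
          rwa [e2] at h2
        have := hP _ _ h1
        rwa [e1] at this
  intro e f hf h
  refine key e f hf 1 le_rfl ?_
  have := hD e _ h
  rw [Xi_El n hn] at this
  simpa using this

/-- the span of the stuffle products with `1, ..., 1` (at most `j` entries) in weight `d` -/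
noncomputable def I (j d : ℕ) : Submodule ℚ Q :=
  Submodule.span ℚ {f | ∃ m l, 1 ≤ m ∧ m ≤ j ∧ m + wt l = d ∧ f = E m l}

theorem I_le (j d : ℕ) : I j d ≤ V d := by
  rw [I, Submodule.span_le]
  rintro f ⟨m, l, _, _, rfl, rfl⟩
  exact E_mem m l

theorem El_mem_I {j m d : ℕ} (h1 : 1 ≤ m) (h2 : m ≤ j) {f : Q} (h : f ∈ V d) :
    El m f ∈ I j (d + m) := by
  rw [V] at h
  induction h using Submodule.span_induction with
  | mem f h =>
    obtain ⟨l, rfl, rfl⟩ := h
    rw [El_single]
    exact Submodule.subset_span ⟨m, l, h1, h2, add_comm _ _, rfl⟩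
  | zero => simp
  | add f g _ _ h1 h2 => rw [map_add]; exact add_mem h1 h2
  | smul c f _ h1 => rw [map_smul]; exact Submodule.smul_mem _ _ h1

theorem El_I (k : ℕ) {j d : ℕ} {f : Q} (h : f ∈ I j d) : El k f ∈ I j (d + k) := by
  rw [I] at h
  induction h using Submodule.span_induction with
  | mem f h =>
    obtain ⟨m, l, h1, h2, rfl, rfl⟩ := h
    have := LinearMap.congr_fun (E_comm k m) (Finsupp.single l 1)
    simp only [Module.End.mul_apply] at this
    rw [← El_single, this]
    have h3 := El_mem_I h1 h2 (El_mem k (single_mem l))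
    have e : k + wt l + m = m + wt l + k := by ring
    rwa [e] at h3
  | zero => simp
  | add f g _ _ h1 h2 => rw [map_add]; exact add_mem h1 h2
  | smul c f _ h1 => rw [map_smul]; exact Submodule.smul_mem _ _ h1

theorem Xi_I {n j : ℕ} (hj : j < n) (d : ℕ) {f : Q} (h : f ∈ I j (d + n)) : Xi n f ∈ I j d := by
  rw [I] at h
  induction h using Submodule.span_induction with
  | mem f h =>
    obtain ⟨m, l, h1, h2, h3, rfl⟩ := h
    rw [← El_single, Xi_El_lt (by omega)]
    obtain ⟨h4, h5⟩ := low_Xi n _ _ (single_mem l)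
    rcases Nat.lt_or_ge (wt l) n with h6 | h6
    · rw [h5 h6, map_zero]; exact zero_mem _
    · have := El_mem_I h1 h2 (h4 h6)
      have e : wt l - n + m = d := by omega
      rwa [e] at this
  | zero => simp
  | add f g _ _ h1 h2 => rw [map_add]; exact add_mem h1 h2
  | smul c f _ h1 => rw [map_smul]; exact Submodule.smul_mem _ _ h1

theorem inj_I (j e : ℕ) {f : Q} (hf : f ∈ V e) (h : El (j + 1) f ∈ I j (e + (j + 1))) : f ∈ I j e :=
  inj_mod (by omega) (I j) (fun _ _ h => El_I _ h) (fun d _ h => Xi_I (by omega) d h) e f hf h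

theorem inj_bot (n e : ℕ) (hn : 1 ≤ n) {f : Q} (hf : f ∈ V e) (h : El n f = 0) : f = 0 := by
  have := inj_mod hn (fun _ => ⊥) (fun _ f h => by
    rw [Submodule.mem_bot] at h ⊢; rw [h, map_zero]) (fun _ f h => by
    rw [Submodule.mem_bot] at h ⊢; rw [h, map_zero]) e f hf (by rw [Submodule.mem_bot]; exact h)
  rwa [Submodule.mem_bot] at this

/-! ### dimensions -/

/-- compositions as lists of their entries minus one -/
def compEquiv (d : ℕ) : {l : List ℕ // wt l = d} ≃ Composition d where
  toFun l := ⟨l.1.map (· + 1), by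
    intro i hi
    obtain ⟨a, -, rfl⟩ := List.mem_map.1 hi
    omega, by
    have : ∀ l : List ℕ, (l.map (· + 1)).sum = wt l := by
      intro l
      induction l with
      | nil => rfl
      | cons a l ih => rw [List.map_cons, List.sum_cons, ih, wt_cons]
    rw [this, l.2]⟩
  invFun c := ⟨c.blocks.map (· - 1), by
    have : ∀ l : List ℕ, (∀ a ∈ l, 0 < a) → wt (l.map (· - 1)) = l.sum := by
      intro l
      induction l with
      | nil => intro _; rfl
      | cons a l ih =>
        intro h
        have ha := h a List.mem_cons_self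
        rw [List.map_cons, wt_cons, ih fun b hb => h b (List.mem_cons_of_mem _ hb), List.sum_cons]
        omega
    rw [this _ fun a ha => c.blocks_pos ha, c.blocks_sum]⟩
  left_inv l := by
    ext1
    have : ((fun x : ℕ => x - 1) ∘ fun x => x + 1) = id := by funext x; simp
    simp only [List.map_map, this, List.map_id]
  right_inv c := by
    ext1
    simp only [List.map_map]
    conv_rhs => rw [← List.map_id c.blocks]
    refine List.map_congr_left fun a ha => ?_
    have := c.blocks_pos ha
    simp only [Function.comp, id]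
    omega

noncomputable instance (d : ℕ) : Fintype ({l : List ℕ | wt l = d} : Set (List ℕ)) :=
  Fintype.ofEquiv _ (compEquiv d).symm

theorem V_eq (d : ℕ) : V d = Finsupp.supported ℚ ℚ {l : List ℕ | wt l = d} := by
  rw [Finsupp.supported_eq_span_single, V]
  congr 1
  ext f
  constructor
  · rintro ⟨l, h, rfl⟩; exact ⟨l, h, rfl⟩
  · rintro ⟨l, h, rfl⟩; exact ⟨l, h, rfl⟩

instance V_fin (d : ℕ) : FiniteDimensional ℚ (V d) := by
  rw [V_eq]
  exact Module.Finite.equiv (Finsupp.supportedEquivFinsupp {l : List ℕ | wt l = d}).symm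

theorem finrank_V (d : ℕ) : finrank ℚ (V d) = 2 ^ (d - 1) := by
  rw [V_eq, LinearEquiv.finrank_eq (Finsupp.supportedEquivFinsupp {l : List ℕ | wt l = d}),
    Module.finrank_finsupp_self]
  rw [← composition_card d]
  exact Fintype.card_congr (compEquiv d)

instance I_fin (j d : ℕ) : FiniteDimensional ℚ (I j d) :=
  Submodule.finiteDimensional_of_le (I_le j d)

theorem finrank_map {n e : ℕ} (hn : 1 ≤ n) {U : Submodule ℚ Q} (hU : U ≤ V e) :
    finrank ℚ (U.map (El n)) = finrank ℚ U := by
  have h1 : Function.Injective ((El n).domRestrict U) := by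
    rw [← LinearMap.ker_eq_bot, LinearMap.ker_eq_bot']
    intro f hf
    rw [LinearMap.domRestrict_apply] at hf
    exact Subtype.ext (inj_bot n e hn (hU f.2) hf)
  rw [← LinearMap.range_domRestrict]
  exact LinearMap.finrank_range_of_inj h1

theorem I_succ {j d : ℕ} (h : j + 1 ≤ d) :
    I (j + 1) d = I j d ⊔ (V (d - (j + 1))).map (El (j + 1)) := by
  refine le_antisymm ?_ (sup_le ?_ ?_)
  · rw [I, Submodule.span_le]
    rintro f ⟨m, l, h1, h2, h3, rfl⟩
    rcases Nat.lt_or_ge j m with h4 | h4
    · obtain rfl : m = j + 1 := by omega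
      refine Submodule.mem_sup_right ⟨Finsupp.single l 1, ?_, El_single _ _⟩
      have := single_mem l
      have e : wt l = d - (j + 1) := by omega
      rwa [e] at this
    · exact Submodule.mem_sup_left (Submodule.subset_span ⟨m, l, h1, h4, h3, rfl⟩)
  · refine Submodule.span_mono ?_
    rintro f ⟨m, l, h1, h2, h3, rfl⟩
    exact ⟨m, l, h1, by omega, h3, rfl⟩
  · rintro _ ⟨f, hf, rfl⟩
    have := El_mem_I (j := j + 1) (m := j + 1) (by omega) le_rfl hf
    rwa [Nat.sub_add_cancel h] at this

theorem I_succ' {j d : ℕ} (h : d < j + 1) : I (j + 1) d = I j d := by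
  refine le_antisymm ?_ ?_
  · refine Submodule.span_mono ?_
    rintro f ⟨m, l, h1, h2, h3, rfl⟩
    exact ⟨m, l, h1, by omega, h3, rfl⟩
  · refine Submodule.span_mono ?_
    rintro f ⟨m, l, h1, h2, h3, rfl⟩
    exact ⟨m, l, h1, by omega, h3, rfl⟩

theorem I_inf {j d : ℕ} (h : j + 1 ≤ d) :
    I j d ⊓ (V (d - (j + 1))).map (El (j + 1)) = (I j (d - (j + 1))).map (El (j + 1)) := by
  refine le_antisymm ?_ (le_inf ?_ ?_)
  · rintro _ ⟨h1, f, hf, rfl⟩
    refine ⟨f, inj_I j _ hf ?_, rfl⟩
    rw [Nat.sub_add_cancel h]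
    exact h1
  · rintro _ ⟨f, hf, rfl⟩
    have := El_I (j + 1) hf
    rwa [Nat.sub_add_cancel h] at this
  · exact Submodule.map_mono (I_le _ _)

theorem finrank_I_succ {j d : ℕ} (h : j + 1 ≤ d) :
    finrank ℚ (I (j + 1) d) + finrank ℚ (I j (d - (j + 1))) =
      finrank ℚ (I j d) + finrank ℚ (V (d - (j + 1))) := by
  have h1 := Submodule.finrank_sup_add_finrank_inf_eq (I j d) ((V (d - (j + 1))).map (El (j + 1)))
  rw [← I_succ h, I_inf h, finrank_map (e := d - (j + 1)) (by omega) (I_le _ _),
    finrank_map (e := d - (j + 1)) (by omega) le_rfl] at h1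
  exact h1

theorem I_zero (d : ℕ) : I 0 d = ⊥ := by
  rw [I, Submodule.span_eq_bot]
  rintro f ⟨m, l, h1, h2, _⟩
  omega

open PowerSeries in
/-- the generating function `(1 - X) / (1 - 2 X)` -/
noncomputable def G0 : PowerSeries ℤ := PowerSeries.mk fun d => 2 ^ (d - 1)

theorem finrank_I (j : ℕ) : ∀ d, (finrank ℚ (I j d) : ℤ) = 2 ^ (d - 1) -
    PowerSeries.coeff d (G0 * ∏ i ∈ Finset.range j, (1 - PowerSeries.X ^ (i + 1))) := by
  induction j with
  | zero =>
    intro d
    rw [I_zero, finrank_bot, Finset.range_zero, Finset.prod_empty, mul_one, G0,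
      PowerSeries.coeff_mk]
    simp
  | succ j ih =>
    intro d
    rw [Finset.prod_range_succ, ← mul_assoc, mul_sub, mul_one, map_sub, PowerSeries.coeff_mul_X_pow']
    split_ifs with h
    · have h1 := finrank_I_succ h
      have h2 := ih d
      have h3 := ih (d - (j + 1))
      rw [finrank_V] at h1
      have h4 : ((finrank ℚ (I (j + 1) d) : ℤ)) + finrank ℚ (I j (d - (j + 1))) =
        finrank ℚ (I j d) + 2 ^ (d - (j + 1) - 1) := by exact_mod_cast h1
      rw [h2, h3] at h4
      linarith
    · rw [I_succ' (by omega), ih d, sub_zero]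

/-! ### without the empty list -/

/-- the span of the stuffle products of `1, ..., 1` (at most `j` entries) and non-empty
compositions in weight `d` -/
noncomputable def I' (j d : ℕ) : Submodule ℚ Q :=
  Submodule.span ℚ {f | ∃ m l, 1 ≤ m ∧ m ≤ j ∧ l ≠ [] ∧ m + wt l = d ∧ f = E m l}

theorem I'_of_lt {j d : ℕ} (h : j < d) : I' j d = I j d := by
  refine le_antisymm (Submodule.span_mono ?_) (Submodule.span_mono ?_)
  · rintro f ⟨m, l, h1, h2, _, h3, rfl⟩
    exact ⟨m, l, h1, h2, h3, rfl⟩
  · rintro f ⟨m, l, h1, h2, h3, rfl⟩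
    refine ⟨m, l, h1, h2, ?_, h3, rfl⟩
    rintro rfl
    rw [wt_nil] at h3
    omega

theorem wt_pos {l : List ℕ} (h : l ≠ []) : 1 ≤ wt l := by
  rcases l with _ | ⟨a, l⟩
  · exact absurd rfl h
  · rw [wt_cons]; omega

theorem I'_Xi {j d : ℕ} {f : Q} (h : f ∈ I' j d) : Xi d f = 0 := by
  rw [I'] at h
  induction h using Submodule.span_induction with
  | mem f h =>
    obtain ⟨m, l, h1, h2, h3, h4, rfl⟩ := h
    have := wt_pos h3
    rw [← El_single, Xi_El_lt (by omega), (low_Xi d _ _ (single_mem l)).2 (by omega), map_zero]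
  | zero => simp
  | add f g _ _ h1 h2 => rw [map_add, h1, h2, add_zero]
  | smul c f _ h1 => rw [map_smul, h1, smul_zero]

theorem finrank_I' {j d : ℕ} (hd : 1 ≤ d) (h : d ≤ j) :
    finrank ℚ (I' j d) + 1 = finrank ℚ (I j d) := by
  have h1 : I j d = I' j d ⊔ Submodule.span ℚ {E d []} := by
    refine le_antisymm ?_ (sup_le (Submodule.span_mono ?_) ?_)
    · rw [I, Submodule.span_le]
      rintro f ⟨m, l, h1, h2, h3, rfl⟩
      by_cases hl : l = []
      · subst hl
        rw [wt_nil, add_zero] at h3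
        subst h3
        exact Submodule.mem_sup_right (Submodule.mem_span_singleton_self _)
      · exact Submodule.mem_sup_left (Submodule.subset_span ⟨m, l, h1, h2, hl, h3, rfl⟩)
    · rintro f ⟨m, l, h1, h2, _, h3, rfl⟩
      exact ⟨m, l, h1, h2, h3, rfl⟩
    · rw [Submodule.span_singleton_le_iff_mem]
      exact Submodule.subset_span ⟨d, [], hd, h, by rw [wt_nil, add_zero], rfl⟩
  have h2 : Xi d (E d []) = sg d • Finsupp.single [] 1 := by
    rw [← El_single, Xi_El d hd, (low_Xi d _ _ (single_mem [])).2 (by rw [wt_nil]; omega),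
      map_zero, zero_add]
  have h3 : Xi d (E d []) ≠ 0 := by
    rw [h2]
    refine smul_ne_zero (sg_ne hd) ?_
    simp
  have h4 : E d [] ∉ I' j d := fun h => h3 (I'_Xi h)
  have : FiniteDimensional ℚ (I' j d) := by
    refine Submodule.finiteDimensional_of_le (S₂ := I j d) ?_
    rw [h1]; exact le_sup_left
  have h5 : E d [] ≠ 0 := by
    intro h; rw [h] at h4; exact h4 (zero_mem _)
  have h6 := Submodule.finrank_sup_add_finrank_inf_eq (I' j d) (Submodule.span ℚ {E d []})
  have h7 : I' j d ⊓ Submodule.span ℚ {E d []} = ⊥ := by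
    rw [← disjoint_iff, Submodule.disjoint_span_singleton' h5]
    exact h4
  rw [← h1, h7, finrank_bot, add_zero, finrank_span_singleton h5] at h6
  omega

end Pool.Agent.H65.MZ.QR
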