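import Pool.Agent.H65.MZ.RankReg
import Pool.Agent.H65.MZ.RankDefs

/-! # The dimension of the span of the regularized double shuffle elements with `w_1 = y ^ m` -/

set_option autoImplicit false

namespace Pool.Agent.H65.MZ

open List Module

theorem length_wd (l : List ℕ) : (wd l).length = QR.wt l := by
  induction l with
  | nil => rfl
  | cons a l ih =>
    rw [wd_cons, length_append, ih, QR.wt_cons, bl]
    simp

theorem exists_wd {u : List Bool} (hu : u.getLast? = some true) : ∃ l, u = wd l := by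
  obtain ⟨h1, h2⟩ := adm_index1 (w := u) (Or.inr hu)
  refine ⟨(index 0 u).map (· - 1), ?_⟩
  rw [wd, map_map]
  have : (index 0 u).map ((· + 1) ∘ (· - 1)) = index 0 u := by
    conv_rhs => rw [← map_id (index 0 u)]
    refine map_congr_left fun a ha => ?_
    have := h1 a ha
    simp only [Function.comp, id]
    omega
  rw [this, h2]

/-- the words of length `n` which end with `y` -/
noncomputable def Hy (n : ℕ) : Submodule ℚ W :=
  Submodule.span ℚ {f | ∃ u : List Bool, u.getLast? = some true ∧ u.length = n ∧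
    f = Finsupp.single u 1}

theorem pre_Hy (a : Bool) {n : ℕ} {f : W} (h : f ∈ Hy n) : pre a f ∈ Hy (n + 1) := by
  rw [Hy] at h
  induction h using Submodule.span_induction with
  | mem f h =>
    obtain ⟨u, h1, rfl, rfl⟩ := h
    rw [pre_single]
    refine Submodule.subset_span ⟨a :: u, ?_, rfl, rfl⟩
    rcases u with _ | ⟨b, u⟩
    · simp at h1
    · simpa using h1
  | zero => simp
  | add f g _ _ h1 h2 => rw [map_add]; exact add_mem h1 h2
  | smul c f _ h1 => rw [map_smul]; exact Submodule.smul_mem _ _ h1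

theorem phiW_Hy (u : List Bool) (hu : u.getLast? = some true) : phiW u ∈ Hy u.length := by
  induction u with
  | nil => simp at hu
  | cons a u ih =>
    rcases u with _ | ⟨b, u⟩
    · simp only [getLast?_singleton, Option.some.injEq] at hu
      subst hu
      rw [phiW, phiW, pre_single]
      exact neg_mem (Submodule.subset_span ⟨[true], rfl, rfl, rfl⟩)
    · have h1 := ih (by simpa using hu)
      cases a
      · rw [phiW]
        exact add_mem (pre_Hy _ h1) (pre_Hy _ h1)
      · rw [phiW]
        exact neg_mem (pre_Hy _ h1)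

theorem phi_Hy {n : ℕ} {f : W} (h : f ∈ Hy n) : phi f ∈ Hy n := by
  rw [Hy] at h
  induction h using Submodule.span_induction with
  | mem f h =>
    obtain ⟨u, h1, rfl, rfl⟩ := h
    rw [phi_single]
    exact phiW_Hy u h1
  | zero => simp
  | add f g _ _ h1 h2 => rw [map_add]; exact add_mem h1 h2
  | smul c f _ h1 => rw [map_smul]; exact Submodule.smul_mem _ _ h1

theorem Hy_om {n : ℕ} {f : W} (h : f ∈ Hy n) : ∃ g ∈ QR.V n, om g = f := by
  rw [Hy] at h
  induction h using Submodule.span_induction with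
  | mem f h =>
    obtain ⟨u, h1, rfl, rfl⟩ := h
    obtain ⟨l, rfl⟩ := exists_wd h1
    rw [length_wd]
    exact ⟨Finsupp.single l 1, QR.single_mem l, om_single l 1⟩
  | zero => exact ⟨0, zero_mem _, map_zero _⟩
  | add f g _ _ h1 h2 =>
    obtain ⟨a, ha, rfl⟩ := h1
    obtain ⟨b, hb, rfl⟩ := h2
    exact ⟨a + b, add_mem ha hb, map_add _ _ _⟩
  | smul c f _ h1 =>
    obtain ⟨a, ha, rfl⟩ := h1
    exact ⟨c • a, Submodule.smul_mem _ _ ha, map_smul _ _ _⟩

theorem om_Hy {n : ℕ} (hn : 1 ≤ n) {g : QR.Q} (h : g ∈ QR.V n) : om g ∈ Hy n := by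
  rw [QR.V] at h
  induction h using Submodule.span_induction with
  | mem f h =>
    obtain ⟨l, rfl, rfl⟩ := h
    rw [om_single]
    refine Submodule.subset_span ⟨wd l, ?_, length_wd l, rfl⟩
    rcases word_inH1 (l.map (· + 1)) with h1 | h1
    · exfalso
      have h2 := length_wd l
      rw [wd, h1] at h2
      simp at h2
      omega
    · exact h1
  | zero => simp
  | add f g _ _ h1 h2 => rw [map_add]; exact add_mem h1 h2
  | smul c f _ h1 => rw [map_smul]; exact Submodule.smul_mem _ _ h1

theorem reg_dsh_nil (m : ℕ) : reg (dsh (replicate m true) []) = 0 := by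
  rw [dsh, index_replicate]
  have : index 0 [] = [] := rfl
  rw [this, shuffles_nil', stuffles_nil', map_singleton, word_replicate, sub_self, map_zero]

/-- `Cl m` of the combinations of the words in `x H y` -/
theorem Cl_YDS {j m n : ℕ} (h1 : 1 ≤ m) (h2 : m ≤ j) {f : W} (h : f ∈ Hy n) :
    Cl m (pre false f) ∈ YDSle j (m + (n + 1)) := by
  rw [Hy] at h
  induction h using Submodule.span_induction with
  | mem f h =>
    obtain ⟨u, h3, rfl, rfl⟩ := h
    have h4 : InH0 (false :: u) := by
      right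
      refine ⟨rfl, ?_⟩
      rcases u with _ | ⟨b, u⟩
      · simp at h3
      · simpa using h3
    rw [pre_single, Cl_single, ← neg_neg (Cw (false :: u) m), ← reg_dsh h1 u h4]
    exact neg_mem (Submodule.subset_span ⟨m, false :: u, h1, h2, h4, rfl, rfl⟩)
  | zero => simp
  | add f g _ _ h1 h2 => rw [map_add, map_add]; exact add_mem h1 h2
  | smul c f _ h1 => rw [map_smul, map_smul]; exact Submodule.smul_mem _ _ h1

theorem El_mem_I' {j m d : ℕ} (h1 : 1 ≤ m) (h2 : m ≤ j) (hd : 1 ≤ d) {f : QR.Q}
    (h : f ∈ QR.V d) : QR.El m f ∈ QR.I' j (m + d) := by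
  rw [QR.V] at h
  induction h using Submodule.span_induction with
  | mem f h =>
    obtain ⟨l, rfl, rfl⟩ := h
    rw [QR.El_single]
    refine Submodule.subset_span ⟨m, l, h1, h2, ?_, rfl, rfl⟩
    rintro rfl
    rw [QR.wt_nil] at hd
    omega
  | zero => simp
  | add f g _ _ h1 h2 => rw [map_add]; exact add_mem h1 h2
  | smul c f _ h1 => rw [map_smul]; exact Submodule.smul_mem _ _ h1

theorem YDSle_eq (j d : ℕ) : YDSle j (d + 1) = (QR.I' j d).map Th := by
  refine le_antisymm ?_ ?_
  · rw [YDSle, Submodule.span_le]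
    rintro f ⟨m, v, h1, h2, h3, h4, rfl⟩
    rcases v with _ | ⟨a, u⟩
    · rw [reg_dsh_nil]; exact zero_mem _
    · have ha : a = false := by
        rcases h3 with h3 | h3
        · exact absurd h3 (by simp)
        · simpa using h3.1
      subst ha
      have hu : u.getLast? = some true := by
        rcases h3 with h3 | ⟨_, h3⟩
        · exact absurd h3 (by simp)
        · rcases u with _ | ⟨b, u⟩
          · simp at h3
          · simpa using h3
      have hu1 : 1 ≤ u.length := by
        rcases u with _ | ⟨b, u⟩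
        · simp at hu
        · simp
      rw [reg_dsh h1 u h3, ← Cl_single, ← pre_single]
      refine neg_mem ?_
      have h5 : (Finsupp.single u 1 : W) ∈ Hy u.length :=
        Submodule.subset_span ⟨u, hu, rfl, rfl⟩
      obtain ⟨g, hg, he⟩ := Hy_om (phi_Hy h5)
      have h6 : pre false (Finsupp.single u 1) = Th g := by
        rw [Th_apply, he, phi_phi]
      rw [h6, Cl_Th]
      refine ⟨_, ?_, rfl⟩
      have h7 := El_mem_I' h1 h2 hu1 hg
      have h8 : m + u.length = d := by
        rw [length_cons] at h4; omega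
      rwa [h8] at h7
  · rintro _ ⟨g, hg, rfl⟩
    rw [QR.I'] at hg
    induction hg using Submodule.span_induction with
    | mem f h =>
      obtain ⟨m, l, h1, h2, h3, rfl, rfl⟩ := h
      rw [← QR.El_single, ← Cl_Th, Th_apply]
      have h4 := phi_Hy (om_Hy (QR.wt_pos h3) (QR.single_mem l))
      exact Cl_YDS h1 h2 h4
    | zero => simp
    | add f g _ _ h1 h2 => rw [map_add]; exact add_mem h1 h2
    | smul c f _ h1 => rw [map_smul]; exact Submodule.smul_mem _ _ h1

theorem finrank_YDSle (j d : ℕ) : finrank ℚ (YDSle j (d + 1)) = finrank ℚ (QR.I' j d) := by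
  rw [YDSle_eq]
  exact (LinearEquiv.finrank_eq (Submodule.equivMapOfInjective Th Th_inj (QR.I' j d))).symm

theorem YDS_eq_le (p : ℕ) : YDS p = YDSle p p := by
  refine le_antisymm (Submodule.span_mono ?_) (Submodule.span_mono ?_)
  · rintro f ⟨m, v, h1, h2, h3, rfl⟩
    exact ⟨m, v, h1, by omega, h2, h3, rfl⟩
  · rintro f ⟨m, v, h1, _, h2, h3, rfl⟩
    exact ⟨m, v, h1, h2, h3, rfl⟩

theorem G0_eq : QR.G0 = (1 - PowerSeries.X) * PowerSeries.mk (fun i => (2 : ℤ) ^ i) := by
  ext d
  rw [QR.G0, PowerSeries.coeff_mk, sub_mul, one_mul, map_sub, PowerSeries.coeff_mk]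
  rcases d with _ | d
  · simp
  · rw [PowerSeries.coeff_succ_X_mul, PowerSeries.coeff_mk, Nat.add_sub_cancel, pow_succ]
    ring

/-- the dimension formula for `m ≤ j` -/
theorem finrank_YDSle_eq (j n : ℕ) : (finrank ℚ (YDSle j (n + 2)) : ℤ) = 2 ^ n -
    (if n + 1 ≤ j then 1 else 0) - PowerSeries.coeff (n + 1) ((1 - PowerSeries.X) *
      PowerSeries.mk (fun i => (2 : ℤ) ^ i) *
      ∏ i ∈ Finset.range j, (1 - PowerSeries.X ^ (i + 1))) := by
  rw [finrank_YDSle, ← G0_eq]
  have h := QR.finrank_I j (n + 1)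
  rw [Nat.add_sub_cancel] at h
  split_ifs with hj
  · have h1 := QR.finrank_I' (j := j) (d := n + 1) (by omega) hj
    rw [← h1] at h
    push_cast at h
    linarith
  · rw [QR.I'_of_lt (by omega), h, sub_zero]

/-- the coefficients of the truncated products are those of the pentagonal number series -/
theorem coeff_prod (d j : ℕ) (h : d ≤ j) :
    PowerSeries.coeff d (∏ i ∈ Finset.range j, (1 - PowerSeries.X ^ (i + 1) : PowerSeries ℤ)) =
      PowerSeries.coeff d (PowerSeries.pentagonalSeries ℤ) := by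
  have h1 : ∀ j, d ≤ j →
      PowerSeries.coeff d (∏ i ∈ Finset.range j, (1 - PowerSeries.X ^ (i + 1) : PowerSeries ℤ)) =
      PowerSeries.coeff d (∏ i ∈ Finset.range d, (1 - PowerSeries.X ^ (i + 1) : PowerSeries ℤ)) := by
    intro j hj
    induction j, hj using Nat.le_induction with
    | base => rfl
    | succ j hj ih =>
      rw [Finset.prod_range_succ, mul_sub, mul_one, map_sub, PowerSeries.coeff_mul_X_pow',
        if_neg (by omega), sub_zero, ih]
  have h2 := PowerSeries.coeff_prod_one_sub_X_pow_eventually_eq ℤ d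
  have h3 := (Filter.tendsto_finset_range.eventually h2).and (Filter.eventually_ge_atTop d)
  obtain ⟨k, h4, h5⟩ := h3.exists
  rw [h1 j h, ← h4, h1 k h5]

/-- the explicit dimension formula -/
theorem finrank_YDS (n : ℕ) : (finrank ℚ (YDS (n + 2)) : ℤ) = 2 ^ n - 1 -
    PowerSeries.coeff (n + 1) (PowerSeries.pentagonalSeries ℤ) -
    ∑ i ∈ Finset.range (n + 1),
      PowerSeries.coeff i (PowerSeries.pentagonalSeries ℤ) * 2 ^ (n - i) := by
  rw [YDS_eq_le, finrank_YDSle_eq, if_pos (by omega), ← G0_eq, mul_comm QR.G0,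
    PowerSeries.coeff_mul, Finset.Nat.sum_antidiagonal_eq_sum_range_succ
      (fun a b => PowerSeries.coeff a (∏ i ∈ Finset.range (n + 2),
        (1 - PowerSeries.X ^ (i + 1) : PowerSeries ℤ)) * PowerSeries.coeff b QR.G0)]
  rw [Finset.sum_range_succ]
  have h1 : ∀ i ∈ Finset.range (n + 1), PowerSeries.coeff i (∏ i ∈ Finset.range (n + 2),
        (1 - PowerSeries.X ^ (i + 1) : PowerSeries ℤ)) * PowerSeries.coeff (n + 1 - i) QR.G0 =
      PowerSeries.coeff i (PowerSeries.pentagonalSeries ℤ) * 2 ^ (n - i) := by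
    intro i hi
    have hi := Finset.mem_range.1 hi
    rw [coeff_prod i (n + 2) (by omega), QR.G0, PowerSeries.coeff_mk]
    have e : n + 1 - i - 1 = n - i := by omega
    rw [e]
  rw [Finset.sum_congr rfl h1, coeff_prod (n + 1) (n + 2) (by omega), Nat.sub_self]
  have h2 : PowerSeries.coeff 0 QR.G0 = 1 := by
    rw [QR.G0, PowerSeries.coeff_mk]; rfl
  rw [h2]
  ring

end Pool.Agent.H65.MZ
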