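import Pool.Agent.H65.MZ.RankFin

/-! # The rank of `YDS p`: numerical bound -/

set_option autoImplicit false

namespace Pool.Agent.H65.MZ

open Module PowerSeries

theorem abs_pent_le (i : ℕ) : |coeff i (pentagonalSeries ℤ)| ≤ 1 := by
  by_cases h : i ∈ Set.range pentagonal
  · obtain ⟨k, rfl⟩ := h
    rw [coeff_pentagonalSeries_pentagonal]
    rcases Int.even_or_odd k with hk | hk
    · rw [Int.negOnePow_even k hk]; simp
    · rw [Int.negOnePow_odd k hk]; simp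
  · rw [coeff_pentagonalSeries_eq_zero ℤ h]; simp

theorem pent_small {n : ℕ} (hn : n < 15) (h : n ∈ Set.range pentagonal) :
    n = 0 ∨ n = 1 ∨ n = 2 ∨ n = 5 ∨ n = 7 ∨ n = 12 := by
  obtain ⟨k, rfl⟩ := h
  have h2 := two_mul_natCast_pentagonal k
  have h3 : (pentagonal k : ℤ) < 15 := by exact_mod_cast hn
  have hk1 : k < 4 := by
    by_contra hc
    push Not at hc
    nlinarith
  have hk2 : -4 < k := by
    by_contra hc
    push Not at hc
    nlinarith
  interval_cases k <;> simp [pentagonal_def] at hn ⊢ 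

theorem pent_zero_of (n : ℕ) (hn : n < 15) (h : ¬ (n = 0 ∨ n = 1 ∨ n = 2 ∨ n = 5 ∨ n = 7 ∨ n = 12)) :
    coeff n (pentagonalSeries ℤ) = 0 :=
  coeff_pentagonalSeries_eq_zero ℤ fun hc => h (pent_small hn hc)

theorem pent_vals : coeff 0 (pentagonalSeries ℤ) = 1 ∧ coeff 1 (pentagonalSeries ℤ) = -1 ∧
    coeff 2 (pentagonalSeries ℤ) = -1 ∧ coeff 5 (pentagonalSeries ℤ) = 1 ∧
    coeff 7 (pentagonalSeries ℤ) = 1 ∧ coeff 12 (pentagonalSeries ℤ) = -1 := by
  have e0 := coeff_pentagonalSeries_pentagonal ℤ 0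
  have e1 := coeff_pentagonalSeries_pentagonal ℤ 1
  have e2 := coeff_pentagonalSeries_pentagonal ℤ (-1)
  have e5 := coeff_pentagonalSeries_pentagonal ℤ 2
  have e7 := coeff_pentagonalSeries_pentagonal ℤ (-2)
  have e12 := coeff_pentagonalSeries_pentagonal ℤ 3
  have p0 : pentagonal 0 = 0 := rfl
  have p1 : pentagonal 1 = 1 := rfl
  have p2 : pentagonal (-1) = 2 := rfl
  have p5 : pentagonal 2 = 5 := rfl
  have p7 : pentagonal (-2) = 7 := rfl
  have p12 : pentagonal 3 = 12 := rfl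
  rw [p0] at e0; rw [p1] at e1; rw [p2] at e2; rw [p5] at e5; rw [p7] at e7; rw [p12] at e12
  refine ⟨by rw [e0]; rfl, by rw [e1]; rfl, by rw [e2]; rfl, by rw [e5]; rfl, by rw [e7]; rfl,
    by rw [e12]; rfl⟩

/-- the sum in the formula -/
noncomputable def pS (n : ℕ) : ℤ :=
  ∑ i ∈ Finset.range (n + 1), coeff i (pentagonalSeries ℤ) * 2 ^ (n - i)

theorem pS_succ (n : ℕ) : pS (n + 1) = 2 * pS n + coeff (n + 1) (pentagonalSeries ℤ) := by
  rw [pS, Finset.sum_range_succ, Nat.sub_self, pow_zero, mul_one, pS, Finset.mul_sum]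
  congr 1
  refine Finset.sum_congr rfl fun i hi => ?_
  have := Finset.mem_range.1 hi
  rw [show n + 1 - i = (n - i) + 1 by omega, pow_succ]
  ring

theorem pS_small : pS 0 = 1 ∧ pS 1 = 1 ∧ pS 2 = 1 ∧ pS 3 = 2 ∧ pS 4 = 4 ∧ pS 5 = 9 ∧ pS 6 = 18 ∧
    pS 7 = 37 ∧ pS 8 = 74 ∧ pS 9 = 148 ∧ pS 10 = 296 ∧ pS 11 = 592 ∧ pS 12 = 1183 := by
  obtain ⟨h0, h1, h2, h5, h7, h12⟩ := pent_vals
  have z3 := pent_zero_of 3 (by norm_num) (by norm_num)
  have z4 := pent_zero_of 4 (by norm_num) (by norm_num)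
  have z6 := pent_zero_of 6 (by norm_num) (by norm_num)
  have z8 := pent_zero_of 8 (by norm_num) (by norm_num)
  have z9 := pent_zero_of 9 (by norm_num) (by norm_num)
  have z10 := pent_zero_of 10 (by norm_num) (by norm_num)
  have z11 := pent_zero_of 11 (by norm_num) (by norm_num)
  have s0 : pS 0 = 1 := by simp [pS, h0]
  have s1 : pS 1 = 1 := by rw [pS_succ, s0, h1]; rfl
  have s2 : pS 2 = 1 := by rw [pS_succ, s1, h2]; rfl
  have s3 : pS 3 = 2 := by rw [pS_succ, s2, z3]; rfl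
  have s4 : pS 4 = 4 := by rw [pS_succ, s3, z4]; rfl
  have s5 : pS 5 = 9 := by rw [pS_succ, s4, h5]; rfl
  have s6 : pS 6 = 18 := by rw [pS_succ, s5, z6]; rfl
  have s7 : pS 7 = 37 := by rw [pS_succ, s6, h7]; rfl
  have s8 : pS 8 = 74 := by rw [pS_succ, s7, z8]; rfl
  have s9 : pS 9 = 148 := by rw [pS_succ, s8, z9]; rfl
  have s10 : pS 10 = 296 := by rw [pS_succ, s9, z10]; rfl
  have s11 : pS 11 = 592 := by rw [pS_succ, s10, z11]; rfl
  have s12 : pS 12 = 1183 := by rw [pS_succ, s11, h12]; rfl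
  exact ⟨s0, s1, s2, s3, s4, s5, s6, s7, s8, s9, s10, s11, s12⟩

theorem pS_le (m : ℕ) : pS (12 + m) + 1 ≤ 1184 * 2 ^ m := by
  induction m with
  | zero => rw [Nat.add_zero, pS_small.2.2.2.2.2.2.2.2.2.2.2.2]; norm_num
  | succ m ih =>
    rw [← Nat.add_assoc, pS_succ, pow_succ]
    have := (abs_le.1 (abs_pent_le (12 + m + 1))).2
    linarith

theorem rank_ge (n : ℕ) : 71 * 2 ^ n ≤ 100 * (finrank ℚ (YDS (n + 2)) + 2) := by
  have h := finrank_YDS n
  rw [show (∑ i ∈ Finset.range (n + 1), coeff i (pentagonalSeries ℤ) * 2 ^ (n - i)) = pS n from rfl]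
    at h
  have h1 := (abs_le.1 (abs_pent_le (n + 1))).2
  have h2 : 71 * (2 : ℤ) ^ n ≤ 100 * (finrank ℚ (YDS (n + 2)) + 2) := by
    rw [h]
    obtain ⟨s0, s1, s2, s3, s4, s5, s6, s7, s8, s9, s10, s11, s12⟩ := pS_small
    rcases Nat.lt_or_ge n 12 with hn | hn
    · interval_cases n <;> simp only [s0, s1, s2, s3, s4, s5, s6, s7, s8, s9, s10, s11] at * <;>
        norm_num at h1 ⊢ <;> linarith
    · obtain ⟨m, rfl⟩ := Nat.exists_eq_add_of_le hn
      have := pS_le m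
      rw [pow_add]
      have h3 : (1 : ℤ) ≤ 2 ^ m := one_le_pow₀ (by norm_num)
      nlinarith
  exact_mod_cast h2

end Pool.Agent.H65.MZ
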