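import Pool.Agent.H65.MZ.Stair
import Pool.Agent.H65.MZ.RankDim

/-! # The identity `reg (y ^ m * x φ(w)) = x φ(y ^ m * w)` -/

set_option autoImplicit false

namespace Pool.Agent.H65.MZ

open List Module

theorem hextW {f g : W →ₗ[ℚ] W} (h : ∀ w, f (Finsupp.single w 1) = g (Finsupp.single w 1)) :
    f = g := by
  refine Finsupp.lhom_ext fun l c => ?_
  have : (Finsupp.single l c : W) = c • Finsupp.single l 1 := by
    rw [Finsupp.smul_single, smul_eq_mul, mul_one]
  rw [this, map_smul, map_smul, h]

/-- `U g m` is the sum of the `y ^ i ш g j` with `i + j = m` -/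
noncomputable def U (g : ℕ → W) (m : ℕ) : W :=
  ∑ ij ∈ Finset.HasAntidiagonal.antidiagonal m, S ij.1 (g ij.2)

theorem U_zero (g : ℕ → W) : U g 0 = g 0 := by simp [U, S_zero]

theorem U_pre (a : Bool) (g : ℕ → W) (m : ℕ) : U (fun j => pre a (g j)) (m + 1) =
    pre a (U g (m + 1)) + pre true (U (fun j => pre a (g j)) m) := by
  rw [U, U, U, Finset.Nat.sum_antidiagonal_succ, Finset.Nat.sum_antidiagonal_succ]
  simp only [S_pre, S_zero, map_add, map_sum, Finset.sum_add_distrib]
  abel

theorem U_shift (g h k : ℕ → W) (h0 : g 0 = h 0) (hs : ∀ j, g (j + 1) = h (j + 1) + k j)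
    (m : ℕ) : U g (m + 1) = U h (m + 1) + U k m := by
  rw [U, U, U, Finset.Nat.sum_antidiagonal_succ', Finset.Nat.sum_antidiagonal_succ']
  simp only [h0, hs, map_add, Finset.sum_add_distrib]
  abel

theorem U_neg (g : ℕ → W) (m : ℕ) : U (fun j => - g j) m = - U g m := by
  rw [U, U, ← Finset.sum_neg_distrib]
  simp only [map_neg]

/-- `Ac c m` is the alternating sum of the `y ^ i c (m - i)` -/
noncomputable def Ac (c : ℕ → W) : ℕ → W
  | 0 => c 0
  | m + 1 => c (m + 1) - pre true (Ac c m)

/-- `Cw w m` is the coefficient of `u ^ m` in `Δ_u (w)`, where `Δ_u` is the automorphism with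
`x ↦ x (1 + u y)⁻¹`, `x + y ↦ x + y` -/
noncomputable def Cw : List Bool → ℕ → W
  | [], 0 => Finsupp.single [] 1
  | [], _ + 1 => 0
  | false :: w, m => pre false (Ac (Cw w) m)
  | true :: w, 0 => pre true (Cw w 0)
  | true :: w, m + 1 => pre true (Cw w (m + 1)) + pre false (pre true (Ac (Cw w) m))

theorem Cw_nil_zero : Cw [] 0 = Finsupp.single [] 1 := by rw [Cw]
theorem Cw_nil (m : ℕ) : Cw [] (m + 1) = 0 := by rw [Cw]
theorem Cw_false (w : List Bool) (m : ℕ) : Cw (false :: w) m = pre false (Ac (Cw w) m) := by
  rw [Cw]
theorem Cw_true_zero (w : List Bool) : Cw (true :: w) 0 = pre true (Cw w 0) := by rw [Cw]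
theorem Cw_true (w : List Bool) (m : ℕ) : Cw (true :: w) (m + 1) =
    pre true (Cw w (m + 1)) + pre false (pre true (Ac (Cw w) m)) := by rw [Cw]

theorem Cw_zero (w : List Bool) : Cw w 0 = Finsupp.single w 1 := by
  induction w with
  | nil => rw [Cw_nil_zero]
  | cons a w ih =>
    cases a
    · rw [Cw_false, Ac, ih, pre_single]
    · rw [Cw_true_zero, ih, pre_single]

section
variable (c : ℕ → W)

theorem U_b (m : ℕ) : U (fun j => pre true (Ac c j)) m = pre true (U c m) ∧
    U (Ac c) (m + 1) = U c (m + 1) - pre true (U c m) := by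
  have h1 : ∀ m, U (Ac c) (m + 1) = U c (m + 1) - U (fun j => pre true (Ac c j)) m := by
    intro m
    rw [U_shift (Ac c) c (fun j => - pre true (Ac c j)) rfl (fun j => by rw [Ac, sub_eq_add_neg]) m,
      U_neg, sub_eq_add_neg]
  induction m with
  | zero =>
    have h2 : U (fun j => pre true (Ac c j)) 0 = pre true (U c 0) := by
      rw [U_zero, U_zero]; rfl
    exact ⟨h2, by rw [h1, h2]⟩
  | succ m ih =>
    have h2 : U (fun j => pre true (Ac c j)) (m + 1) = pre true (U c (m + 1)) := by
      rw [U_pre, ih.2, ih.1, map_sub]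
      abel
    exact ⟨h2, by rw [h1, h2]⟩

theorem U_x (m : ℕ) : U (fun j => pre false (Ac c j)) (m + 1) = pre false (U c (m + 1)) -
    pre false (pre true (U c m)) + pre true (U (fun j => pre false (Ac c j)) m) := by
  rw [U_pre, (U_b c m).2, map_sub]

theorem U_xy (m : ℕ) : U (fun j => pre false (pre true (Ac c j))) (m + 1) =
    pre false (pre true (U c (m + 1))) + pre true (U (fun j => pre false (pre true (Ac c j))) m) := by
  rw [U_pre, (U_b c (m + 1)).1]

theorem U_y (g : ℕ → W) (h0 : g 0 = pre true (c 0))
    (hs : ∀ j, g (j + 1) = pre true (c (j + 1)) + pre false (pre true (Ac c j))) (m : ℕ) :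
    U g (m + 1) = pre true (U g m) + pre true (U c (m + 1)) + pre false (pre true (U c m)) := by
  rw [U_shift g (fun j => pre true (c j)) (fun j => pre false (pre true (Ac c j))) h0 hs m, U_pre]
  rcases m with _ | m
  · rw [U_zero, U_zero, U_zero, U_zero, h0]
    simp only [Ac]
    abel
  · rw [U_xy, U_shift g (fun j => pre true (c j)) (fun j => pre false (pre true (Ac c j))) h0 hs m,
      map_add]
    abel
end

/-- the block `x ^ k y` -/
def bl (k : ℕ) : List Bool := replicate k false ++ [true]

theorem blk_succ (k : ℕ) : blk (k + 1) = bl k := rfl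

theorem prew_bl_succ (k : ℕ) (f : W) : prew (bl (k + 1)) f = pre false (prew (bl k) f) := by
  rw [bl, replicate_succ, cons_append, prew_cons]; rfl

theorem prew_bl_zero (f : W) : prew (bl 0) f = pre true f := by
  rw [bl, replicate_zero, nil_append, prew_cons, prew_nil]

theorem U_block (w : List Bool) (k m : ℕ) : U (Cw (bl k ++ w)) (m + 1) =
    pre true (U (Cw (bl k ++ w)) m) + prew (bl k) (U (Cw w) (m + 1)) +
      prew (bl (k + 1)) (U (Cw w) m) := by
  induction k generalizing m with
  | zero =>
    have e : bl 0 ++ w = true :: w := rfl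
    have h := U_y (Cw w) (Cw (true :: w)) (Cw_true_zero w) (Cw_true w) m
    rw [e, prew_bl_succ, prew_bl_zero, prew_bl_zero, h]
  | succ k ih =>
    have e : Cw (bl (k + 1) ++ w) = fun j => pre false (Ac (Cw (bl k ++ w)) j) := by
      funext j
      exact Cw_false _ _
    rw [e, U_x, ih m, map_add, map_add]
    simp only [prew_bl_succ]
    generalize U (fun j => pre false (Ac (Cw (bl k ++ w)) j)) m = A
    generalize pre false (pre true (U (Cw (bl k ++ w)) m)) = B
    generalize pre false (prew (bl k) (U (Cw w) (m + 1))) = C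
    generalize pre false (pre false (prew (bl k) (U (Cw w) m))) = D
    abel

/-- the word of the composition `(a_1 + 1, ..., a_r + 1)` -/
def wd (l : List ℕ) : List Bool := word (l.map (· + 1))

theorem wd_nil : wd [] = [] := rfl

theorem wd_cons (a : ℕ) (l : List ℕ) : wd (a :: l) = bl a ++ wd l := by
  rw [wd, map_cons, word_cons']; rfl

/-- the stuffle product with `y ^ m` -/
noncomputable def St (m : ℕ) (l : List ℕ) : W :=
  total ((stuffles (replicate m 1) (l.map (· + 1))).map word)

theorem St_zero (l : List ℕ) : St 0 l = Finsupp.single (wd l) 1 := by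
  rw [St, replicate_zero, stuffles_nil, map_singleton, total_one]; rfl

theorem St_nil (m : ℕ) : St m [] = Finsupp.single (replicate m true) 1 := by
  rw [St, map_nil, stuffles_nil', map_singleton, total_one, word_replicate]

theorem St_cons (m a : ℕ) (l : List ℕ) : St (m + 1) (a :: l) =
    pre true (St m (a :: l)) + prew (bl a) (St (m + 1) l) + prew (bl (a + 1)) (St m l) := by
  rw [St, map_cons, replicate_succ, stuffles_cons, map_append, map_append, total_append,
    total_append, total_map_blk, total_map_blk, total_map_blk, ← replicate_succ,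
    add_comm 1 (a + 1), blk_succ, blk_succ, blk_succ, prew_bl_zero]
  rfl

theorem St_U (m : ℕ) : ∀ l, St m l = U (Cw (wd l)) m := by
  induction m with
  | zero => intro l; rw [St_zero, U_zero, Cw_zero]
  | succ m ihm =>
    intro l
    induction l with
    | nil =>
      rw [St_nil, wd_nil, U, Finset.Nat.sum_antidiagonal_succ']
      simp only [Cw_nil, map_zero, Finset.sum_const_zero, Cw_nil_zero, S_nil, add_zero]
    | cons a l ihl => rw [St_cons, wd_cons, U_block, ihm, ihm, ihl, wd_cons]

/-- the regularized double shuffle elements with `w_1 = y ^ m` -/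
theorem reg_dsh {m : ℕ} (hm : 1 ≤ m) (u : List Bool) (hu : InH0 (false :: u)) :
    reg (dsh (replicate m true) (false :: u)) = - Cw (false :: u) m := by
  obtain ⟨hl, he⟩ := adm_index hu
  have hl1 := hl.1
  obtain ⟨l, hl2⟩ : ∃ l : List ℕ, index 0 (false :: u) = l.map (· + 1) := by
    refine ⟨(index 0 (false :: u)).map (· - 1), ?_⟩
    rw [map_map]
    conv_lhs => rw [← map_id (index 0 (false :: u))]
    refine map_congr_left fun a ha => ?_
    have := hl1 a ha
    simp only [Function.comp, id]
    omega
  rw [dsh, map_sub, index_replicate, ← S_single, ← pre_single false u, reg_S hm, zero_sub,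
    hl2]
  have h1 : wd l = false :: u := by rw [wd, ← hl2, he]
  have h2 := St_U m l
  rw [St, h1] at h2
  rw [h2, U, map_sum, Finset.sum_eq_single (0, m)]
  · rw [S_zero, Cw_false, reg_pre]
  · rintro ⟨i, j⟩ h hne
    rw [Finset.HasAntidiagonal.mem_antidiagonal] at h
    rw [Cw_false, reg_S]
    by_contra hc
    apply hne
    have : i = 0 := by simp only at h hc ⊢; omega
    subst this
    simp at h
    rw [h]
  · intro h
    exact absurd (by simp) h

/-! ### the automorphism `φ` -/

/-- `φ (x) = x + y`, `φ (y) = - y` -/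
noncomputable def phiW : List Bool → W
  | [] => Finsupp.single [] 1
  | false :: w => pre false (phiW w) + pre true (phiW w)
  | true :: w => - pre true (phiW w)

/-- `φ` -/
noncomputable def phi : W →ₗ[ℚ] W := Finsupp.linearCombination ℚ phiW

theorem phi_single (w : List Bool) : phi (Finsupp.single w 1) = phiW w := by
  rw [phi, Finsupp.linearCombination_single, one_smul]

theorem phi_false (f : W) : phi (pre false f) = pre false (phi f) + pre true (phi f) := by
  have : phi ∘ₗ pre false = pre false ∘ₗ phi + pre true ∘ₗ phi := hextW fun w => by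
    simp only [LinearMap.comp_apply, LinearMap.add_apply, pre_single, phi_single, phiW]
  exact LinearMap.congr_fun this f

theorem phi_true (f : W) : phi (pre true f) = - pre true (phi f) := by
  have : phi ∘ₗ pre true = - (pre true ∘ₗ phi) := hextW fun w => by
    simp only [LinearMap.comp_apply, LinearMap.neg_apply, pre_single, phi_single, phiW]
  exact LinearMap.congr_fun this f

theorem phi_phi (f : W) : phi (phi f) = f := by
  have : phi ∘ₗ phi = LinearMap.id := hextW fun w => by
    rw [LinearMap.comp_apply, LinearMap.id_apply]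
    induction w with
    | nil => rw [phi_single, phiW, phi_single, phiW]
    | cons a w ih =>
      rw [phi_single] at ih ⊢
      cases a
      · rw [phiW, map_add, phi_false, phi_true, ih, pre_single]
        abel
      · rw [phiW, map_neg, phi_true, ih, neg_neg, pre_single]
  exact LinearMap.congr_fun this f

/-- the linear extension of `Cw` -/
noncomputable def Cl (m : ℕ) : W →ₗ[ℚ] W := Finsupp.linearCombination ℚ fun w => Cw w m

/-- the linear extension of `Ac (Cw w)` -/
noncomputable def Al (m : ℕ) : W →ₗ[ℚ] W := Finsupp.linearCombination ℚ fun w => Ac (Cw w) m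

theorem Cl_single (m : ℕ) (w : List Bool) : Cl m (Finsupp.single w 1) = Cw w m := by
  rw [Cl, Finsupp.linearCombination_single, one_smul]

theorem Al_single (m : ℕ) (w : List Bool) : Al m (Finsupp.single w 1) = Ac (Cw w) m := by
  rw [Al, Finsupp.linearCombination_single, one_smul]

theorem Al_zero (f : W) : Al 0 f = f := by
  have : Al 0 = LinearMap.id := hextW fun w => by
    rw [Al_single, Ac, Cw_zero]; rfl
  exact LinearMap.congr_fun this f

theorem Al_succ (m : ℕ) (f : W) : Al (m + 1) f = Cl (m + 1) f - pre true (Al m f) := by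
  have : Al (m + 1) = Cl (m + 1) - pre true ∘ₗ Al m := hextW fun w => by
    rw [LinearMap.sub_apply, LinearMap.comp_apply, Al_single, Al_single, Cl_single, Ac]
  exact LinearMap.congr_fun this f

theorem Cl_false (m : ℕ) (f : W) : Cl m (pre false f) = pre false (Al m f) := by
  have : Cl m ∘ₗ pre false = pre false ∘ₗ Al m := hextW fun w => by
    rw [LinearMap.comp_apply, LinearMap.comp_apply, pre_single, Cl_single, Cw_false, Al_single]
  exact LinearMap.congr_fun this f

theorem Cl_true (m : ℕ) (f : W) : Cl (m + 1) (pre true f) =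
    pre true (Cl (m + 1) f) + pre false (pre true (Al m f)) := by
  have : Cl (m + 1) ∘ₗ pre true = pre true ∘ₗ Cl (m + 1) + pre false ∘ₗ pre true ∘ₗ Al m :=
    hextW fun w => by
      simp only [LinearMap.comp_apply, LinearMap.add_apply]
      rw [pre_single, Cl_single, Cw_true, Al_single, Cl_single]
  exact LinearMap.congr_fun this f

/-- the multiplication by `z = x + y` -/
noncomputable def zz : W →ₗ[ℚ] W := pre false + pre true

/-- the multiplication by `z ^ k` -/
noncomputable def zk : ℕ → W →ₗ[ℚ] W
  | 0 => LinearMap.id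
  | k + 1 => zz ∘ₗ zk k

theorem Al_z (m : ℕ) (u : W) : Al (m + 1) (zz u) = zz (Al (m + 1) u) + zz (pre true (Al m u)) -
    pre true (Al m (zz u)) := by
  have h1 : Cl (m + 1) (zz u) = zz (Cl (m + 1) u) := by
    simp only [zz, LinearMap.add_apply, map_add, Cl_false, Cl_true, Al_succ, map_sub]
    abel
  have h2 : Cl (m + 1) u = Al (m + 1) u + pre true (Al m u) := by rw [Al_succ]; abel
  rw [Al_succ, h1, h2, map_add]

theorem Al_block (m : ℕ) (v : W) (k : ℕ) : Al (m + 1) (zk k (pre true v)) =
    - pre true (Al m (zk k (pre true v))) + zk k (pre true (Al (m + 1) v)) +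
      zk (k + 1) (pre true (Al m v)) := by
  induction k with
  | zero =>
    simp only [zk, LinearMap.id_apply, LinearMap.comp_apply]
    rw [Al_succ m (pre true v), Cl_true, Al_succ m v]
    simp only [zz, LinearMap.add_apply, map_sub]
    abel
  | succ k ih =>
    simp only [zk, LinearMap.comp_apply] at ih ⊢
    rw [Al_z, ih]
    simp only [map_add, map_neg]
    abel

/-- the embedding of the combinations of compositions into the combinations of words -/
noncomputable def om : QR.Q →ₗ[ℚ] W := Finsupp.lmapDomain ℚ ℚ wd

theorem om_single (l : List ℕ) (c : ℚ) : om (Finsupp.single l c) = Finsupp.single (wd l) c := by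
  simp [om, Finsupp.lmapDomain_apply, Finsupp.mapDomain_single]

theorem om_cn (a : ℕ) (f : QR.Q) : om (QR.cn a f) = prew (bl a) (om f) := by
  induction f using Finsupp.induction_linear with
  | zero => simp
  | add f g hf hg => simp only [map_add, hf, hg]
  | single l c => rw [QR.cn_single, om_single, om_single, prew_single, wd_cons]

theorem phi_bl (a : ℕ) (f : W) : phi (prew (bl a) f) = - zk a (pre true (phi f)) := by
  induction a with
  | zero => rw [prew_bl_zero, phi_true]; rfl
  | succ a ih =>
    rw [prew_bl_succ, phi_false, ih, zk, LinearMap.comp_apply, zz, LinearMap.add_apply, map_neg,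
      map_neg]
    abel

theorem Al_phi (m : ℕ) : ∀ l, Al m (phi (om (Finsupp.single l 1))) = phi (om (QR.E m l)) := by
  induction m with
  | zero => intro l; rw [Al_zero, QR.E_zero]
  | succ m ihm =>
    intro l
    induction l with
    | nil =>
      have h1 : phi (om (Finsupp.single [] 1)) = Finsupp.single [] 1 := by
        rw [om_single, wd_nil, phi_single, phiW]
      have h2 := ihm []
      rw [h1] at h2
      rw [h1, Al_succ, h2, Cl_single, Cw_nil, zero_sub, QR.E_nil, om_cn, prew_bl_zero, phi_true]
    | cons a l ihl =>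
      have h1 : phi (om (Finsupp.single (a :: l) 1)) =
          - zk a (pre true (phi (om (Finsupp.single l 1)))) := by
        rw [← QR.cn_single, om_cn, phi_bl]
      have h2 := ihm (a :: l)
      rw [h1, map_neg] at h2
      have h3 := ihm l
      rw [h1, map_neg, Al_block, ihl, h3, QR.E_cons]
      simp only [map_add, om_cn, phi_bl]
      rw [← h2]
      simp only [zk, LinearMap.id_apply, map_neg]
      abel

/-- the map `f ↦ x φ(f)` -/
noncomputable def Th : QR.Q →ₗ[ℚ] W := pre false ∘ₗ phi ∘ₗ om

theorem Th_apply (f : QR.Q) : Th f = pre false (phi (om f)) := rfl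

theorem Cl_Th (m : ℕ) (f : QR.Q) : Cl m (Th f) = Th (QR.El m f) := by
  have : Cl m ∘ₗ Th = Th ∘ₗ QR.El m := by
    refine Finsupp.lhom_ext fun l c => ?_
    have : (Finsupp.single l c : QR.Q) = c • Finsupp.single l 1 := by
      rw [Finsupp.smul_single, smul_eq_mul, mul_one]
    rw [this, map_smul, map_smul]
    congr 1
    rw [LinearMap.comp_apply, LinearMap.comp_apply, Th_apply, Cl_false, Al_phi, QR.El_single]
    rfl
  exact LinearMap.congr_fun this f

theorem wd_inj : Function.Injective wd := by
  intro k l h
  have h1 : ∀ l : List ℕ, ∀ a ∈ l.map (· + 1), 1 ≤ a := by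
    intro l a ha
    obtain ⟨b, -, rfl⟩ := mem_map.1 ha
    omega
  have := word_inj (h1 k) (h1 l) h
  exact (map_injective_iff.2 (fun a b h => by simpa using h)) this

theorem pre_inj (a : Bool) : Function.Injective (pre a) := by
  intro f g h
  exact Finsupp.mapDomain_injective (fun u v h => by simpa using h) h

theorem Th_inj : Function.Injective Th := by
  intro f g h
  rw [Th_apply, Th_apply] at h
  have h1 := congrArg phi (pre_inj _ h)
  rw [phi_phi, phi_phi] at h1
  exact Finsupp.mapDomain_injective wd_inj h1

end Pool.Agent.H65.MZ
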