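import Pool.Agent.H65.MZ.Span

/-! # Reduction of words modulo the finite double shuffle elements: the reduced words -/

set_option autoImplicit false

namespace Pool.Agent.H65.MZ

open List Module

theorem dsh_mem {u v s : List Bool} (h : dsh u v s ≠ 0) : s ∈ shuffles u v ∨
    s ∈ (stuffles (index 0 u) (index 0 v)).map word := by
  by_contra hc
  rw [not_or] at hc
  apply h
  rw [dsh_apply, count_eq_zero.2 hc.1, count_eq_zero.2 hc.2]
  simp

theorem inH1_cons {a : Bool} {u : List Bool} (h : InH1 (a :: u)) : InH1 u := by
  rcases h with h | h
  · simp at h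
  · cases u with
    | nil => exact Or.inl rfl
    | cons b u => right; simpa using h

theorem inH1_cons' {a : Bool} {u : List Bool} (hu : u ≠ []) (h : InH1 u) : InH1 (a :: u) := by
  cases u with
  | nil => exact absurd rfl hu
  | cons b u =>
    rcases h with h | h
    · simp at h
    · right; simpa using h

theorem shuffles_inH1 (u v : List Bool) : InH1 u → InH1 v → ∀ s ∈ shuffles u v, InH1 s := by
  induction u, v using shuffles.induct with
  | case1 v => intro _ hv s hs; rw [shuffles_nil, mem_singleton] at hs; subst hs; exact hv
  | case2 a u => intro hu _ s hs; rw [shuffles_nil', mem_singleton] at hs; subst hs; exact hu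
  | case3 a u b v ih1 ih2 =>
    intro hu hv s hs
    rcases mem_shuffles_cons.1 hs with ⟨s', h, rfl⟩ | ⟨s', h, rfl⟩
    · refine inH1_cons' ?_ (ih1 (inH1_cons hu) hv s' h)
      rintro rfl
      have := length_shuffles _ _ _ h
      simp at this
      try omega
    · refine inH1_cons' ?_ (ih2 hu (inH1_cons hv) s' h)
      rintro rfl
      have := length_shuffles _ _ _ h
      simp at this
      try omega

theorem word_inH1 (l : List ℕ) : InH1 (word l) := by
  induction l with
  | nil => exact Or.inl rfl
  | cons k l ih =>
    right
    rw [word_cons]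
    rcases ih with h | h
    · rw [h]; simp
    · cases hw : word l with
      | nil => simp
      | cons b w =>
        rw [hw] at h
        simp only [getLast?_append, getLast?_cons_cons, h]
        rfl

theorem word_inH0 {k : ℕ} (hk : 2 ≤ k) (l : List ℕ) : InH0 (word (k :: l)) := by
  right
  constructor
  · rw [word_cons, rep_cons (k - 1) (by omega)]; rfl
  · rcases word_inH1 (k :: l) with h | h
    · rw [word_cons] at h; simp at h
    · exact h

theorem inH0_inH1 {w : List Bool} (h : InH0 w) : InH1 w := by
  rcases h with h | h
  · exact Or.inl h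
  · exact Or.inr h.2

theorem inH0_of {s : List Bool} (h : InH1 s) (h' : s.head? = some false) : InH0 s := by
  rcases h with h | h
  · rw [h] at h'; simp at h'
  · exact Or.inr ⟨h', h⟩

theorem dsh_inH0 {i j : ℕ} {k l : List ℕ} (hi : 2 ≤ i) (hj : 2 ≤ j) (hk : ∀ a ∈ k, 1 ≤ a)
    (hl : ∀ a ∈ l, 1 ≤ a) {s : List Bool} (h : dsh (word (i :: k)) (word (j :: l)) s ≠ 0) :
    InH0 s ∧ s.length = (word (i :: k)).length + (word (j :: l)).length := by
  have hu : ∀ b ∈ i :: k, 1 ≤ b := by
    intro b hb
    rcases mem_cons.1 hb with h | h
    · omega
    · exact hk b h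
  have hv : ∀ b ∈ j :: l, 1 ≤ b := by
    intro b hb
    rcases mem_cons.1 hb with h | h
    · omega
    · exact hl b h
  rcases dsh_mem h with hm | hm
  · refine ⟨inH0_of (shuffles_inH1 _ _ (word_inH1 _) (word_inH1 _) s hm) ?_,
      length_shuffles _ _ s hm⟩
    rw [word_cons, word_cons, rep_cons (i - 1) (by omega), rep_cons (j - 1) (by omega)] at hm
    rcases mem_shuffles_cons.1 hm with ⟨s', _, rfl⟩ | ⟨s', _, rfl⟩ <;> rfl
  · rw [index_word _ hu, index_word _ hv, mem_map] at hm
    obtain ⟨m, hm, rfl⟩ := hm
    have hp := pos_stuffles _ _ hu hv m hm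
    refine ⟨?_, by rw [length_word m hp, sum_stuffles _ _ m hm, length_word _ hu, length_word _ hv]⟩
    rw [stuffles_cons, mem_append, mem_append, mem_map, mem_map, mem_map] at hm
    rcases hm with (⟨n, hn, rfl⟩ | ⟨n, hn, rfl⟩) | ⟨n, hn, rfl⟩
    · exact word_inH0 hi n
    · exact word_inH0 hj n
    · exact word_inH0 (by omega) n

/-- the words which are leading words of double shuffle elements by `leading` -/
def Good (s : List Bool) : Prop := ∃ (K l : List ℕ) (a M : ℕ), (∀ k ∈ K, 1 ≤ k ∧ k ≤ M) ∧ 1 ≤ a ∧
  a < M ∧ (∀ k ∈ l, 1 ≤ k) ∧ (K ≠ [] ∨ 2 ≤ a) ∧ s = word (K ++ (a + 1) :: M :: l)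

theorem mem_of_support {S : Submodule ℚ W} {g : W} (h : ∀ t, g t ≠ 0 → Finsupp.single t 1 ∈ S) :
    g ∈ S := by
  rw [← Finsupp.sum_single g]
  refine Submodule.sum_mem _ fun t ht => ?_
  have : (Finsupp.single t (g t) : W) = g t • Finsupp.single t 1 := by simp
  rw [this]
  exact Submodule.smul_mem _ _ (h t (Finsupp.mem_support_iff.1 ht))

theorem good_mem {s : List Bool} (hs : InH0 s) (hg : Good s) {S : Submodule ℚ W}
    (hS : FDS s.length ≤ S)
    (ih : ∀ t, InH0 t → t.length = s.length → key t < key s → Finsupp.single t 1 ∈ S) :
    Finsupp.single s (1 : ℚ) ∈ S := by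
  obtain ⟨K, l, a, M, hK, ha, haM, hl, hKa, rfl⟩ := hg
  obtain ⟨hne, hlt⟩ := leading hK ha haM hl
  set lam := word (K ++ (a + 1) :: M :: l) with hlam
  -- the first index is at least two
  obtain ⟨i, k, hik, hi, hk⟩ : ∃ i k, K ++ [a] = i :: k ∧ 2 ≤ i ∧ ∀ b ∈ k, 1 ≤ b := by
    cases K with
    | nil =>
      refine ⟨a, [], rfl, ?_, by simp⟩
      rcases hKa with h | h
      · exact absurd rfl h
      · exact h
    | cons i K =>
      refine ⟨i, K ++ [a], rfl, ?_, ?_⟩
      · by_contra hc
        have h1 := (hK i (by simp)).1
        have hi1 : i = 1 := by omega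
        subst hi1
        rcases hs with h | h
        · rw [hlam, cons_append, word_cons] at h; simp at h
        · have := h.1
          rw [hlam, cons_append, word_cons] at this
          simp at this
      · intro b hb
        rcases mem_append.1 hb with h | h
        · exact (hK b (by simp [h])).1
        · rw [mem_singleton] at h; omega
  have hu : ∀ b ∈ K ++ [a], 1 ≤ b := by
    rw [hik]
    intro b hb
    rcases mem_cons.1 hb with h | h
    · omega
    · exact hk b h
  have hv : ∀ b ∈ (M + 1) :: l, 1 ≤ b := by
    intro b hb
    rcases mem_cons.1 hb with h | h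
    · omega
    · exact hl b h
  have hlp : ∀ b ∈ K ++ (a + 1) :: M :: l, 1 ≤ b := by
    intro b hb
    rcases mem_append.1 hb with h | h
    · exact (hK b h).1
    · rcases mem_cons.1 h with h | h
      · omega
      · rcases mem_cons.1 h with h | h
        · omega
        · exact hl b h
  have hlen : (word (K ++ [a])).length + (word ((M + 1) :: l)).length = lam.length := by
    rw [hlam, length_word _ hlp, length_word _ hu, length_word _ hv]
    simp
    omega
  set f := dsh (word (K ++ [a])) (word ((M + 1) :: l)) with hf
  have hfS : f ∈ S := by
    apply hS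
    refine Submodule.subset_span ⟨_, _, ?_, word_inH0 (by omega) l, hlen, rfl⟩
    rw [hik]
    exact word_inH0 hi k
  have he : Finsupp.erase lam f ∈ S := by
    refine mem_of_support fun t ht => ?_
    have htl : t ≠ lam := by
      rintro rfl
      simp at ht
    have hft : f t ≠ 0 := by rwa [Finsupp.erase_ne htl] at ht
    have h1 := hft
    rw [hf, hik] at h1
    have h2 := dsh_inH0 hi (by omega) hk hl h1
    refine ih t h2.1 ?_ (hlt t htl hft)
    rw [h2.2, ← hik, hlen]
  have hsum : f lam • (Finsupp.single lam 1 : W) = f - Finsupp.erase lam f := by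
    rw [Finsupp.smul_single, smul_eq_mul, mul_one, eq_sub_iff_add_eq, Finsupp.single_add_erase]
  have h3 : f lam • (Finsupp.single lam 1 : W) ∈ S := by
    rw [hsum]
    exact Submodule.sub_mem _ hfS he
  exact (Submodule.smul_mem_iff _ hne).1 h3

/-- reading a word: `m` is the length of the longest run of letters `x` up to now, `c` the length
of the current run, and `e` is false if the block before the current run is at least `y_2` -/
def bad : ℕ → ℕ → Bool → List Bool → Bool
  | _, _, _, [] => true
  | m, c, e, false :: l => if c < m then bad m (c + 1) e l else (e && bad (m + 1) (m + 1) true l)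
  | m, c, _, true :: l => bad m 0 (c == 0) l

theorem exists_word (l : List Bool) : ∀ c, l.getLast? = some true →
    ∃ (M : ℕ) (l' : List ℕ), c + 1 ≤ M ∧ (∀ k ∈ l', 1 ≤ k) ∧
      replicate c false ++ l = word (M :: l') := by
  induction l with
  | nil => intro c h; simp at h
  | cons a l ih =>
    intro c h
    cases a with
    | true =>
      cases l with
      | nil => exact ⟨c + 1, [], le_rfl, by simp, by rw [word_one]; simp⟩
      | cons b l =>
        obtain ⟨M, l', hM, hl', he⟩ := ih 0 (by simpa using h)
        refine ⟨c + 1, M :: l', le_rfl, ?_, ?_⟩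
        · intro k hk
          rcases mem_cons.1 hk with rfl | hk
          · omega
          · exact hl' k hk
        · rw [word_cons, ← he, Nat.add_sub_cancel]
          simp
    | false =>
      cases l with
      | nil => simp at h
      | cons b l =>
        obtain ⟨M, l', hM, hl', he⟩ := ih (c + 1) (by simpa using h)
        refine ⟨M, l', by omega, hl', ?_⟩
        rw [← he, replicate_succ']
        simp

theorem good_of_bad (r : List Bool) : ∀ (K : List ℕ) (m c : ℕ) (e : Bool),
    (∀ k ∈ K, 1 ≤ k ∧ k ≤ m + 1) → c ≤ m → (K ≠ [] ∨ 2 ≤ c) →
    (e = false → ∃ K' a, K = K' ++ [a + 1] ∧ 1 ≤ a ∧ (K' ≠ [] ∨ 2 ≤ a)) →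
    (r = [] ∨ r.getLast? = some true) → bad m c e r = false →
    Good (word K ++ (replicate c false ++ r)) := by
  induction r with
  | nil => intro K m c e _ _ _ _ _ h; simp [bad] at h
  | cons x r ih =>
    intro K m c e hK hc hKc he hr hb
    have hr' : r = [] ∨ r.getLast? = some true := by
      cases r with
      | nil => exact Or.inl rfl
      | cons b r => right; simpa using hr
    cases x with
    | false =>
      have hrn : (false :: r).getLast? = some true := by
        rcases hr with h | h
        · simp at h
        · exact h
      rw [bad] at hb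
      split_ifs at hb with hcm
      · have := ih K m (c + 1) e hK (by omega) (hKc.imp id fun h => by omega) he hr' hb
        rwa [replicate_succ', append_assoc] at this
      · have hcm' : c = m := by omega
        subst hcm'
        cases e with
        | true =>
          rw [Bool.true_and] at hb
          have := ih K (c + 1) (c + 1) true (fun k hk => ⟨(hK k hk).1, by have := (hK k hk).2; omega⟩)
            le_rfl (hKc.imp id fun h => by omega) (by simp) hr' hb
          rwa [replicate_succ', append_assoc] at this
        | false =>
          obtain ⟨K', a, hK', ha, hKa⟩ := he rfl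
          have hrl : r.getLast? = some true := by
            rcases hr' with h | h
            · subst h; simp at hrn
            · exact h
          obtain ⟨M, l', hM, hl', hw⟩ := exists_word r (c + 1) hrl
          have hac := (hK (a + 1) (by rw [hK']; simp)).2
          refine ⟨K', l', a, M, ?_, ha, by omega, hl', hKa, ?_⟩
          · intro k hk
            have := hK k (by rw [hK']; simp [hk])
            omega
          · have h5 : replicate c false ++ false :: r = replicate (c + 1) false ++ r := by
              rw [replicate_succ']; simp
            rw [h5, hw, hK', ← word_append]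
            simp
    | true =>
      rw [bad] at hb
      have := ih (K ++ [c + 1]) m 0 (c == 0) ?_ (Nat.zero_le _) (Or.inl (by simp)) ?_ hr' hb
      · rwa [word_append, word_one, Nat.add_sub_cancel, replicate_zero, nil_append, append_assoc,
          append_assoc, singleton_append] at this
      · intro k hk
        rcases mem_append.1 hk with h | h
        · exact hK k h
        · rw [mem_singleton] at h; omega
      · intro h
        have hc0 : c ≠ 0 := by simpa using h
        refine ⟨K, c, rfl, by omega, ?_⟩
        rcases hKc with h | h
        · exact Or.inl h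
        · exact Or.inr h

/-- all words of length `n` -/
def words : ℕ → List (List Bool)
  | 0 => [[]]
  | n + 1 => (words n).map (false :: ·) ++ (words n).map (true :: ·)

theorem mem_words : ∀ {n : ℕ} {w : List Bool}, w.length = n → w ∈ words n
  | 0, w, h => by
    rw [length_eq_zero_iff] at h
    simp [words, h]
  | n + 1, [], h => by simp at h
  | n + 1, false :: w, h => by
    rw [words, mem_append, mem_map]
    exact Or.inl ⟨w, mem_words (by simpa using h), rfl⟩
  | n + 1, true :: w, h => by
    rw [words, mem_append, mem_map, mem_map]
    exact Or.inr ⟨w, mem_words (by simpa using h), rfl⟩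

/-- the reduced words of length `n + 2` -/
def reduced (n : ℕ) : List (List Bool) :=
  ((words n).filter (bad 1 0 true)).map ([false, true] ++ ·) ++
    ((words n).filter (bad 2 2 true)).map ([false, false] ++ ·)

theorem reduced_or_good {n : ℕ} {s : List Bool} (hs : InH0 s) (hn : s.length = n + 2) :
    s ∈ reduced n ∨ Good s := by
  rcases hs with h | ⟨h1, h2⟩
  · rw [h] at hn; simp at hn
  · rcases s with _ | ⟨a, _ | ⟨b, r⟩⟩
    · simp at hn
    · simp at hn
    · simp only [head?_cons, Option.some.injEq] at h1
      subst h1
      have hr : r.length = n := by simpa using hn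
      have hr' : r = [] ∨ r.getLast? = some true := by
        cases r with
        | nil => exact Or.inl rfl
        | cons c r => right; simpa using h2
      cases b with
      | true =>
        cases hb : bad 1 0 true r with
        | true =>
          left
          rw [reduced, mem_append, mem_map]
          exact Or.inl ⟨r, mem_filter.2 ⟨mem_words hr, hb⟩, rfl⟩
        | false =>
          right
          have := good_of_bad r [2] 1 0 true (by simp) (by omega) (by simp) (by simp) hr' hb
          exact this
      | false =>
        cases hb : bad 2 2 true r with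
        | true =>
          left
          rw [reduced, mem_append, mem_map, mem_map]
          exact Or.inr ⟨r, mem_filter.2 ⟨mem_words hr, hb⟩, rfl⟩
        | false =>
          right
          have := good_of_bad r [] 2 2 true (by simp) le_rfl (Or.inr le_rfl) (by simp) hr' hb
          exact this

/-- the span of the reduced words -/
noncomputable def Red (n : ℕ) : Submodule ℚ W :=
  Submodule.span ℚ (((reduced n).map fun s => (Finsupp.single s 1 : W)).toFinset : Set W)

theorem word_mem (n : ℕ) : ∀ (N : ℕ) (s : List Bool), InH0 s → s.length = n + 2 → key s < N →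
    (Finsupp.single s 1 : W) ∈ FDS (n + 2) ⊔ Red n := by
  intro N
  induction N with
  | zero => intro s _ _ h; omega
  | succ N ih =>
    intro s hs hn hk
    rcases reduced_or_good hs hn with h | h
    · refine Submodule.mem_sup_right (Submodule.subset_span ?_)
      rw [Finset.mem_coe, mem_toFinset, mem_map]
      exact ⟨s, h, rfl⟩
    · refine good_mem hs h (by rw [hn]; exact le_sup_left) fun t ht htl hts => ?_
      exact ih t ht (by rw [htl, hn]) (by omega)

theorem H0_le (n : ℕ) : H0 (n + 2) ≤ FDS (n + 2) ⊔ Red n := by
  rw [H0, Submodule.span_le]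
  rintro f ⟨w, hw, hl, rfl⟩
  exact word_mem n (key w + 1) w hw hl (by omega)

theorem finrank_red (n : ℕ) : finrank ℚ (Red n) ≤ (reduced n).length := by
  refine (finrank_span_finset_le_card _).trans ?_
  refine (toFinset_card_le _).trans ?_
  rw [length_map]

end Pool.Agent.H65.MZ
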