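import Pool.Agent.H65.MZ.Stuf

/-! # Reduction of words modulo the finite double shuffle elements -/

set_option autoImplicit false

namespace Pool.Agent.H65.MZ

open List Module

theorem total_apply (L : List (List Bool)) (s : List Bool) : total L s = (L.count s : ℚ) := by
  induction L with
  | nil => simp [total]
  | cons w L ih =>
    have : total (w :: L) = Finsupp.single w 1 + total L := by simp [total]
    rw [this, Finsupp.add_apply, ih, Finsupp.single_apply, count_cons]
    by_cases h : w = s
    · simp [h, add_comm]
    · simp [h]

theorem dsh_apply (u v s : List Bool) : dsh u v s = ((shuffles u v).count s : ℚ) -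
    (((stuffles (index 0 u) (index 0 v)).map word).count s : ℚ) := by
  rw [dsh, Finsupp.sub_apply, total_apply, total_apply]

theorem sum_blk (k : ℕ) (hk : 1 ≤ k) : (blk k).length = k := by
  rw [blk]; simp; omega

theorem length_word (l : List ℕ) (hl : ∀ a ∈ l, 1 ≤ a) : (word l).length = l.sum := by
  induction l with
  | nil => rfl
  | cons k l ih =>
    rw [word_cons', length_append, sum_blk k (hl k (by simp)), ih fun a ha => hl a (by simp [ha]),
      sum_cons]

/-- the order of the words: first the depth, then the lexicographic order -/
def key (s : List Bool) : ℕ := s.count true * 2 ^ s.length + val s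

theorem key_lt_of_depth {s t : List Bool} (hl : s.length = t.length)
    (h : s.count true < t.count true) : key s < key t := by
  have h1 := val_lt s
  rw [key, key, ← hl]
  have : (s.count true + 1) * 2 ^ s.length ≤ t.count true * 2 ^ s.length :=
    Nat.mul_le_mul_right _ h
  rw [add_mul, one_mul] at this
  omega

theorem key_lt_of_val {s t : List Bool} (hl : s.length = t.length)
    (h : s.count true = t.count true) (hv : val s < val t) : key s < key t := by
  rw [key, key, ← hl, h]
  omega

/-- **the leading word of a double shuffle element** -/
theorem leading {K l : List ℕ} {a M : ℕ} (hK : ∀ k ∈ K, 1 ≤ k ∧ k ≤ M) (ha : 1 ≤ a)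
    (haM : a < M) (hl : ∀ k ∈ l, 1 ≤ k) :
    dsh (word (K ++ [a])) (word ((M + 1) :: l)) (word (K ++ (a + 1) :: M :: l)) ≠ 0 ∧
    ∀ s, s ≠ word (K ++ (a + 1) :: M :: l) →
      dsh (word (K ++ [a])) (word ((M + 1) :: l)) s ≠ 0 →
      key s < key (word (K ++ (a + 1) :: M :: l)) := by
  set lam := word (K ++ (a + 1) :: M :: l) with hlam
  have hu : ∀ b ∈ K ++ [a], 1 ≤ b := by
    intro b hb
    rcases mem_append.1 hb with h | h
    · exact (hK b h).1
    · rw [mem_singleton] at h; omega
  have hv : ∀ b ∈ (M + 1) :: l, 1 ≤ b := by
    intro b hb
    rcases mem_cons.1 hb with h | h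
    · omega
    · exact hl b h
  have hlp : ∀ b ∈ K ++ (a + 1) :: M :: l, 1 ≤ b := by
    intro b hb
    rcases mem_append.1 hb with h | h
    · exact (hK b h).1
    · rcases mem_cons.1 h with h | h
      · omega
      · rcases mem_cons.1 h with h | h
        · omega
        · exact hl b h
  have hv' : word ((M + 1) :: l) = replicate M false ++ (true :: word l) := by
    rw [word_cons, Nat.add_sub_cancel]
  have hl' : lam = word (K ++ [a + 1]) ++ (replicate (M - 1) false ++ (true :: word l)) := by
    rw [hlam, ← word_cons, ← word_append]
    simp
  -- the stuffle product does not contain `lam`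
  have hst : lam ∉ (stuffles (index 0 (word (K ++ [a]))) (index 0 (word ((M + 1) :: l)))).map word := by
    rw [index_word _ hu, index_word _ hv, mem_map]
    rintro ⟨m, hm, hml⟩
    have hmp := pos_stuffles _ _ hu hv m hm
    have := word_inj hmp hlp hml
    have hs := ssq_stuffles _ _ m hm (by rw [this]; simp; omega)
    rw [this] at hs
    simp only [ssq_append, ssq_cons] at hs
    have e : ssq [] = 0 := rfl
    rw [e] at hs
    nlinarith
  -- the shuffle product contains `lam`
  have hsh : lam ∈ shuffles (word (K ++ [a])) (word ((M + 1) :: l)) := by
    rw [hl', hv', word_append, word_append, word_one, word_one, Nat.add_sub_cancel]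
    have h0 := sub_left (word K ++ replicate (a - 1) false) [true] (replicate M false ++ true :: word l)
    rw [append_assoc] at h0
    apply h0.subset
    rw [mem_map]
    refine ⟨false :: true :: (replicate (M - 1) false ++ true :: word l), ?_, ?_⟩
    · rw [rep_cons M (by omega), mem_shuffles_cons]
      right
      refine ⟨_, ?_, rfl⟩
      rw [rep_cons (M - 1) (by omega), mem_shuffles_cons]
      left
      refine ⟨_, ?_, rfl⟩
      rw [shuffles_nil, mem_singleton]
    · have : replicate a false = replicate (a - 1) false ++ [false] := by
        conv_lhs => rw [← Nat.sub_add_cancel ha, replicate_succ']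
      rw [this]
      simp
  have hcnt : lam.count true = (K ++ [a]).length + ((M + 1) :: l).length := by
    rw [hlam, count_word]
    simp
    omega
  have hlen : lam.length = (word (K ++ [a])).length + (word ((M + 1) :: l)).length := by
    rw [hlam, length_word _ hlp, length_word _ hu, length_word _ hv]
    simp
    omega
  constructor
  · rw [dsh_apply, count_eq_zero.2 hst, Nat.cast_zero, sub_zero]
    exact_mod_cast (count_pos_iff.2 hsh).ne'
  · intro s hs h
    have hmem : s ∈ shuffles (word (K ++ [a])) (word ((M + 1) :: l)) ∨
        s ∈ (stuffles (index 0 (word (K ++ [a]))) (index 0 (word ((M + 1) :: l)))).map word := by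
      by_contra hc
      rw [not_or] at hc
      apply h
      rw [dsh_apply, count_eq_zero.2 hc.1, count_eq_zero.2 hc.2]
      simp
    have hsl : s.length = lam.length ∧ s.count true ≤ lam.count true := by
      rcases hmem with hm | hm
      · rw [length_shuffles _ _ s hm, count_shuffles _ _ s hm, hlen, hcnt, count_word, count_word]
        exact ⟨rfl, le_rfl⟩
      · rw [index_word _ hu, index_word _ hv, mem_map] at hm
        obtain ⟨m, hm, rfl⟩ := hm
        rw [count_word, hcnt]
        refine ⟨?_, length_stuffles _ _ m hm⟩
        rw [length_word m (pos_stuffles _ _ hu hv m hm), sum_stuffles _ _ m hm, hlen,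
          length_word _ hu, length_word _ hv]
    rcases hsl.2.lt_or_eq with hd | hd
    · exact key_lt_of_depth hsl.1 hd
    · -- the depth is maximal
      have hle := count_le (K ++ [a]) ((M + 1) :: l) s (by rw [hd, hcnt])
      have hs1 : s ∈ shuffles (word (K ++ [a])) (word ((M + 1) :: l)) := by
        rcases hmem with hm | hm
        · exact hm
        · rw [index_word _ hu, index_word _ hv] at hm
          exact count_pos_iff.1 ((count_pos_iff.2 hm).trans_le hle)
      refine key_lt_of_val hsl.1 hd ?_
      rw [hv'] at hs1
      rcases claimB ha haM (true :: word l) K (fun k hk => (hK k hk).2) s hs1 with h' | h'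
      · exfalso
        apply h
        rw [← hv'] at h'
        rw [dsh_apply, index_word _ hu, index_word _ hv]
        have h1 : (shuffles (word (K ++ [a])) (word ((M + 1) :: l))).count s = 1 := by
          rw [h', hv']
          apply countA (by omega)
          intro k hk
          rcases mem_append.1 hk with h | h
          · exact (hK k h).2
          · rw [mem_singleton] at h; omega
        have h2 : 1 ≤ ((stuffles (K ++ [a]) ((M + 1) :: l)).map word).count s := by
          rw [Nat.one_le_iff_ne_zero, ← Nat.pos_iff_ne_zero, count_pos_iff, mem_map]
          exact ⟨_, append_mem_stuffles _ _, by rw [h', word_append]⟩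
        have h3 : ((stuffles (K ++ [a]) ((M + 1) :: l)).map word).count s = 1 := by omega
        rw [h1, h3]
        simp
      · rw [← hl'] at h'
        rcases h'.lt_or_eq with h'' | h''
        · exact h''
        · exact absurd (val_inj hsl.1 h'') hs

end Pool.Agent.H65.MZ
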