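import Pool.Agent.H65.MZ.Defs

/-! # Staircase words: definitions -/

set_option autoImplicit false

namespace Pool.Agent.H65.MZ

/-- the word `x y ^ b_1 x y ^ b_2 ... x y ^ b_N` of the list `[b_1, ..., b_N]` -/
def blocks : List ℕ → List Bool
  | [] => []
  | b :: l => false :: (List.replicate b true ++ blocks l)

/-- `[b_1, ..., b_N]` is a staircase: `N ≥ 1`, `b_i ≤ i - 1` for `i < N`, and `1 ≤ b_N ≤ N` -/
def IsStair (b : List ℕ) : Prop := ∃ (l : List ℕ) (c : ℕ), b = l ++ [c] ∧
  (∀ (i : ℕ) (h : i < l.length), l[i] ≤ i) ∧ 1 ≤ c ∧ c ≤ l.length + 1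

/-- the span of the staircase words `x y ^ b_1 ... x y ^ b_N` of weight `p` -/
noncomputable def Stair (p : ℕ) : Submodule ℚ W :=
  Submodule.span ℚ {f | ∃ b, IsStair b ∧ b.length + b.sum = p ∧ f = Finsupp.single (blocks b) 1}

/-- the span of the regularized double shuffle elements `reg (w_1 ш w_0 - w_1 * w_0)` of weight `p`
with `w_1 = y ^ m`, `m ≥ 1` -/
noncomputable def YDS (p : ℕ) : Submodule ℚ W :=
  Submodule.span ℚ {f | ∃ m v, 1 ≤ m ∧ InH0 v ∧ m + v.length = p ∧
    f = reg (dsh (List.replicate m true) v)}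

/-- the span of the admissible words of weight `p` with less than `d` letters `y`, that is, of depth
less than `d` -/
noncomputable def Lo (p d : ℕ) : Submodule ℚ W :=
  Submodule.span ℚ {f | ∃ w, InH0 w ∧ w.length = p ∧ w.count true < d ∧ f = Finsupp.single w 1}

/-- the span of the admissible words of weight `p` and of depth at most `p + 1 - √(2 p)` -/
noncomputable def Shallow (p : ℕ) : Submodule ℚ W :=
  Submodule.span ℚ {f | ∃ w, InH0 w ∧ w.length = p ∧
    (w.count true : ℝ) ≤ p + 1 - Real.sqrt (2 * p) ∧ f = Finsupp.single w 1}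

end Pool.Agent.H65.MZ
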