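import Pool.Agent.H65.MZ.Lead

/-! # Comparison of the shuffle product and the stuffle product in the highest depth -/

set_option autoImplicit false

namespace Pool.Agent.H65.MZ

open List

theorem stuffles_nil (l : List ℕ) : stuffles [] l = [l] := by rw [stuffles]

theorem stuffles_nil' (l : List ℕ) : stuffles l [] = [l] := by
  cases l <;> rw [stuffles]

theorem stuffles_cons (i j : ℕ) (k l : List ℕ) : stuffles (i :: k) (j :: l) =
    (stuffles k (j :: l)).map (i :: ·) ++ (stuffles (i :: k) l).map (j :: ·) ++
      (stuffles k l).map ((i + j) :: ·) := by rw [stuffles]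

theorem sub_left (a u v : List Bool) : ((shuffles u v).map (a ++ ·)) <+ shuffles (a ++ u) v := by
  induction a with
  | nil => simp
  | cons x a ih =>
    cases v with
    | nil => simp [shuffles_nil']
    | cons b v =>
      rw [cons_append, shuffles_cons]
      refine Sublist.trans ?_ (sublist_append_left _ _)
      have : (shuffles u (b :: v)).map ((x :: a) ++ ·) =
          ((shuffles u (b :: v)).map (a ++ ·)).map (x :: ·) := by
        rw [map_map]; rfl
      rw [this]
      exact ih.map _

theorem sub_right (b u v : List Bool) : ((shuffles u v).map (b ++ ·)) <+ shuffles u (b ++ v) := by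
  induction b with
  | nil => simp
  | cons x b ih =>
    cases u with
    | nil => simp [shuffles_nil]
    | cons a u =>
      rw [cons_append, shuffles_cons]
      refine Sublist.trans ?_ (sublist_append_right _ _)
      have : (shuffles (a :: u) v).map ((x :: b) ++ ·) =
          ((shuffles (a :: u) v).map (b ++ ·)).map (x :: ·) := by
        rw [map_map]; rfl
      rw [this]
      exact ih.map _

theorem sub_both (x y : Bool) (a b u v : List Bool) :
    ((shuffles u ((y :: b) ++ v)).map ((x :: a) ++ ·)) ++
      ((shuffles ((x :: a) ++ u) v).map ((y :: b) ++ ·)) <+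
      shuffles ((x :: a) ++ u) ((y :: b) ++ v) := by
  rw [cons_append, cons_append, shuffles_cons]
  refine Sublist.append ?_ ?_
  · have : (shuffles u (y :: (b ++ v))).map ((x :: a) ++ ·) =
        ((shuffles u (y :: (b ++ v))).map (a ++ ·)).map (x :: ·) := by
      rw [map_map]; rfl
    rw [this]
    exact (sub_left a u _).map _
  · have : (shuffles (x :: (a ++ u)) v).map ((y :: b) ++ ·) =
        ((shuffles (x :: (a ++ u)) v).map (b ++ ·)).map (y :: ·) := by
      rw [map_map]; rfl
    rw [this]
    exact (sub_right b _ v).map _

/-- the block `y_k = x ^ (k - 1) y` -/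
def blk (k : ℕ) : List Bool := replicate (k - 1) false ++ [true]

theorem word_cons' (k : ℕ) (l : List ℕ) : word (k :: l) = blk k ++ word l := by
  rw [word_cons, blk, append_assoc]; rfl

theorem blk_cons (k : ℕ) : ∃ x a, blk k = x :: a := by
  cases h : blk k with
  | nil => simp [blk] at h
  | cons x a => exact ⟨x, a, rfl⟩

theorem sub_blk (i j : ℕ) (k l : List ℕ) :
    ((shuffles (word k) (word (j :: l))).map (blk i ++ ·)) ++
      ((shuffles (word (i :: k)) (word l)).map (blk j ++ ·)) <+
      shuffles (word (i :: k)) (word (j :: l)) := by
  rw [word_cons', word_cons']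
  obtain ⟨x, a, ha⟩ := blk_cons i
  obtain ⟨y, b, hb⟩ := blk_cons j
  rw [ha, hb]
  exact sub_both x y a b _ _

theorem count_word (l : List ℕ) : (word l).count true = l.length := by
  induction l with
  | nil => rfl
  | cons k l ih =>
    rw [word_cons, count_append, count_cons, ih, length_cons, count_replicate]
    simp

theorem length_stuffles (k l : List ℕ) : ∀ m ∈ stuffles k l, m.length ≤ k.length + l.length := by
  induction k, l using stuffles.induct with
  | case1 l => intro m hm; rw [stuffles_nil, mem_singleton] at hm; subst hm; simp
  | case2 i k => intro m hm; rw [stuffles_nil', mem_singleton] at hm; subst hm; simp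
  | case3 i k j l ih1 ih2 ih3 =>
    intro m hm
    rw [stuffles_cons, mem_append, mem_append, mem_map, mem_map, mem_map] at hm
    rcases hm with (⟨n, hn, rfl⟩ | ⟨n, hn, rfl⟩) | ⟨n, hn, rfl⟩
    · have := ih1 n hn
      simp only [length_cons] at this ⊢
      omega
    · have := ih2 n hn
      simp only [length_cons] at this ⊢
      omega
    · have := ih3 n hn
      simp only [length_cons] at this ⊢
      omega

theorem sum_stuffles (k l : List ℕ) : ∀ m ∈ stuffles k l, m.sum = k.sum + l.sum := by
  induction k, l using stuffles.induct with
  | case1 l => intro m hm; rw [stuffles_nil, mem_singleton] at hm; subst hm; simp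
  | case2 i k => intro m hm; rw [stuffles_nil', mem_singleton] at hm; subst hm; simp
  | case3 i k j l ih1 ih2 ih3 =>
    intro m hm
    rw [stuffles_cons, mem_append, mem_append, mem_map, mem_map, mem_map] at hm
    rcases hm with (⟨n, hn, rfl⟩ | ⟨n, hn, rfl⟩) | ⟨n, hn, rfl⟩
    · have := ih1 n hn
      simp only [sum_cons] at this ⊢
      omega
    · have := ih2 n hn
      simp only [sum_cons] at this ⊢
      omega
    · have := ih3 n hn
      simp only [sum_cons] at this ⊢
      omega

theorem pos_stuffles (k l : List ℕ) (hk : ∀ a ∈ k, 1 ≤ a) (hl : ∀ a ∈ l, 1 ≤ a) :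
    ∀ m ∈ stuffles k l, ∀ a ∈ m, 1 ≤ a := by
  induction k, l using stuffles.induct with
  | case1 l => intro m hm; rw [stuffles_nil, mem_singleton] at hm; subst hm; exact hl
  | case2 i k => intro m hm; rw [stuffles_nil', mem_singleton] at hm; subst hm; exact hk
  | case3 i k j l ih1 ih2 ih3 =>
    have hk' : ∀ a ∈ k, 1 ≤ a := fun a ha => hk a (by simp [ha])
    have hl' : ∀ a ∈ l, 1 ≤ a := fun a ha => hl a (by simp [ha])
    have hi := hk i (by simp)
    have hj := hl j (by simp)
    intro m hm
    rw [stuffles_cons, mem_append, mem_append, mem_map, mem_map, mem_map] at hm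
    rcases hm with (⟨n, hn, rfl⟩ | ⟨n, hn, rfl⟩) | ⟨n, hn, rfl⟩
    · intro a ha
      rcases mem_cons.1 ha with rfl | ha
      · exact hi
      · exact ih1 hk' hl n hn a ha
    · intro a ha
      rcases mem_cons.1 ha with rfl | ha
      · exact hj
      · exact ih2 hk hl' n hn a ha
    · intro a ha
      rcases mem_cons.1 ha with rfl | ha
      · omega
      · exact ih3 hk' hl' n hn a ha

/-- the sum of the squares -/
def ssq (l : List ℕ) : ℕ := (l.map fun a => a * a).sum

theorem ssq_cons (a : ℕ) (l : List ℕ) : ssq (a :: l) = a * a + ssq l := by simp [ssq]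

theorem ssq_append (k l : List ℕ) : ssq (k ++ l) = ssq k + ssq l := by simp [ssq]

theorem ssq_stuffles (k l : List ℕ) : ∀ m ∈ stuffles k l, m.length = k.length + l.length →
    ssq m = ssq k + ssq l := by
  induction k, l using stuffles.induct with
  | case1 l => intro m hm; rw [stuffles_nil, mem_singleton] at hm; subst hm; simp [ssq]
  | case2 i k => intro m hm; rw [stuffles_nil', mem_singleton] at hm; subst hm; simp [ssq]
  | case3 i k j l ih1 ih2 ih3 =>
    intro m hm hlen
    rw [stuffles_cons, mem_append, mem_append, mem_map, mem_map, mem_map] at hm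
    rcases hm with (⟨n, hn, rfl⟩ | ⟨n, hn, rfl⟩) | ⟨n, hn, rfl⟩
    · have := ih1 n hn (by simp only [length_cons] at hlen ⊢; omega)
      rw [ssq_cons, this, ssq_cons, ssq_cons]
      omega
    · have := ih2 n hn (by simp only [length_cons] at hlen ⊢; omega)
      rw [ssq_cons, this, ssq_cons, ssq_cons]
      omega
    · have := length_stuffles k l n hn
      simp only [length_cons] at hlen
      omega

theorem append_mem_stuffles (k l : List ℕ) : k ++ l ∈ stuffles k l := by
  induction k with
  | nil => rw [stuffles_nil]; simp
  | cons i k ih =>
    cases l with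
    | nil => rw [stuffles_nil']; simp
    | cons j l =>
      rw [stuffles_cons, mem_append, mem_append]
      exact Or.inl (Or.inl (mem_map.2 ⟨_, ih, rfl⟩))

theorem count_blk (i : ℕ) (s : List Bool) (L : List (List ℕ)) :
    ((L.map (i :: ·)).map word).count s = ((L.map word).map (blk i ++ ·)).count s := by
  rw [map_map, map_map]
  congr 1
  apply map_congr_left
  intro m _
  exact word_cons' i m

theorem count_map_le (b s : List Bool) (L L' : List (List Bool))
    (h : ∀ s', s = b ++ s' → L.count s' ≤ L'.count s') :
    (L.map (b ++ ·)).count s ≤ (L'.map (b ++ ·)).count s := by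
  by_cases hs : ∃ s', s = b ++ s'
  · obtain ⟨s', rfl⟩ := hs
    rw [count_map_of_injective _ _ (fun _ _ h => append_cancel_left h),
      count_map_of_injective _ _ (fun _ _ h => append_cancel_left h)]
    exact h s' rfl
  · have : (L.map (b ++ ·)).count s = 0 := by
      rw [count_eq_zero, mem_map]
      rintro ⟨s', _, rfl⟩
      exact hs ⟨s', rfl⟩
    omega

/-- in the highest depth every word appears in the shuffle product at least as often as in the
stuffle product -/
theorem count_le (k l : List ℕ) : ∀ s : List Bool, s.count true = k.length + l.length →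
    ((stuffles k l).map word).count s ≤ (shuffles (word k) (word l)).count s := by
  induction k, l using stuffles.induct with
  | case1 l => intro s _; rw [stuffles_nil, word, shuffles_nil]; simp
  | case2 i k => intro s _; rw [stuffles_nil', word, shuffles_nil']; simp
  | case3 i k j l ih1 ih2 ih3 =>
    intro s hs
    rw [stuffles_cons, map_append, map_append, count_append, count_append]
    have h3 : (((stuffles k l).map ((i + j) :: ·)).map word).count s = 0 := by
      rw [count_eq_zero, mem_map]
      rintro ⟨m, hm, rfl⟩
      rw [mem_map] at hm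
      obtain ⟨n, hn, rfl⟩ := hm
      have := length_stuffles k l n hn
      rw [count_word] at hs
      simp only [length_cons] at hs
      omega
    rw [h3, add_zero, count_blk, count_blk]
    refine le_trans ?_ ((sub_blk i j k l).count_le s)
    rw [count_append]
    have hb : ∀ n, (blk n).count true = 1 := by
      intro n
      rw [blk, count_append, count_replicate]
      simp
    refine Nat.add_le_add ?_ ?_
    · apply count_map_le
      intro s' hs'
      apply ih1
      rw [hs', count_append, hb] at hs
      simp only [length_cons] at hs ⊢
      omega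
    · apply count_map_le
      intro s' hs'
      apply ih2
      rw [hs', count_append, hb] at hs
      simp only [length_cons] at hs ⊢
      omega

theorem index_rep (n : ℕ) : ∀ (c : ℕ) (u : List Bool),
    index c (replicate n false ++ u) = index (c + n) u := by
  induction n with
  | zero => intro c u; simp
  | succ n ih => intro c u; rw [replicate_succ, cons_append, index, ih]; congr 1; omega

theorem index_word (l : List ℕ) (h : ∀ a ∈ l, 1 ≤ a) : index 0 (word l) = l := by
  induction l with
  | nil => rfl
  | cons k l ih =>
    rw [word_cons, index_rep, index, ih fun a ha => h a (by simp [ha])]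
    have := h k (by simp)
    congr 1
    omega

theorem word_inj {k l : List ℕ} (hk : ∀ a ∈ k, 1 ≤ a) (hl : ∀ a ∈ l, 1 ≤ a)
    (h : word k = word l) : k = l := by
  rw [← index_word k hk, h, index_word l hl]

end Pool.Agent.H65.MZ
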