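import Pool.Agent.H65.MZ.Dim

/-! # The regularized double shuffle elements of the powers of `y` -/

set_option autoImplicit false

namespace Pool.Agent.H65.MZ

open List Module

/-- put the letter `a` in front of all words -/
noncomputable def pre (a : Bool) : W →ₗ[ℚ] W := Finsupp.lmapDomain ℚ ℚ (a :: ·)

theorem pre_single (a : Bool) (w : List Bool) (c : ℚ) :
    pre a (Finsupp.single w c) = Finsupp.single (a :: w) c := by
  simp [pre, Finsupp.lmapDomain_apply, Finsupp.mapDomain_single]

theorem total_nil : total [] = 0 := by simp [total]

theorem total_cons (w : List Bool) (L : List (List Bool)) :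
    total (w :: L) = Finsupp.single w 1 + total L := by simp [total]

theorem total_append (L M : List (List Bool)) : total (L ++ M) = total L + total M := by
  simp [total]

theorem total_map_cons (a : Bool) (L : List (List Bool)) :
    total (L.map (a :: ·)) = pre a (total L) := by
  induction L with
  | nil => simp [total_nil]
  | cons w L ih => rw [map_cons, total_cons, total_cons, map_add, ih, pre_single]

theorem total_one (w : List Bool) : total [w] = Finsupp.single w 1 := by simp [total]

/-- the shuffle product with `y ^ m` -/
noncomputable def S (m : ℕ) : W →ₗ[ℚ] W :=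
  Finsupp.linearCombination ℚ fun w => total (shuffles (replicate m true) w)

theorem S_single (m : ℕ) (w : List Bool) : S m (Finsupp.single w 1) =
    total (shuffles (replicate m true) w) := by
  rw [S, Finsupp.linearCombination_single, one_smul]

theorem S_zero (f : W) : S 0 f = f := by
  induction f using Finsupp.induction_linear with
  | zero => simp
  | add f g hf hg => rw [map_add, hf, hg]
  | single w c =>
    rw [S, Finsupp.linearCombination_single, replicate_zero, shuffles_nil, total_one,
      Finsupp.smul_single, smul_eq_mul, mul_one]

theorem S_pre (m : ℕ) (a : Bool) (f : W) :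
    S (m + 1) (pre a f) = pre a (S (m + 1) f) + pre true (S m (pre a f)) := by
  induction f using Finsupp.induction_linear with
  | zero => simp
  | add f g hf hg => simp only [map_add, hf, hg]; abel
  | single w c =>
    have hc : (Finsupp.single w c : W) = c • Finsupp.single w 1 := by
      rw [Finsupp.smul_single, smul_eq_mul, mul_one]
    rw [hc]
    simp only [map_smul]
    rw [← smul_add]
    congr 1
    rw [pre_single, S_single, S_single, S_single, replicate_succ, shuffles_cons, total_append,
      total_map_cons, total_map_cons, add_comm]

theorem S_nil (m : ℕ) : S m (Finsupp.single [] 1) = Finsupp.single (replicate m true) 1 := by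
  rw [S_single, shuffles_nil', total_one]

/-- `T g m` is the alternating sum of the `y ^ i ш g j` with `i + j = m` -/
noncomputable def T (g : ℕ → W) (m : ℕ) : W :=
  ∑ ij ∈ Finset.HasAntidiagonal.antidiagonal m, (-1 : ℚ) ^ ij.2 • S ij.1 (g ij.2)

theorem T_zero (g : ℕ → W) : T g 0 = g 0 := by
  simp [T, S_zero]

theorem T_pre (a : Bool) (g : ℕ → W) (m : ℕ) : T (fun j => pre a (g j)) (m + 1) =
    pre a (T g (m + 1)) + pre true (T (fun j => pre a (g j)) m) := by
  rw [T, T, T, Finset.Nat.sum_antidiagonal_succ, Finset.Nat.sum_antidiagonal_succ]
  simp only [S_pre, S_zero, map_add, map_sum, map_smul, smul_add, Finset.sum_add_distrib]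
  abel

theorem T_shift (g h : ℕ → W) (h0 : g 0 = h 0) (hs : ∀ j, g (j + 1) = h (j + 1) + pre true (g j))
    (m : ℕ) : T g (m + 1) = T h (m + 1) - T (fun j => pre true (g j)) m := by
  rw [T, T, T, Finset.Nat.sum_antidiagonal_succ', Finset.Nat.sum_antidiagonal_succ']
  simp only [h0, hs, map_add, smul_add, Finset.sum_add_distrib, pow_succ, mul_neg, mul_one,
    neg_smul, Finset.sum_neg_distrib]
  abel

/-- the terms of `h_m w`: `m` letters `y` are distributed over all blocks of letters `y` of `w` -/
noncomputable def hh : ℕ → List Bool → W
  | m, [] => Finsupp.single (replicate m true) 1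
  | m, true :: w => pre true (hh m w)
  | 0, false :: w => pre false (hh 0 w)
  | m + 1, false :: w => pre false (hh (m + 1) w) + pre true (hh m (false :: w))

/-- the `y` are inserted after letters `y` only -/
noncomputable def kk : ℕ → List Bool → W
  | 0, [] => Finsupp.single [] 1
  | _ + 1, [] => 0
  | m, false :: w => pre false (kk m w)
  | 0, true :: w => pre true (kk 0 w)
  | m + 1, true :: w => pre true (kk (m + 1) w) + pre true (kk m (true :: w))

/-- the `y` are inserted after letters `y` and in front -/
noncomputable def aa : ℕ → List Bool → W
  | 0, w => kk 0 w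
  | m + 1, w => kk (m + 1) w + pre true (aa m w)

theorem hh_nil (m : ℕ) : hh m [] = Finsupp.single (replicate m true) 1 := by cases m <;> rw [hh]
theorem hh_true (m : ℕ) (w : List Bool) : hh m (true :: w) = pre true (hh m w) := by
  cases m <;> rw [hh]
theorem hh_false_zero (w : List Bool) : hh 0 (false :: w) = pre false (hh 0 w) := by rw [hh]
theorem hh_false (m : ℕ) (w : List Bool) : hh (m + 1) (false :: w) =
    pre false (hh (m + 1) w) + pre true (hh m (false :: w)) := by rw [hh]

theorem kk_false (m : ℕ) (w : List Bool) : kk m (false :: w) = pre false (kk m w) := by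
  cases m <;> rw [kk]
theorem kk_true (m : ℕ) (w : List Bool) : kk (m + 1) (true :: w) =
    pre true (kk (m + 1) w) + pre true (kk m (true :: w)) := by rw [kk]
theorem kk_true_zero (w : List Bool) : kk 0 (true :: w) = pre true (kk 0 w) := by rw [kk]
theorem kk_nil_zero : kk 0 [] = Finsupp.single [] 1 := by rw [kk]
theorem kk_nil (m : ℕ) : kk (m + 1) [] = 0 := by rw [kk]

theorem T_nil (m : ℕ) : T (fun j => hh j []) (m + 1) = 0 ∧
    T (fun j => pre true (hh j [])) m = Finsupp.single (replicate (m + 1) true) 1 := by
  have h1 : ∀ m, T (fun j => hh j []) (m + 1) = Finsupp.single (replicate (m + 1) true) 1 -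
      T (fun j => pre true (hh j [])) m := by
    intro m
    rw [T, T, Finset.Nat.sum_antidiagonal_succ']
    have h2 : ∀ j, hh (j + 1) [] = pre true (hh j []) := by
      intro j
      rw [hh_nil, hh_nil, pre_single, replicate_succ]
    simp only [h2, pow_succ, mul_neg, mul_one, neg_smul, Finset.sum_neg_distrib, pow_zero, one_smul]
    rw [hh_nil, replicate_zero, S_nil]
    abel
  induction m with
  | zero =>
    have h3 : T (fun j => pre true (hh j [])) 0 = Finsupp.single (replicate (0 + 1) true) 1 := by
      rw [T_zero, hh_nil, pre_single]; rfl
    refine ⟨?_, h3⟩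
    rw [h1, h3, sub_self]
  | succ m ih =>
    have h3 : T (fun j => pre true (hh j [])) (m + 1) =
        Finsupp.single (replicate (m + 1 + 1) true) 1 := by
      rw [T_pre, ih.1, ih.2, map_zero, zero_add, pre_single, ← replicate_succ]
    refine ⟨?_, h3⟩
    rw [h1, h3, sub_self]

theorem kk_eq (w : List Bool) : ∀ m, kk m w = T (fun j => hh j w) m := by
  induction w with
  | nil =>
    intro m
    cases m with
    | zero => rw [T_zero, kk_nil_zero, hh_nil]; rfl
    | succ m => rw [kk_nil, (T_nil m).1]
  | cons a w ih =>
    cases a with
    | false =>
      have key : ∀ m, pre true (T (fun j => pre false (hh j w)) m) =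
          T (fun j => pre true (hh j (false :: w))) m := by
        intro m
        induction m with
        | zero => rw [T_zero, T_zero, hh_false_zero]
        | succ m ihm =>
          rw [T_pre true, T_shift (fun j => hh j (false :: w)) (fun j => pre false (hh j w))
            (hh_false_zero w) (fun j => hh_false j w), map_sub]
          abel
      intro m
      cases m with
      | zero => rw [T_zero, hh_false_zero, kk_false, ih, T_zero]
      | succ m =>
        rw [kk_false, ih, T_shift (fun j => hh j (false :: w)) (fun j => pre false (hh j w))
            (hh_false_zero w) (fun j => hh_false j w), T_pre false, ← key]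
        abel
    | true =>
      intro m
      induction m with
      | zero => rw [T_zero, hh_true, kk_true_zero, ih, T_zero]
      | succ m ihm =>
        have h : (fun j => hh j (true :: w)) = fun j => pre true (hh j w) := by
          funext j; rw [hh_true]
        rw [kk_true, ihm, ih, h, T_pre]

theorem aa_false (m : ℕ) (w : List Bool) :
    aa m (false :: w) = T (fun j => pre false (hh j w)) m := by
  induction m with
  | zero => rw [aa, kk_false, kk_eq, T_zero, T_zero]
  | succ m ih => rw [aa, ih, kk_false, kk_eq, T_pre]

theorem kk_true' (m : ℕ) (w : List Bool) : kk m (true :: w) = pre true (aa m w) := by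
  induction m with
  | zero => rw [kk_true_zero, aa]
  | succ m ih => rw [kk_true, ih, aa, map_add]

theorem S_S (i j : ℕ) (f : W) : S i (S j f) = ((i + j).choose i : ℚ) • S (i + j) f := by
  induction f using Finsupp.induction_linear with
  | zero => simp
  | add f g hf hg => rw [map_add, map_add, hf, hg, map_add, smul_add]
  | single w c =>
    have hc : (Finsupp.single w c : W) = c • Finsupp.single w 1 := by
      rw [Finsupp.smul_single, smul_eq_mul, mul_one]
    rw [hc, map_smul, map_smul, map_smul, smul_comm]
    congr 1
    clear hc c
    -- it is enough to treat words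
    suffices h : ∀ n i j, i + j = n → ∀ w : List Bool, S i (S j (Finsupp.single w 1)) =
        ((i + j).choose i : ℚ) • S (i + j) (Finsupp.single w 1) from h _ i j rfl w
    clear i j w
    intro n
    induction n with
    | zero =>
      intro i j hij w
      obtain rfl : i = 0 := by omega
      obtain rfl : j = 0 := by omega
      simp [S_zero]
    | succ n ihn =>
      intro i j hij w
      rcases i with _ | i
      · simp [S_zero]
      rcases j with _ | j
      · simp [S_zero]
      have h1 : i + (j + 1) = n := by omega
      have h2 : (i + 1) + j = n := by omega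
      have hch : (((i + 1) + (j + 1)).choose (i + 1) : ℚ) =
          ((i + (j + 1)).choose i : ℚ) + (((i + 1) + j).choose (i + 1) : ℚ) := by
        have e1 : (i + 1) + (j + 1) = (i + j + 1) + 1 := by ring
        have e2 : i + (j + 1) = i + j + 1 := by ring
        have e3 : (i + 1) + j = i + j + 1 := by ring
        rw [e1, e2, e3, Nat.choose_succ_succ]
        push_cast
        ring
      induction w with
      | nil =>
        rw [S_nil, S_nil]
        have e : (Finsupp.single (replicate (j + 1) true) 1 : W) =
            pre true (S j (Finsupp.single [] 1)) := by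
          rw [S_nil, pre_single, replicate_succ]
        have e' : (Finsupp.single (replicate (i + 1 + (j + 1)) true) 1 : W) =
            pre true (S (i + 1 + j) (Finsupp.single [] 1)) := by
          rw [S_nil, pre_single, ← replicate_succ]; rfl
        rw [e, S_pre, ← e, ihn (i + 1) j h2, e']
        have e2 : S i (Finsupp.single (replicate (j + 1) true) 1) =
            ((i + (j + 1)).choose i : ℚ) • S (i + (j + 1)) (Finsupp.single [] 1) := by
          rw [← ihn i (j + 1) h1, S_nil]
        rw [e2, hch, map_smul, map_smul, add_smul]
        have e3 : i + (j + 1) = i + 1 + j := by ring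
        rw [e3]
        abel
      | cons a w ihw =>
        rw [← pre_single a w 1]
        rw [S_pre j, map_add, S_pre i, S_pre i, ihw]
        have e1 : S i (pre a (S (j + 1) (Finsupp.single w 1))) +
            S i (pre true (S j (pre a (Finsupp.single w 1)))) =
            ((i + (j + 1)).choose i : ℚ) • S (i + (j + 1)) (pre a (Finsupp.single w 1)) := by
          rw [← map_add, ← S_pre j, pre_single, ihn i (j + 1) h1]
        have e2 : S (i + 1) (S j (pre a (Finsupp.single w 1))) =
            ((i + 1 + j).choose (i + 1) : ℚ) • S (i + 1 + j) (pre a (Finsupp.single w 1)) := by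
          rw [pre_single, ihn (i + 1) j h2]
        rw [e2]
        have e3 : i + (j + 1) = i + 1 + j := by ring
        have e4 : i + 1 + (j + 1) = (i + 1 + j) + 1 := by ring
        rw [e4, S_pre (i + 1 + j), ← e4, smul_add, ← map_smul, hch, add_smul, add_smul]
        rw [e3] at e1 ⊢
        have e5 : pre true (S i (pre a (S (j + 1) (Finsupp.single w 1)))) +
            pre true (S i (pre true (S j (pre a (Finsupp.single w 1))))) =
            ((i + 1 + j).choose i : ℚ) • pre true (S (i + 1 + j) (pre a (Finsupp.single w 1))) := by
          rw [← map_add, e1, map_smul]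
        simp only [map_smul, map_add, add_smul] at e5 ⊢
        rw [← e5]
        abel

end Pool.Agent.H65.MZ
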