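import Pool.Agent.H65.MZ.YPow
import Pool.Agent.H65.MZ.StairDefs

/-! # The main relation: `h_m (Y) v` for words `v` -/

set_option autoImplicit false

namespace Pool.Agent.H65.MZ

open List Module

/-- the span of the words in `y ℚ⟨x,y⟩` or `1` of length `p` with less than `d` letters `y` -/
noncomputable def Lo1 (p d : ℕ) : Submodule ℚ W :=
  Submodule.span ℚ {f | ∃ w, InH1 w ∧ w.length = p ∧ w.count true < d ∧ f = Finsupp.single w 1}

theorem inH1_rep (m : ℕ) : InH1 (replicate m true) := by
  cases m with
  | zero => exact Or.inl rfl
  | succ m => right; rw [replicate_succ', getLast?_append]; simp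

theorem YDS_le_RDS (p : ℕ) : YDS p ≤ RDS p := by
  refine Submodule.span_mono ?_
  rintro f ⟨m, v, _, hv, hp, rfl⟩
  exact ⟨_, v, inH1_rep m, hv, by simpa using hp, rfl⟩

theorem index_replicate (m : ℕ) : index 0 (replicate m true) = replicate m 1 := by
  induction m with
  | zero => rfl
  | succ m ih => rw [replicate_succ, replicate_succ, index, ih]

theorem pre_mem_Lo1 {p d : ℕ} {f : W} (hf : f ∈ Lo1 p d) : pre true f ∈ Lo1 (p + 1) (d + 1) := by
  rw [Lo1] at hf
  induction hf using Submodule.span_induction with
  | mem f h =>
    obtain ⟨w, hw, hl, hc, rfl⟩ := h
    rw [pre_single]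
    refine Submodule.subset_span ⟨true :: w, ?_, by simp [hl], by simpa using hc, rfl⟩
    rcases hw with rfl | hw
    · right; rfl
    · right
      cases w with
      | nil => simp at hw
      | cons a w => simpa using hw
  | zero => simp
  | add f g _ _ h1 h2 => rw [map_add]; exact add_mem h1 h2
  | smul c f _ h1 => rw [map_smul]; exact Submodule.smul_mem _ _ h1

/-- put the word `u` in front of all words -/
noncomputable def prew (u : List Bool) : W →ₗ[ℚ] W := Finsupp.lmapDomain ℚ ℚ (u ++ ·)

theorem prew_single (u w : List Bool) (c : ℚ) :
    prew u (Finsupp.single w c) = Finsupp.single (u ++ w) c := by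
  simp [prew, Finsupp.lmapDomain_apply, Finsupp.mapDomain_single]

theorem prew_cons (a : Bool) (u : List Bool) (f : W) : prew (a :: u) f = pre a (prew u f) := by
  induction f using Finsupp.induction_linear with
  | zero => simp
  | add f g hf hg => simp only [map_add, hf, hg]
  | single w c => rw [prew_single, prew_single, pre_single, cons_append]

theorem prew_nil (f : W) : prew [] f = f := by
  induction f using Finsupp.induction_linear with
  | zero => simp
  | add f g hf hg => simp only [map_add, hf, hg]
  | single w c => rw [prew_single, nil_append]

theorem prew_append (u v : List Bool) (f : W) : prew (u ++ v) f = prew u (prew v f) := by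
  induction f using Finsupp.induction_linear with
  | zero => simp
  | add f g hf hg => simp only [map_add, hf, hg]
  | single w c => simp only [prew_single, append_assoc]

theorem total_map_blk (k : ℕ) (L : List (List ℕ)) :
    total ((L.map (k :: ·)).map word) = prew (blk k) (total (L.map word)) := by
  induction L with
  | nil => simp [total_nil]
  | cons w L ih =>
    simp only [map_cons, total_cons, map_add]
    rw [ih, prew_single, word_cons']

theorem blk_mem_Lo1 {p d k : ℕ} (hk : 1 ≤ k) {f : W} (hf : f ∈ Lo1 p d) :
    prew (blk k) f ∈ Lo1 (p + k) (d + 1) := by
  rw [Lo1] at hf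
  induction hf using Submodule.span_induction with
  | mem f h =>
    obtain ⟨w, hw, hl, hc, rfl⟩ := h
    rw [prew_single]
    refine Submodule.subset_span ⟨_, ?_, ?_, ?_, rfl⟩
    · rcases hw with rfl | hw
      · right; simp [blk]
      · right
        rw [getLast?_append, hw]; rfl
    · rw [length_append, sum_blk k hk, hl]; omega
    · rw [count_append, blk, count_append]
      simp [count_replicate]
      omega
  | zero => simp
  | add f g _ _ h1 h2 => rw [map_add]; exact add_mem h1 h2
  | smul c f _ h1 => rw [map_smul]; exact Submodule.smul_mem _ _ h1

theorem total_mem_Lo1 (p d : ℕ) (L : List (List ℕ)) (hL : ∀ l ∈ L, (∀ a ∈ l, 1 ≤ a) ∧ l.sum = p ∧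
    l.length < d) : total (L.map word) ∈ Lo1 p d := by
  induction L with
  | nil => simp [total_nil]
  | cons l L ih =>
    rw [map_cons, total_cons]
    refine add_mem ?_ (ih fun l' h => hL l' (mem_cons_of_mem _ h))
    obtain ⟨h1, h2, h3⟩ := hL l mem_cons_self
    refine Submodule.subset_span ⟨word l, word_inH1 l, ?_, ?_, rfl⟩
    · rw [length_word l h1, h2]
    · rw [count_word]; exact h3

theorem kk_rep (m k : ℕ) (w : List Bool) :
    kk m (replicate k false ++ w) = prew (replicate k false) (kk m w) := by
  induction k with
  | zero => rw [replicate_zero, nil_append, prew_nil]
  | succ k ih => rw [replicate_succ, cons_append, kk_false, ih, prew_cons]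

theorem kk_blk (m k : ℕ) (w : List Bool) : kk m (blk k ++ w) = prew (blk k) (aa m w) := by
  rw [blk, append_assoc, kk_rep, singleton_append, kk_true', prew_append, prew_cons, prew_nil]

theorem kk_zero (w : List Bool) : kk 0 w = Finsupp.single w 1 := by
  induction w with
  | nil => rw [kk_nil_zero]
  | cons a w ih => cases a <;> simp only [kk_false, kk_true_zero, ih, pre_single]

theorem aa_zero (w : List Bool) : aa 0 w = Finsupp.single w 1 := by rw [aa, kk_zero]

theorem aa_nil (m : ℕ) : aa m [] = Finsupp.single (replicate m true) 1 := by
  induction m with
  | zero => rw [aa_zero]; rfl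
  | succ m ih => rw [aa, kk_nil, ih, pre_single, zero_add, replicate_succ]

theorem word_replicate (m : ℕ) : word (replicate m 1) = replicate m true := by
  induction m with
  | zero => rfl
  | succ m ih => rw [replicate_succ, word_cons', ih]; rfl

/-- the terms of greatest depth of the stuffle product with `y ^ m` -/
theorem stuffles_top (m : ℕ) : ∀ l : List ℕ, (∀ a ∈ l, 1 ≤ a) →
    total ((stuffles (replicate m 1) l).map word) - aa m (word l) ∈
      Lo1 (m + l.sum) (m + l.length) := by
  induction m with
  | zero =>
    intro l _
    rw [replicate_zero, stuffles_nil, map_singleton, total_one, aa_zero, sub_self]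
    exact zero_mem _
  | succ m ihm =>
    intro l
    induction l with
    | nil =>
      intro _
      rw [stuffles_nil', map_singleton, total_one, word_replicate, word, aa_nil, sub_self]
      exact zero_mem _
    | cons j l ihl =>
      intro hl
      have hl' : ∀ a ∈ l, 1 ≤ a := fun a h => hl a (mem_cons_of_mem _ h)
      have hj : 1 ≤ j := hl j mem_cons_self
      have h1 := ihm (j :: l) hl
      have h2 := ihl hl'
      have h1' : pre true (total ((stuffles (replicate m 1) (j :: l)).map word) -
          aa m (word (j :: l))) ∈ Lo1 (m + 1 + (j :: l).sum) (m + 1 + (j :: l).length) := by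
        have := pre_mem_Lo1 h1
        have e1 : m + (j :: l).sum + 1 = m + 1 + (j :: l).sum := by ring
        have e2 : m + (j :: l).length + 1 = m + 1 + (j :: l).length := by ring
        rwa [e1, e2] at this
      have h2' : prew (blk j) (total ((stuffles (replicate (m + 1) 1) l).map word) -
          aa (m + 1) (word l)) ∈ Lo1 (m + 1 + (j :: l).sum) (m + 1 + (j :: l).length) := by
        have := blk_mem_Lo1 hj h2
        have e1 : m + 1 + l.sum + j = m + 1 + (j :: l).sum := by rw [sum_cons]; ring
        have e2 : m + 1 + l.length + 1 = m + 1 + (j :: l).length := by rw [length_cons]; ring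
        rwa [e1, e2] at this
      have h3 : total (((stuffles (replicate m 1) l).map ((1 + j) :: ·)).map word) ∈
          Lo1 (m + 1 + (j :: l).sum) (m + 1 + (j :: l).length) := by
        refine total_mem_Lo1 _ _ _ ?_
        intro t ht
        obtain ⟨s, hs, rfl⟩ := mem_map.1 ht
        have hr : ∀ a ∈ replicate m 1, 1 ≤ a := fun a ha => by rw [(mem_replicate.1 ha).2]
        refine ⟨?_, ?_, ?_⟩
        · intro a ha
          rcases mem_cons.1 ha with rfl | ha
          · omega
          · exact pos_stuffles _ _ hr hl' s hs a ha
        · have := sum_stuffles _ _ s hs
          rw [sum_cons, this]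
          simp
          ring
        · have := length_stuffles _ _ s hs
          simp at this ⊢
          omega
      have e : total ((stuffles (replicate (m + 1) 1) (j :: l)).map word) -
          aa (m + 1) (word (j :: l)) =
          pre true (total ((stuffles (replicate m 1) (j :: l)).map word) -
            aa m (word (j :: l))) +
          prew (blk j) (total ((stuffles (replicate (m + 1) 1) l).map word) -
            aa (m + 1) (word l)) +
          total (((stuffles (replicate m 1) l).map ((1 + j) :: ·)).map word) := by
        rw [replicate_succ, stuffles_cons, map_append, map_append, total_append, total_append,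
          total_map_blk 1, total_map_blk j, aa, word_cons' j l, kk_blk, map_sub, map_sub,
          ← word_cons' j l]
        have : prew (blk 1) (total ((stuffles (replicate m 1) (j :: l)).map word)) =
          pre true (total ((stuffles (replicate m 1) (j :: l)).map word)) := by
          rw [blk]; simp only [Nat.sub_self, replicate_zero, nil_append]
          rw [prew_cons, prew_nil]
        rw [this]
        abel
      rw [e]
      exact add_mem (add_mem h1' h2') h3

/-- the regularization of a word in `H1` -/
theorem reg_Lo1 {p d : ℕ} {f : W} (hf : f ∈ Lo1 p d) : reg f ∈ Lo p d := by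
  rw [Lo1] at hf
  induction hf using Submodule.span_induction with
  | mem f h =>
    obtain ⟨w, hw, hl, hc, rfl⟩ := h
    rw [reg, Finsupp.linearCombination_single, one_smul, regWord]
    have hd : w.takeWhile id ++ w.dropWhile id = w := takeWhile_append_dropWhile
    cases hw' : w.dropWhile id with
    | nil =>
      simp only
      split_ifs with h0
      · subst h0
        exact Submodule.subset_span ⟨[], Or.inl rfl, hl, hc, rfl⟩
      · exact zero_mem _
    | cons a u =>
      simp only
      refine Submodule.smul_mem _ _ ?_
      have ha : a = false := by
        have := List.head_dropWhile_not (p := id) (l := w) (by rw [hw']; simp)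
        simp only [hw', head_cons] at this
        simpa using this
      subst ha
      rw [hw'] at hd
      have hu : InH1 u := by
        rcases hw with rfl | hw
        · simp at hw'
        · rw [← hd] at hw
          cases u with
          | nil =>
            exfalso
            rw [getLast?_append] at hw
            simp at hw
          | cons b u =>
            right
            rw [getLast?_append] at hw
            simpa using hw
      have hune : u ≠ [] := by
        rintro rfl
        rcases hw with rfl | hw
        · simp at hw'
        · rw [← hd, getLast?_append] at hw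
          simp at hw
      have ht : InH1 (w.takeWhile id) := by
        have : w.takeWhile id = replicate (w.takeWhile id).length true := by
          refine eq_replicate_iff.2 ⟨rfl, fun b hb => ?_⟩
          simpa using mem_takeWhile_imp hb
        rw [this]
        exact inH1_rep _
      have key : ∀ s ∈ (shuffles (w.takeWhile id) u).map (false :: ·), InH0 s ∧ s.length = p ∧
          s.count true < d := by
        intro s hs
        obtain ⟨s', hs', rfl⟩ := mem_map.1 hs
        have hl' := length_shuffles _ _ s' hs'
        have hc' : s'.count true = (w.takeWhile id).count true + u.count true :=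
          count_shuffles _ _ s' hs'
        have h1 : InH1 s' := shuffles_inH1 _ _ ht hu s' hs'
        have hne : s' ≠ [] := by
          rintro rfl
          simp at hl'
          apply hune
          exact length_eq_zero_iff.1 (by omega)
        have hwl : w.length = (w.takeWhile id).length + (u.length + 1) := by
          conv_lhs => rw [← hd]
          rw [length_append, length_cons]
        have hwc : w.count true = (w.takeWhile id).count true + u.count true := by
          conv_lhs => rw [← hd]
          rw [count_append, count_cons]
          simp
        refine ⟨Or.inr ⟨rfl, ?_⟩, ?_, ?_⟩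
        · rcases h1 with h1 | h1
          · exact absurd h1 hne
          · cases s' with
            | nil => exact absurd rfl hne
            | cons b s' => simpa using h1
        · rw [length_cons, hl']; omega
        · rw [count_cons, hc']; simp; omega
      generalize (shuffles (w.takeWhile id) u).map (false :: ·) = L at key
      induction L with
      | nil => rw [total_nil]; exact zero_mem _
      | cons s L ih =>
        rw [total_cons]
        refine add_mem ?_ (ih fun t ht => key t (mem_cons_of_mem _ ht))
        obtain ⟨k1, k2, k3⟩ := key s mem_cons_self
        exact Submodule.subset_span ⟨s, k1, k2, k3, rfl⟩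
  | zero => simp
  | add f g _ _ h1 h2 => rw [map_add]; exact add_mem h1 h2
  | smul c f _ h1 => rw [map_smul]; exact Submodule.smul_mem _ _ h1

end Pool.Agent.H65.MZ
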